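import Pool.Agent.H2.RK.PolyA
import Mathlib.Combinatorics.Nullstellensatz

/-!
# Degrees and grids (module GridDeg)
-/

namespace Pool.Agent.H2.RK

open Matrix

variable {F : Type*} {ι : Type*} [Field F] {W : ℕ}

/-- all leaf polynomials have degree at most `δ` -/
def LeafDeg (δ : ℕ) : Net F ι W → Prop
  | .leaf _ v => ∀ p, (v p).natDegree ≤ δ
  | .const _ => True
  | .node _ l r => LeafDeg δ l ∧ LeafDeg δ r

theorem degreeOf_pval [DecidableEq ι] {δ : ℕ} {t : Net F ι W} (h : LeafDeg δ t) (p : Fin W)
    (i : ι) : (t.pval p).degreeOf i ≤ t.cnt i * δ := by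
  induction t generalizing p with
  | leaf j v =>
    simp only [Net.pval, Net.cnt]
    rw [Polynomial.aeval_eq_sum_range]
    refine (MvPolynomial.degreeOf_sum_le _ _ _).trans (Finset.sup_le fun k hk => ?_)
    have hk' : k ≤ δ := by
      have h1 := Finset.mem_range.1 hk
      have h2 : (v p).natDegree ≤ δ := h p
      omega
    rw [MvPolynomial.smul_eq_C_mul]
    refine (MvPolynomial.degreeOf_C_mul_le _ _ _).trans ?_
    refine (MvPolynomial.degreeOf_pow_le _ _ _).trans ?_
    rw [MvPolynomial.degreeOf_X]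
    by_cases hij : i = j
    · subst hij
      simpa using hk'
    · rw [if_neg hij]
      simp
  | const v => simp [Net.pval]
  | node B l r ihl ihr =>
    simp only [Net.pval, Net.cnt]
    refine (MvPolynomial.degreeOf_sum_le _ _ _).trans (Finset.sup_le fun u _ => ?_)
    refine (MvPolynomial.degreeOf_sum_le _ _ _).trans (Finset.sup_le fun w _ => ?_)
    refine (MvPolynomial.degreeOf_mul_le _ _ _).trans ?_
    rw [add_mul]
    exact Nat.add_le_add ((MvPolynomial.degreeOf_C_mul_le _ _ _).trans (ihl h.1 u)) (ihr h.2 w)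

theorem degreeOf_ptr [DecidableEq ι] {δ : ℕ} {c : List (Step F ι W)}
    (h : ∀ s ∈ c, LeafDeg δ s.2) (p q : Fin W) (i : ι) :
    (ptr c p q).degreeOf i ≤ cntC c i * δ := by
  induction c generalizing p q with
  | nil =>
    simp only [ptr, List.map_nil, List.prod_nil, Matrix.one_apply]
    split_ifs <;> simp
  | cons s c ih =>
    have hs : LeafDeg δ s.2 := h s List.mem_cons_self
    have hc := fun p q => ih (fun s hs => h s (List.mem_cons_of_mem _ hs)) p q
    simp only [ptr, cntC] at hc ⊢
    simp only [List.map_cons, List.prod_cons, List.sum_cons, Matrix.mul_apply]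
    refine (MvPolynomial.degreeOf_sum_le _ _ _).trans (Finset.sup_le fun u _ => ?_)
    refine (MvPolynomial.degreeOf_mul_le _ _ _).trans ?_
    rw [add_mul]
    refine Nat.add_le_add ?_ (hc u q)
    rw [Matrix.of_apply]
    refine (MvPolynomial.degreeOf_sum_le _ _ _).trans (Finset.sup_le fun w _ => ?_)
    exact (MvPolynomial.degreeOf_C_mul_le _ _ _).trans (degreeOf_pval hs w i)

/-- finitely many matrices with entries of degree at most `d` in every variable: a grid point at
which every rank is at least its rank at a given point (compare `Pool.Agent.H18.R2.exists_grid`) -/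
theorem exists_grid [Finite ι] {J : Type*} [Fintype J] {m : J → ℕ}
    (N : ∀ j : J, Matrix (Fin (m j)) (Fin (m j)) (MvPolynomial ι F)) (d : ℕ)
    (hN : ∀ j a b k, (N j a b).degreeOf k ≤ d) (c : J → ι → F) (T : Finset F)
    (hT : d * ∑ j, m j < T.card) :
    ∃ b : ι → F, (∀ i, b i ∈ T) ∧
      ∀ j, ((N j).map (MvPolynomial.eval (c j))).rank ≤ ((N j).map (MvPolynomial.eval b)).rank := by
  classical
  choose f g hfg using fun j =>
    Pool.Agent.H20.Edm.exists_minor ((N j).map (MvPolynomial.eval (c j))) (le_refl _)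
  have hne : ∀ j, ((N j).submatrix (f j) (g j)).det ≠ 0 := by
    intro j h0
    apply hfg j
    rw [Pool.Agent.H20.Edm.eval_minor, h0, map_zero]
  have hP : (∏ j, ((N j).submatrix (f j) (g j)).det) ≠ 0 :=
    Finset.prod_ne_zero_iff.2 fun j _ => hne j
  have hdeg : ∀ k, (∏ j, ((N j).submatrix (f j) (g j)).det).degreeOf k < T.card := by
    intro k
    refine lt_of_le_of_lt ((MvPolynomial.degreeOf_prod_le _ _ _).trans
      (Finset.sum_le_sum fun j _ => ?_)) (lt_of_le_of_lt (Finset.mul_sum _ _ _).ge hT)
    have h1 := Pool.Agent.H20.Edm.degreeOf_det_le ((N j).submatrix (f j) (g j)) k d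
      (fun a b => hN j _ _ k)
    refine h1.trans ?_
    rw [mul_comm]
    refine Nat.mul_le_mul_left d ?_
    simpa using Matrix.rank_le_width ((N j).map (MvPolynomial.eval (c j)))
  by_contra hcon
  apply hP
  refine MvPolynomial.eq_zero_of_eval_zero_at_prod_finset _ (fun _ => T) hdeg ?_
  intro x hx
  by_contra h0
  apply hcon
  refine ⟨x, hx, fun j => ?_⟩
  have h0 := Finset.prod_ne_zero_iff.1 (by rw [← map_prod]; exact h0 :
    ∏ j, MvPolynomial.eval x ((N j).submatrix (f j) (g j)).det ≠ 0)
  refine Pool.Agent.H20.Edm.le_rank_of_minor _ (f j) (g j) ?_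
  rw [Pool.Agent.H20.Edm.eval_minor]
  exact h0 j (Finset.mem_univ _)

end Pool.Agent.H2.RK
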