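import Pool.Agent.H2.RK.AnnL
import Pool.Agent.H2.RK.GridDeg

/-!
# Oblivious branching programs are networks (module ABP)
-/

namespace Pool.Agent.H2.RK

open Matrix

variable {F : Type*} {ι : Type*} [Field F] {w : ℕ}

/-- a layer: a letter and a `w × w` matrix of univariate polynomials in that letter -/
abbrev Layer (F : Type*) (ι : Type*) [Field F] (w : ℕ) :=
  ι × Matrix (Fin w) (Fin w) (Polynomial F)

/-- the value `E₁(x_{i₁}) ⋯ E_L(x_{i_L}) v` -/
noncomputable def abpVal (ls : List (Layer F ι w)) (v : Fin w → F) (x : ι → F) : Fin w → F :=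
  (ls.map fun l => l.2.map (Polynomial.eval (x l.1))).prod *ᵥ v

/-- the coefficients of the matrix product, `F^(w*w) × F^(w*w) → F^(w*w)` -/
private def abpMM (F : Type*) [Field F] (w : ℕ) : Bil F (w * w) := fun p u v =>
  if (finProdFinEquiv.symm p).1 = (finProdFinEquiv.symm u).1 ∧
    (finProdFinEquiv.symm u).2 = (finProdFinEquiv.symm v).1 ∧
    (finProdFinEquiv.symm p).2 = (finProdFinEquiv.symm v).2 then 1 else 0

private theorem abpMM_sum (M N : Fin (w * w) → F) (a b : Fin w) :
    (∑ u, ∑ v, abpMM F w (finProdFinEquiv (a, b)) u v * M u * N v) =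
      ∑ c, M (finProdFinEquiv (a, c)) * N (finProdFinEquiv (c, b)) := by
  rw [← Equiv.sum_comp (finProdFinEquiv (m := w) (n := w)), Fintype.sum_prod_type]
  have h : ∀ x y : Fin w, (∑ v, abpMM F w (finProdFinEquiv (a, b)) (finProdFinEquiv (x, y)) v *
      M (finProdFinEquiv (x, y)) * N v) =
      if a = x then M (finProdFinEquiv (x, y)) * N (finProdFinEquiv (y, b)) else 0 := by
    intro x y
    rw [← Equiv.sum_comp (finProdFinEquiv (m := w) (n := w)), Fintype.sum_prod_type]
    by_cases hx : a = x
    · rw [if_pos hx, Finset.sum_eq_single y, Finset.sum_eq_single b]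
      · simp [abpMM, hx]
      · intro z _ hz
        simp [abpMM, Ne.symm hz]
      · intro hb
        exact absurd (Finset.mem_univ _) hb
      · intro z _ hz
        refine Finset.sum_eq_zero fun z' _ => ?_
        simp [abpMM, Ne.symm hz]
      · intro hb
        exact absurd (Finset.mem_univ _) hb
    · rw [if_neg hx]
      refine Finset.sum_eq_zero fun z _ => Finset.sum_eq_zero fun z' _ => ?_
      simp [abpMM, hx]
  simp only [h]
  rw [Finset.sum_eq_single a]
  · simp
  · intro z _ hz
    simp [Ne.symm hz]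
  · intro hb
    exact absurd (Finset.mem_univ _) hb

private theorem abp_aux [DecidableEq ι] (ls : List (Layer F ι w)) (v : Fin w → F) (δ : ℕ)
    (hδ : ∀ l ∈ ls, ∀ p q, (l.2 p q).natDegree ≤ δ) :
    ∃ t : Net F ι (w * w), (∀ i, t.cnt i = ls.countP fun l => l.1 = i) ∧
      LeafDeg δ t ∧ t.size ≤ 2 * ls.length + 1 ∧
      ∀ x a b, t.val x (finProdFinEquiv (a, b)) = abpVal ls v x a := by
  induction ls with
  | nil =>
    refine ⟨.const fun r => v (finProdFinEquiv.symm r).1, ?_, trivial, ?_, ?_⟩
    · intro i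
      simp [Net.cnt]
    · simp [Net.size]
    · intro x a b
      simp [Net.val, abpVal]
  | cons l ls ih =>
    obtain ⟨t, h1, h2, h3, h4⟩ := ih fun l' hl' => hδ l' (List.mem_cons_of_mem _ hl')
    refine ⟨.node (abpMM F w)
      (.leaf l.1 fun r => l.2 (finProdFinEquiv.symm r).1 (finProdFinEquiv.symm r).2) t,
      ?_, ⟨?_, h2⟩, ?_, ?_⟩
    · intro i
      simp only [Net.cnt, h1, List.countP_cons, decide_eq_true_eq]
      omega
    · intro r
      exact hδ l (List.mem_cons_self ..) _ _
    · simp only [Net.size, List.length_cons]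
      omega
    · intro x a b
      simp only [Net.val]
      rw [abpMM_sum]
      simp only [h4, Equiv.symm_apply_apply]
      simp only [abpVal, List.map_cons, List.prod_cons]
      rw [← Matrix.mulVec_mulVec]
      simp [Matrix.mulVec, dotProduct]

/-- an oblivious branching program of width `w` (any order of the letters) is a network of width
`w * w`; the occurrences of a letter are the layers that read it -/
theorem exists_net_of_abp [DecidableEq ι] (ls : List (Layer F ι w)) (v : Fin w → F) (δ : ℕ)
    (hδ : ∀ l ∈ ls, ∀ p q, (l.2 p q).natDegree ≤ δ) (p : Fin w) :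
    ∃ (t : Net F ι (w * w)) (r₀ : Fin (w * w)), (∀ i, t.cnt i = ls.countP fun l => l.1 = i) ∧
      LeafDeg δ t ∧ t.size ≤ 2 * ls.length + 1 ∧ ∀ x, t.val x r₀ = abpVal ls v x p := by
  obtain ⟨t, h1, h2, h3, h4⟩ := abp_aux ls v δ hδ
  exact ⟨t, finProdFinEquiv (p, p), h1, h2, h3, fun x => h4 x p p⟩

end Pool.Agent.H2.RK
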