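import Pool.Agent.H2.RK.Basic

/-!
# The finite list of annuli (module AnnL)
-/

namespace Pool.Agent.H2.RK

open Matrix

variable {F : Type*} {ι : Type*} [Field F] {W : ℕ}

/-- all contexts `c` with `t = c[q]` for some `q` -/
def paths : Net F ι W → List (List (Step F ι W))
  | .leaf _ _ => [[]]
  | .const _ => [[]]
  | .node B l r => [] :: ((paths l).map (fun c => (B, r) :: c) ++
      (paths r).map (fun c => (swp B, l) :: c))

/-- number of nodes -/
def Net.size : Net F ι W → ℕ
  | .leaf _ _ => 1
  | .const _ => 1
  | .node _ l r => l.size + r.size + 1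

/-- the list of annuli -/
def annL (t : Net F ι W) : List (List (Step F ι W)) := (paths t).flatMap List.tails

theorem mem_paths {t : Net F ι W} {c : List (Step F ι W)} : c ∈ paths t ↔ ∃ q, Dec t c q := by
  induction t generalizing c with
  | leaf i v =>
    constructor
    · intro h
      have h1 : c = [] := by simpa [paths] using h
      subst h1
      exact ⟨_, Dec.refl _⟩
    · rintro ⟨q, h⟩
      cases h
      simp [paths]
  | const v =>
    constructor
    · intro h
      have h1 : c = [] := by simpa [paths] using h
      subst h1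
      exact ⟨_, Dec.refl _⟩
    · rintro ⟨q, h⟩
      cases h
      simp [paths]
  | node B l r ihl ihr =>
    constructor
    · intro h
      rw [paths, List.mem_cons, List.mem_append, List.mem_map, List.mem_map] at h
      rcases h with rfl | ⟨c', hc', rfl⟩ | ⟨c', hc', rfl⟩
      · exact ⟨_, Dec.refl _⟩
      · obtain ⟨q, hq⟩ := ihl.1 hc'
        exact ⟨q, Dec.left B l r q c' hq⟩
      · obtain ⟨q, hq⟩ := ihr.1 hc'
        exact ⟨q, Dec.right B l r q c' hq⟩
    · rintro ⟨q, h⟩
      rw [paths, List.mem_cons, List.mem_append, List.mem_map, List.mem_map]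
      cases h with
      | refl => exact Or.inl rfl
      | left _ _ _ _ c' h' => exact Or.inr (Or.inl ⟨c', ihl.2 ⟨q, h'⟩, rfl⟩)
      | right _ _ _ _ c' h' => exact Or.inr (Or.inr ⟨c', ihr.2 ⟨q, h'⟩, rfl⟩)

/-- contexts can be cut -/
private theorem dec_prefix {t q : Net F ι W} {c : List (Step F ι W)} (h : Dec t c q) :
    ∀ c' : List (Step F ι W), c' <+: c → ∃ q', Dec t c' q' := by
  induction h with
  | refl t =>
    intro c' h'
    rw [List.prefix_nil.1 h']
    exact ⟨_, Dec.refl _⟩
  | left B l r q c _ ih =>
    intro c' h'
    rcases List.prefix_cons_iff.1 h' with rfl | ⟨c'', rfl, h''⟩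
    · exact ⟨_, Dec.refl _⟩
    · obtain ⟨q', hq'⟩ := ih c'' h''
      exact ⟨q', Dec.left B l r q' c'' hq'⟩
  | right B l r q c _ ih =>
    intro c' h'
    rcases List.prefix_cons_iff.1 h' with rfl | ⟨c'', rfl, h''⟩
    · exact ⟨_, Dec.refl _⟩
    · obtain ⟨q', hq'⟩ := ih c'' h''
      exact ⟨q', Dec.right B l r q' c'' hq'⟩

theorem mem_annL {t : Net F ι W} {d : List (Step F ι W)} : d ∈ annL t ↔ AnnN t d := by
  rw [annL, List.mem_flatMap]
  constructor
  · rintro ⟨c, hc, hd⟩
    obtain ⟨q, hq⟩ := mem_paths.1 hc
    exact ⟨c, q, hq, ((List.mem_tails _ _).1 hd).isInfix⟩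
  · rintro ⟨c, q, hc, hd⟩
    obtain ⟨c', hd', hc'⟩ := List.infix_iff_suffix_prefix.1 hd
    obtain ⟨q', hq'⟩ := dec_prefix hc c' hc'
    exact ⟨c', mem_paths.2 ⟨q', hq'⟩, (List.mem_tails _ _).2 hd'⟩

theorem length_paths (t : Net F ι W) : (paths t).length = t.size := by
  induction t with
  | leaf i v => rfl
  | const v => rfl
  | node B l r ihl ihr =>
    rw [paths, List.length_cons, List.length_append, List.length_map, List.length_map, ihl, ihr,
      Net.size]

private theorem path_lt {t : Net F ι W} : ∀ c ∈ paths t, c.length < t.size := by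
  induction t with
  | leaf i v =>
    intro c hc
    have h1 : c = [] := by simpa [paths] using hc
    subst h1
    simp [Net.size]
  | const v =>
    intro c hc
    have h1 : c = [] := by simpa [paths] using hc
    subst h1
    simp [Net.size]
  | node B l r ihl ihr =>
    intro c hc
    rw [paths, List.mem_cons, List.mem_append, List.mem_map, List.mem_map] at hc
    rw [Net.size]
    rcases hc with rfl | ⟨c', hc', rfl⟩ | ⟨c', hc', rfl⟩
    · rw [List.length_nil]
      omega
    · have := ihl c' hc'
      rw [List.length_cons]
      omega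
    · have := ihr c' hc'
      rw [List.length_cons]
      omega

/-- a path has fewer steps than the network has nodes, so there are at most `size²` annuli -/
theorem length_annL (t : Net F ι W) : (annL t).length ≤ t.size ^ 2 := by
  have key : ∀ P : List (List (Step F ι W)), (∀ c ∈ P, c.length < t.size) →
      (P.flatMap List.tails).length ≤ P.length * t.size := by
    intro P
    induction P with
    | nil => intro _; simp
    | cons c P ih =>
      intro h
      rw [List.flatMap_cons, List.length_append, List.length_tails, List.length_cons]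
      have h1 := h c (List.mem_cons_self)
      have h2 := ih (fun c' hc' => h c' (List.mem_cons_of_mem _ hc'))
      rw [Nat.add_mul, Nat.one_mul]
      omega
  have h := key (paths t) path_lt
  rw [length_paths] at h
  rw [annL, pow_two]
  exact h

end Pool.Agent.H2.RK
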