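import Pool.Agent.H2.RK.Defs

/-!
# Basic facts on networks, contexts, annuli (module Basic)
-/

namespace Pool.Agent.H2.RK

open Matrix

variable {F : Type*} {ι : Type*} [Field F] {W : ℕ}

@[simp] theorem tr_nil (x : ι → F) : tr ([] : List (Step F ι W)) x = 1 := by simp [tr]

@[simp] theorem tr_cons (s : Step F ι W) (c : List (Step F ι W)) (x : ι → F) :
    tr (s :: c) x = smat s x * tr c x := by simp [tr]

theorem tr_append (c c' : List (Step F ι W)) (x : ι → F) : tr (c ++ c') x = tr c x * tr c' x := by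
  simp [tr]

theorem bmat_mulVec (B : Bil F W) (v u : Fin W → F) :
    bmat B v *ᵥ u = fun p => ∑ i, ∑ j, B p i j * u i * v j := by
  funext p
  simp only [mulVec, dotProduct, bmat, Matrix.of_apply]
  refine Finset.sum_congr rfl fun i _ => ?_
  rw [Finset.sum_mul]
  exact Finset.sum_congr rfl fun j _ => by ring

theorem Dec.val {t q : Net F ι W} {c : List (Step F ι W)} (h : Dec t c q) (x : ι → F) :
    t.val x = tr c x *ᵥ q.val x := by
  induction h with
  | refl t => rw [tr_nil, one_mulVec]
  | left B l r q c _ ih =>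
    rw [tr_cons, ← mulVec_mulVec, ← ih]
    unfold smat
    rw [bmat_mulVec]
    rfl
  | right B l r q c _ ih =>
    rw [tr_cons, ← mulVec_mulVec, ← ih]
    unfold smat
    rw [bmat_mulVec]
    funext p
    show ∑ u, ∑ v, B p u v * l.val x u * r.val x v = ∑ i, ∑ j, B p j i * r.val x i * l.val x j
    rw [Finset.sum_comm]
    exact Finset.sum_congr rfl fun i _ => Finset.sum_congr rfl fun j _ => by ring

theorem Dec.trans {t q r : Net F ι W} {c c' : List (Step F ι W)} (h : Dec t c q)
    (h' : Dec q c' r) : Dec t (c ++ c') r := by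
  induction h with
  | refl t => exact h'
  | left B l r' q c _ ih => exact Dec.left B l r' _ _ (ih h')
  | right B l r' q c _ ih => exact Dec.right B l r' _ _ (ih h')

/-- every network has a path to a leaf -/
theorem exists_leaf_dec (t : Net F ι W) : ∃ c q, Dec t c q ∧
    ((∃ i v, q = Net.leaf i v) ∨ ∃ v, q = Net.const v) := by
  induction t with
  | leaf i v => exact ⟨[], _, Dec.refl _, Or.inl ⟨i, v, rfl⟩⟩
  | const v => exact ⟨[], _, Dec.refl _, Or.inr ⟨v, rfl⟩⟩
  | node B l r ih _ =>
    obtain ⟨c, q, h1, h2⟩ := ih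
    exact ⟨_, q, Dec.left B l r q c h1, h2⟩

/-! ### annuli -/

theorem AnnC.of_inf {c d : List (Step F ι W)} (h : d <:+: c) : AnnC c d := Or.inl h

theorem AnnN.dec_net {t q : Net F ι W} {c d : List (Step F ι W)} (h : Dec t c q)
    (hd : AnnN q d) : AnnN t d := by
  obtain ⟨c', q', h1, h2⟩ := hd
  exact ⟨c ++ c', q', h.trans h1, h2.trans (List.suffix_append c c').isInfix⟩

private theorem dec_step {t q : Net F ι W} {c : List (Step F ι W)} (h : Dec t c q) :
    ∀ s ∈ c, ∃ c0, Dec t c0 s.2 := by
  induction h with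
  | refl t => intro s hs; exact absurd hs (by simp)
  | left B l r q c _ ih =>
    intro s hs
    rcases List.mem_cons.1 hs with rfl | hs
    · exact ⟨_, Dec.right B l r r [] (Dec.refl r)⟩
    · obtain ⟨c0, h0⟩ := ih s hs
      exact ⟨_, Dec.left B l r _ _ h0⟩
  | right B l r q c _ ih =>
    intro s hs
    rcases List.mem_cons.1 hs with rfl | hs
    · exact ⟨_, Dec.left B l r l [] (Dec.refl l)⟩
    · obtain ⟨c0, h0⟩ := ih s hs
      exact ⟨_, Dec.right B l r _ _ h0⟩

theorem AnnN.dec_ctx {t q : Net F ι W} {c d : List (Step F ι W)} (h : Dec t c q)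
    (hd : AnnC c d) : AnnN t d := by
  rcases hd with hd | ⟨s, hs, hd⟩
  · exact ⟨c, q, h, hd⟩
  · obtain ⟨c0, h0⟩ := dec_step h s hs
    exact AnnN.dec_net h0 hd

theorem REqN.dec_net {t q : Net F ι W} {c : List (Step F ι W)} {a b : ι → F}
    (hr : REqN t a b) (h : Dec t c q) : REqN q a b :=
  fun _ hd => hr _ (AnnN.dec_net h hd)

theorem REqN.dec_ctx {t q : Net F ι W} {c : List (Step F ι W)} {a b : ι → F}
    (hr : REqN t a b) (h : Dec t c q) : REqC c a b :=
  fun _ hd => hr _ (AnnN.dec_ctx h hd)

theorem REqC.left {c c' : List (Step F ι W)} {a b : ι → F} (hr : REqC (c ++ c') a b) :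
    REqC c a b := by
  intro d hd
  refine hr d ?_
  rcases hd with hd | ⟨s, hs, hd⟩
  · exact Or.inl (hd.trans (List.prefix_append c c').isInfix)
  · exact Or.inr ⟨s, List.mem_append_left _ hs, hd⟩

theorem REqC.right {c c' : List (Step F ι W)} {a b : ι → F} (hr : REqC (c ++ c') a b) :
    REqC c' a b := by
  intro d hd
  refine hr d ?_
  rcases hd with hd | ⟨s, hs, hd⟩
  · exact Or.inl (hd.trans (List.suffix_append c c').isInfix)
  · exact Or.inr ⟨s, List.mem_append_right _ hs, hd⟩

theorem REqC.step {c : List (Step F ι W)} {s : Step F ι W} {a b : ι → F} (hr : REqC c a b)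
    (hs : s ∈ c) : REqN s.2 a b :=
  fun _ hd => hr _ (Or.inr ⟨s, hs, hd⟩)

section cnt

variable [DecidableEq ι]

@[simp] theorem cntC_nil (i : ι) : cntC ([] : List (Step F ι W)) i = 0 := by simp [cntC]

@[simp] theorem cntC_cons (s : Step F ι W) (c : List (Step F ι W)) (i : ι) :
    cntC (s :: c) i = s.2.cnt i + cntC c i := by simp [cntC]

theorem cntC_append (c c' : List (Step F ι W)) (i : ι) :
    cntC (c ++ c') i = cntC c i + cntC c' i := by simp [cntC]

theorem Dec.cnt {t q : Net F ι W} {c : List (Step F ι W)} (h : Dec t c q) (i : ι) :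
    t.cnt i = cntC c i + q.cnt i := by
  induction h with
  | refl t => rw [cntC_nil, zero_add]
  | left B l r q c _ ih =>
    rw [cntC_cons]
    show l.cnt i + r.cnt i = r.cnt i + cntC c i + q.cnt i
    omega
  | right B l r q c _ ih =>
    rw [cntC_cons]
    show l.cnt i + r.cnt i = l.cnt i + cntC c i + q.cnt i
    omega

/-- the value only depends on the letters that occur -/
theorem val_congr (t : Net F ι W) {x y : ι → F} (h : ∀ i, 0 < t.cnt i → x i = y i) :
    t.val x = t.val y := by
  induction t with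
  | leaf i v =>
    have h1 : x i = y i := h i (by simp [Net.cnt])
    funext p
    show (v p).eval (x i) = (v p).eval (y i)
    rw [h1]
  | const v => rfl
  | node B l r ihl ihr =>
    have h1 := ihl fun i hi => h i (by simp only [Net.cnt]; omega)
    have h2 := ihr fun i hi => h i (by simp only [Net.cnt]; omega)
    funext p
    show ∑ u, ∑ v, B p u v * l.val x u * r.val x v = ∑ u, ∑ v, B p u v * l.val y u * r.val y v
    rw [h1, h2]

theorem tr_congr (c : List (Step F ι W)) {x y : ι → F} (h : ∀ i, 0 < cntC c i → x i = y i) :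
    tr c x = tr c y := by
  induction c with
  | nil => rw [tr_nil, tr_nil]
  | cons s c ih =>
    rw [tr_cons, tr_cons, ih fun i hi => h i (by rw [cntC_cons]; omega)]
    unfold smat
    rw [val_congr s.2 fun i hi => h i (by rw [cntC_cons]; omega)]

/-- an infix has no more occurrences -/
theorem cntC_inf {c d : List (Step F ι W)} (h : d <:+: c) (i : ι) : cntC d i ≤ cntC c i := by
  obtain ⟨s, t, rfl⟩ := h
  simp only [cntC_append]
  omega

end cnt

end Pool.Agent.H2.RK
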