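import Pool.Agent.H2.RK.Defs

/-!
# Pigeonhole on blocks (module Blocks)

`r` = rank of an infix, `K` = number of blocks wanted.
-/

namespace Pool.Agent.H2.RK

private theorem split_blocks {α : Type*} (m : ℕ) : ∀ (K : ℕ) (ds : List α), K * m ≤ ds.length →
    ∃ (bs : List (List α)) (suf : List α), ds = bs.flatten ++ suf ∧ bs.length = K ∧
      ∀ B ∈ bs, B.length = m := by
  intro K
  induction K with
  | zero => intro ds _; exact ⟨[], ds, by simp, rfl, by simp⟩
  | succ K ih =>
    intro ds h
    have hm : m ≤ ds.length := le_trans (Nat.le_mul_of_pos_left m (Nat.succ_pos K)) h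
    have h2 : K * m ≤ (ds.drop m).length := by
      rw [List.length_drop]
      rw [Nat.succ_mul] at h
      omega
    obtain ⟨bs, suf, h3, h4, h5⟩ := ih (ds.drop m) h2
    refine ⟨ds.take m :: bs, suf, ?_, by simp [h4], ?_⟩
    · rw [List.flatten_cons, List.append_assoc, ← h3, List.take_append_drop]
    · intro B hB
      rcases List.mem_cons.1 hB with rfl | hB
      · rw [List.length_take]; exact min_eq_left hm
      · exact h5 B hB

private theorem infix_flatten {α : Type*} (bs : List (List α)) (B : List α) (hB : B ∈ bs) :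
    B <:+: bs.flatten := by
  obtain ⟨s, t, rfl⟩ := List.append_of_mem hB
  exact ⟨s.flatten, t.flatten, by simp⟩

private theorem blocks_aux {α : Type*} (r : List α → ℕ) (K : ℕ) (hK : 0 < K)
    (hr : ∀ d d' : List α, d <:+: d' → r d' ≤ r d) : ∀ (k : ℕ) (ds : List α),
    (∀ d, d <:+: ds → r d ≤ r ds + k) → K ^ (k + 1) ≤ ds.length →
    ∃ (pre : List α) (bs : List (List α)) (suf : List α),
      ds = pre ++ bs.flatten ++ suf ∧ bs.length = K ∧
      ∀ B ∈ bs, B ≠ [] ∧ r B = r bs.flatten := by
  intro k
  induction k with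
  | zero =>
    intro ds h hl
    obtain ⟨bs, suf, h1, h2, h3⟩ := split_blocks 1 K ds (by simpa using hl)
    have hfl : bs.flatten <:+: ds := ⟨[], suf, by simp [h1]⟩
    refine ⟨[], bs, suf, by simpa using h1, h2, fun B hB => ⟨?_, ?_⟩⟩
    · intro h'
      have := h3 B hB
      rw [h'] at this
      simp at this
    · have hB' : B <:+: ds := (infix_flatten bs B hB).trans hfl
      have e1 := h B hB'
      have e2 := hr _ _ hB'
      have e3 := h _ hfl
      have e4 := hr _ _ hfl
      omega
  | succ k ih =>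
    intro ds h hl
    have hl2 : K * K ^ (k + 1) ≤ ds.length := by
      rw [pow_succ, mul_comm] at hl
      exact hl
    obtain ⟨bs, suf, h1, h2, h3⟩ := split_blocks (K ^ (k + 1)) K ds hl2
    have hfl : bs.flatten <:+: ds := ⟨[], suf, by simp [h1]⟩
    by_cases hall : ∀ B ∈ bs, r B = r bs.flatten
    · refine ⟨[], bs, suf, by simpa using h1, h2, fun B hB => ⟨?_, hall B hB⟩⟩
      intro h'
      have h4 := h3 B hB
      rw [h'] at h4
      have h5 : 0 < K ^ (k + 1) := pow_pos hK _
      rw [← h4] at h5
      simp at h5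
    · push Not at hall
      obtain ⟨B, hB, hne⟩ := hall
      have hBf := infix_flatten bs B hB
      have hBd : B <:+: ds := hBf.trans hfl
      have e1 : r bs.flatten ≤ r B := hr _ _ hBf
      have e2 : r ds ≤ r bs.flatten := hr _ _ hfl
      obtain ⟨pre, bs', suf', g1, g2, g3⟩ := ih B (fun d hd => by
        have := h d (hd.trans hBd)
        omega) (le_of_eq (h3 B hB).symm)
      obtain ⟨s, t, hst⟩ := hBd
      refine ⟨s ++ pre, bs', suf' ++ t, ?_, g2, g3⟩
      rw [← hst, g1]
      simp [List.append_assoc]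

theorem exists_blocks {α : Type*} (r : List α → ℕ) (K W : ℕ) (hK : 0 < K)
    (hr : ∀ d d' : List α, d <:+: d' → r d' ≤ r d) (hW : ∀ d, r d ≤ W)
    (ds : List α) (hds : K ^ (W + 1) ≤ ds.length) :
    ∃ (pre : List α) (bs : List (List α)) (suf : List α),
      ds = pre ++ bs.flatten ++ suf ∧ bs.length = K ∧
      ∀ B ∈ bs, B ≠ [] ∧ r B = r bs.flatten :=
  blocks_aux r K hK hr W ds (fun d _ => le_trans (hW d) (Nat.le_add_left _ _)) hds

end Pool.Agent.H2.RK
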