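import Pool.Agent.H2.RK.Defs

/-!
# A weak Erdős–Szekeres theorem for lists (module ES)

A duplicate free list of length `≥ 4 ^ m` has a strictly monotone sublist of length `m`.
(Greedy: take the head, keep the larger half of the tail; flag the head; then keep the majority
flag.)
-/

namespace Pool.Agent.H2.RK

variable {ι : Type*} [LinearOrder ι]

private theorem flagged : ∀ (n : ℕ) (L : List ι), L.Nodup → 2 ^ n ≤ L.length →
    ∃ S : List (ι × Bool), S.length = n ∧ List.Sublist (S.map Prod.fst) L ∧
      S.Pairwise (fun a b => (a.2 = true → a.1 < b.1) ∧ (a.2 = false → b.1 < a.1)) := by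
  intro n
  induction n with
  | zero =>
    intro L _ _
    exact ⟨[], rfl, by simp, List.Pairwise.nil⟩
  | succ n ih =>
    intro L hL h
    cases L with
    | nil => simp at h
    | cons x T =>
      rw [List.nodup_cons] at hL
      have hsum : (T.filter (fun y => decide (x < y))).length +
          (T.filter (fun y => decide (y < x))).length = T.length := by
        have h1 : T.filter (fun y => decide (y < x)) = T.filter (fun y => !decide (x < y)) := by
          refine List.filter_congr (fun y hy => ?_)
          have hne : y ≠ x := fun h' => hL.1 (h' ▸ hy)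
          rcases lt_or_gt_of_ne hne with h2 | h2
          · simp [h2, not_lt_of_gt h2]
          · simp [h2, not_lt_of_gt h2]
        rw [h1]
        exact List.length_eq_length_filter_add (fun y => decide (x < y)) |>.symm
      have hT : 2 ^ (n + 1) ≤ T.length + 1 := h
      rw [pow_succ] at hT
      have hcase : 2 ^ n ≤ (T.filter (fun y => decide (x < y))).length ∨
          2 ^ n ≤ (T.filter (fun y => decide (y < x))).length := by omega
      rcases hcase with hc | hc
      · obtain ⟨S, h1, h2, h3⟩ := ih _ (hL.2.filter _) hc
        refine ⟨(x, true) :: S, by simp [h1], ?_, ?_⟩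
        · rw [List.map_cons]
          exact (h2.trans List.filter_sublist).cons_cons x
        · rw [List.pairwise_cons]
          refine ⟨fun b hb => ⟨fun _ => ?_, fun h' => by simp at h'⟩, h3⟩
          have := h2.subset (List.mem_map_of_mem hb)
          simpa using (List.mem_filter.1 this).2
      · obtain ⟨S, h1, h2, h3⟩ := ih _ (hL.2.filter _) hc
        refine ⟨(x, false) :: S, by simp [h1], ?_, ?_⟩
        · rw [List.map_cons]
          exact (h2.trans List.filter_sublist).cons_cons x
        · rw [List.pairwise_cons]
          refine ⟨fun b hb => ⟨fun h' => by simp at h', fun _ => ?_⟩, h3⟩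
          have := h2.subset (List.mem_map_of_mem hb)
          simpa using (List.mem_filter.1 this).2

theorem exists_monotone_sublist (m : ℕ) (L : List ι) (hL : L.Nodup) (h : es m ≤ L.length) :
    ∃ L' : List ι, List.Sublist L' L ∧ L'.length = m ∧
      (L'.Pairwise (· < ·) ∨ L'.Pairwise (· > ·)) := by
  have h4 : 2 ^ (2 * m) ≤ L.length := by
    rw [pow_mul]
    exact h
  obtain ⟨S, h1, h2, h3⟩ := flagged (2 * m) L hL h4
  have hsum : (S.filter (fun a => a.2)).length + (S.filter (fun a => !a.2)).length = S.length :=
    (List.length_eq_length_filter_add (fun a : ι × Bool => a.2)).symm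
  have hsub : ∀ p : ι × Bool → Bool,
      List.Sublist (((S.filter p).map Prod.fst).take m) L := fun p =>
    ((List.take_sublist _ _).trans (List.filter_sublist.map _)).trans h2
  rcases (show m ≤ (S.filter (fun a => a.2)).length ∨ m ≤ (S.filter (fun a => !a.2)).length by
    omega) with hc | hc
  · refine ⟨((S.filter (fun a => a.2)).map Prod.fst).take m, hsub _, ?_, Or.inl ?_⟩
    · rw [List.length_take, List.length_map]; exact min_eq_left hc
    · refine List.Pairwise.sublist (List.take_sublist _ _) ?_
      rw [List.pairwise_map]
      have h5 := h3.filter (fun a => a.2)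
      refine h5.imp_of_mem (fun {a b} ha _ hab => ?_)
      exact hab.1 (by simpa using (List.mem_filter.1 ha).2)
  · refine ⟨((S.filter (fun a => !a.2)).map Prod.fst).take m, hsub _, ?_, Or.inr ?_⟩
    · rw [List.length_take, List.length_map]; exact min_eq_left hc
    · refine List.Pairwise.sublist (List.take_sublist _ _) ?_
      rw [List.pairwise_map]
      have h5 := h3.filter (fun a => !a.2)
      refine h5.imp_of_mem (fun {a b} ha _ hab => ?_)
      exact hab.2 (by simpa using (List.mem_filter.1 ha).2)

end Pool.Agent.H2.RK
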