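import Pool.Agent.H2.RK.ChainL
import Pool.Agent.H2.RK.ES

/-!
# Lemma D (module Chain)
-/

namespace Pool.Agent.H2.RK

open Matrix

variable {F : Type*} {ι : Type*} [Field F] {W : ℕ} [LinearOrder ι]

/-- (S3) -/
theorem exists_set_of_list (m : ℕ) (L : List ι) (hL : L.Nodup) (h : es m ≤ L.length) :
    ∃ U : Finset ι, U.card = m ∧ (∀ i ∈ U, i ∈ L) ∧
      ∀ (D : ℕ) (b : ι → F) (f : (ι → F) → F), StrL D L b f → Str D U b f := by
  obtain ⟨L', hs, hl, hp⟩ := exists_monotone_sublist m L hL h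
  have hnd : L'.Nodup := hs.nodup hL
  refine ⟨L'.toFinset, by rw [List.toFinset_card_of_nodup hnd, hl],
    fun i hi => hs.subset (by simpa using hi), fun D b f hf => ?_⟩
  rcases hp with hp | hp
  · exact Str.of_sorted_lt hp (StrL.sublist hL hs hf)
  · exact Str.of_sorted_gt hp (StrL.sublist hL hs hf)

/-- Lemma D -/
theorem chain_struct (zs : List (List (Step F ι W) × ι)) (m : ℕ)
    (hM : MD W m ≤ zs.length) (hnd : (zs.map Prod.snd).Nodup)
    (hpriv : ∀ z ∈ zs, ∀ z' ∈ zs, z.2 ≠ z'.2 → cntC z'.1 z.2 = 0) (a : ι → F) :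
    ∃ U : Finset ι, U.card = m ∧ (∀ i ∈ U, i ∈ zs.map Prod.snd) ∧
      ∀ b, (∀ d, d <:+: (zs.map Prod.fst).flatten → (tr d b).rank = (tr d a).rank) →
        ∀ p q, Str (W ^ 3) U b fun x => tr (zs.map Prod.fst).flatten x p q := by
  obtain ⟨L, h1, h2, h3, h4⟩ := chain_list zs (es m) hM hnd hpriv a
  obtain ⟨U, g1, g2, g3⟩ := exists_set_of_list (F := F) m L h1 h2.ge
  exact ⟨U, g1, fun i hi => h3 i (g2 i hi), fun b hb p q => g3 _ _ _ (h4 b hb p q)⟩

end Pool.Agent.H2.RK
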