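import Pool.Agent.H2.RK.ChainNet

/-!
# Chains in a context (module ChainCtx)
-/

namespace Pool.Agent.H2.RK

variable {F : Type*} {ι : Type*} [Field F] {W : ℕ} [DecidableEq ι]

/-- number of private letters of a context -/
def privC (n : ι → ℕ) (V : Finset ι) (c : List (Step F ι W)) : ℕ :=
  (V.filter fun i => cntC c i = n i).card

/-- number of straddling letters of a context -/
def stradC (n : ι → ℕ) (V : Finset ι) (c : List (Step F ι W)) : ℕ :=
  (V.filter fun i => 0 < cntC c i ∧ cntC c i < n i).card

theorem privC_cons (n : ι → ℕ) (V : Finset ι) (st : Step F ι W) (c : List (Step F ι W))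
    (hV : ∀ i ∈ V, 0 < n i) :
    privC n V (st :: c) ≤ privN n V st.2 + privC n V c + stradC n V c := by
  unfold privC privN stradC
  refine le_trans (Finset.card_le_card (t := (V.filter fun i => st.2.cnt i = n i) ∪
    (V.filter fun i => cntC c i = n i) ∪
      (V.filter fun i => 0 < cntC c i ∧ cntC c i < n i)) ?_) ?_
  · intro i hi
    rw [Finset.mem_filter, cntC_cons] at hi
    obtain ⟨hiV, hi⟩ := hi
    have h0 := hV i hiV
    simp only [Finset.mem_union, Finset.mem_filter]
    by_cases h1 : cntC c i = n i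
    · exact Or.inl (Or.inr ⟨hiV, h1⟩)
    · by_cases h2 : cntC c i = 0
      · exact Or.inl (Or.inl ⟨hiV, by omega⟩)
      · exact Or.inr ⟨hiV, by omega, by omega⟩
  · refine (Finset.card_union_le _ _).trans ?_
    exact Nat.add_le_add_right (Finset.card_union_le _ _) _

/-- all siblings have fewer than `K` private letters, all suffixes fewer than `s` straddling ones:
go down the context until the number of private letters has dropped by `s + 1` -/
theorem drop_ctx (n : ι → ℕ) (V : Finset ι) (hV : ∀ i ∈ V, 0 < n i) (s K : ℕ)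
    (c : List (Step F ι W)) (hs : ∀ c', c' <:+ c → stradC n V c' < s)
    (hK : ∀ st ∈ c, privN n V st.2 < K) (P₀ : ℕ) (h1 : s + 1 ≤ P₀)
    (h2 : P₀ ≤ privC n V c + s) :
    ∃ d c', c = d ++ c' ∧ privC n V c' + s + 1 ≤ P₀ ∧ P₀ ≤ privC n V c' + K + 2 * s := by
  induction c with
  | nil =>
    have h0 : privC n V ([] : List (Step F ι W)) = 0 := by
      unfold privC
      rw [Finset.card_eq_zero, Finset.filter_eq_empty_iff]
      intro i hi
      rw [cntC_nil]
      have := hV i hi
      omega
    omega
  | cons st c ih =>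
    have h3 := privC_cons n V st c hV
    have h4 := hK st List.mem_cons_self
    have h5 := hs c (List.suffix_cons st c)
    by_cases h6 : P₀ ≤ privC n V c + s
    · obtain ⟨d, c', h7, h8, h9⟩ := ih (fun c' hc' => hs c' (hc'.trans (List.suffix_cons st c)))
        (fun t ht => hK t (List.mem_cons_of_mem _ ht)) h6
      exact ⟨st :: d, c', by rw [h7, List.cons_append], h8, h9⟩
    · exact ⟨[st], c, rfl, by omega, by omega⟩

theorem exists_private_ctx (n : ι → ℕ) (V : Finset ι) (s : ℕ) {d c' : List (Step F ι W)}
    (hs : stradC n V c' < s) (h : privC n V c' + s + 1 ≤ privC n V (d ++ c')) :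
    ∃ i ∈ V, cntC d i = n i := by
  by_contra hcon
  push Not at hcon
  have h1 : privC n V (d ++ c') ≤ privC n V c' + stradC n V c' := by
    unfold privC stradC
    refine le_trans (Finset.card_le_card (t := (V.filter fun i => cntC c' i = n i) ∪
        (V.filter fun i => 0 < cntC c' i ∧ cntC c' i < n i)) ?_) (Finset.card_union_le _ _)
    intro i hi
    rw [Finset.mem_filter, cntC_append] at hi
    obtain ⟨hiV, hi⟩ := hi
    have h0 := hcon i hiV
    simp only [Finset.mem_union, Finset.mem_filter]
    by_cases h1 : cntC c' i = n i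
    · exact Or.inl ⟨hiV, h1⟩
    · exact Or.inr ⟨hiV, by omega, by omega⟩
  omega

/-- chain of annuli with private letters in a context -/
theorem chain_ctx (n : ι → ℕ) (V : Finset ι) (hV : ∀ i ∈ V, 0 < n i) (s K : ℕ) (j : ℕ)
    (c : List (Step F ι W)) (hs : ∀ c', c' <:+ c → stradC n V c' < s)
    (hK : ∀ st ∈ c, privN n V st.2 < K) (h : j * (K + 3 * s + 2) ≤ privC n V c) :
    ∃ (zs : List (List (Step F ι W) × ι)) (e : List (Step F ι W)), zs.length = j ∧
      c = (zs.map Prod.fst).flatten ++ e ∧ ∀ z ∈ zs, z.2 ∈ V ∧ cntC z.1 z.2 = n z.2 := by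
  induction j generalizing c with
  | zero => exact ⟨[], c, rfl, by simp, by simp⟩
  | succ j ih =>
    have h0 : j * (K + 3 * s + 2) + (K + 3 * s + 2) ≤ privC n V c := by
      rw [Nat.succ_mul] at h
      exact h
    obtain ⟨d, c', h1, h2, h3⟩ := drop_ctx n V hV s K c hs hK (privC n V c) (by omega) (by omega)
    subst h1
    have hsuf : c' <:+ d ++ c' := List.suffix_append d c'
    obtain ⟨i, hi, hdi⟩ := exists_private_ctx n V s (hs c' hsuf) h2
    obtain ⟨zs, e, h4, h5, h6⟩ := ih c' (fun c'' hc'' => hs c'' (hc''.trans hsuf))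
      (fun st hst => hK st (List.mem_append_right _ hst)) (by omega)
    refine ⟨(d, i) :: zs, e, by rw [List.length_cons, h4], ?_, ?_⟩
    · rw [List.map_cons, List.flatten_cons, List.append_assoc, ← h5]
    · intro z hz
      rcases List.mem_cons.1 hz with rfl | hz
      · exact ⟨hi, hdi⟩
      · exact h6 z hz

end Pool.Agent.H2.RK
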