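import Pool.Agent.H2.RK.Defs

/-!
# Cutting blocks (module GlueE)
-/

namespace Pool.Agent.H2.RK

open Matrix

variable {F : Type*} {ι : Type*} [Field F] {W : ℕ}

/-- cut a list of `2 m` nonempty blocks into pairs -/
private theorem exists_glue_aux (m : ℕ) : ∀ (cs : List (List (List (Step F ι W) × ι))),
    cs.length = 2 * m → (∀ B ∈ cs, B ≠ []) →
    ∃ gs : List (List (List (Step F ι W) × ι) × ι × List (List (Step F ι W) × ι)),
      gs.length = m ∧ (∀ g ∈ gs, g.1 ∈ cs ∧ g.2.2 ∈ cs ∧ g.2.1 ∈ g.1.map Prod.snd) ∧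
      cs.flatten = gs.flatMap fun g => g.1 ++ g.2.2 := by
  induction m with
  | zero =>
    intro cs hcs _
    have h1 : cs = [] := List.length_eq_zero_iff.1 (by simpa using hcs)
    subst h1
    exact ⟨[], rfl, by simp, rfl⟩
  | succ m ih =>
    intro cs hcs hne
    match cs, hcs, hne with
    | [], hcs, _ => simp at hcs
    | [B], hcs, _ =>
      rw [List.length_singleton] at hcs
      omega
    | B₁ :: B₂ :: ds, hcs, hne =>
      have hds : ds.length = 2 * m := by
        simp only [List.length_cons] at hcs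
        omega
      obtain ⟨gs, h1, h2, h3⟩ := ih ds hds fun B hB =>
        hne B (List.mem_cons_of_mem _ (List.mem_cons_of_mem _ hB))
      have hB : B₁ ≠ [] := hne B₁ List.mem_cons_self
      refine ⟨(B₁, (B₁.head hB).2, B₂) :: gs, by rw [List.length_cons, h1], ?_, ?_⟩
      · intro g hg
        rcases List.mem_cons.1 hg with rfl | hg
        · exact ⟨List.mem_cons_self, List.mem_cons_of_mem _ List.mem_cons_self,
            List.mem_map_of_mem (List.head_mem hB)⟩
        · obtain ⟨a1, a2, a3⟩ := h2 g hg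
          exact ⟨List.mem_cons_of_mem _ (List.mem_cons_of_mem _ a1),
            List.mem_cons_of_mem _ (List.mem_cons_of_mem _ a2), a3⟩
      · rw [List.flatten_cons, List.flatten_cons, h3, List.flatMap_cons, List.append_assoc]

/-- cut a list of `2 m + 1` nonempty blocks of pairs (context, letter) into the form of
`glue_struct`: the letter of an even block is the letter of its head -/
theorem exists_glue {bs : List (List (List (Step F ι W) × ι))} {m : ℕ}
    (hlen : bs.length = 2 * m + 1) (hne : ∀ B ∈ bs, B ≠ []) :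
    ∃ (C₀ : List (List (Step F ι W) × ι))
      (gs : List (List (List (Step F ι W) × ι) × ι × List (List (Step F ι W) × ι))),
      gs.length = m ∧ C₀ ∈ bs ∧ (∀ g ∈ gs, g.1 ∈ bs ∧ g.2.2 ∈ bs ∧ g.2.1 ∈ g.1.map Prod.snd) ∧
      bs.flatten = C₀ ++ gs.flatMap fun g => g.1 ++ g.2.2 := by
  match bs, hlen, hne with
  | [], hlen, _ => simp at hlen
  | C :: cs, hlen, hne =>
    have hcs : cs.length = 2 * m := by
      rw [List.length_cons] at hlen
      omega
    obtain ⟨gs, h1, h2, h3⟩ := exists_glue_aux m cs hcs fun B hB => hne B (List.mem_cons_of_mem _ hB)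
    refine ⟨C, gs, h1, List.mem_cons_self, ?_, by rw [List.flatten_cons, h3]⟩
    intro g hg
    obtain ⟨a1, a2, a3⟩ := h2 g hg
    exact ⟨List.mem_cons_of_mem _ a1, List.mem_cons_of_mem _ a2, a3⟩

end Pool.Agent.H2.RK
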