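import Pool.Agent.H2.RK.GlueS
import Pool.Agent.H2.RK.GlueE
import Pool.Agent.H2.RK.Blocks

/-!
# Lemma D, list version (module ChainL)

`exists_blocks` with `r d = (tr (flatten of the contexts of d) a).rank`, then `exists_glue`, then
`glue_struct` for the middle part and constants on both sides (`StrL.sum`, `StrL.smul`).
-/

namespace Pool.Agent.H2.RK

open Matrix

variable {F : Type*} {ι : Type*} [Field F] {W : ℕ}

private theorem fl_inf {X Y : List (List (Step F ι W) × ι)} (h : X <:+: Y) :
    (X.map Prod.fst).flatten <:+: (Y.map Prod.fst).flatten := by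
  obtain ⟨s, t, rfl⟩ := h
  exact ⟨(s.map Prod.fst).flatten, (t.map Prod.fst).flatten, by simp⟩

private theorem rank_inf {c d : List (Step F ι W)} (h : c <:+: d) (a : ι → F) :
    (tr d a).rank ≤ (tr c a).rank := by
  obtain ⟨s, t, rfl⟩ := h
  rw [tr_append, tr_append]
  exact (Matrix.rank_mul_le_left _ _).trans (Matrix.rank_mul_le_right _ _)

private theorem cnt_fl [DecidableEq ι] {X : List (List (Step F ι W) × ι)} {i : ι}
    (h : ∀ z ∈ X, cntC z.1 i = 0) : cntC (X.map Prod.fst).flatten i = 0 := by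
  induction X with
  | nil => simp
  | cons z X ih =>
    rw [List.map_cons, List.flatten_cons, cntC_append, h z List.mem_cons_self,
      ih fun z' hz' => h z' (List.mem_cons_of_mem _ hz')]

private theorem cnt_zero [DecidableEq ι] {zs X : List (List (Step F ι W) × ι)}
    (hpriv : ∀ z ∈ zs, ∀ z' ∈ zs, z.2 ≠ z'.2 → cntC z'.1 z.2 = 0)
    (hX : ∀ z ∈ X, z ∈ zs) {i : ι} (hi : i ∈ zs.map Prod.snd) (hiX : i ∉ X.map Prod.snd) :
    cntC (X.map Prod.fst).flatten i = 0 := by
  refine cnt_fl fun z' hz' => ?_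
  obtain ⟨z, hz, rfl⟩ := List.mem_map.1 hi
  refine hpriv z hz z' (hX z' hz') fun h => hiX ?_
  rw [h]
  exact List.mem_map_of_mem hz'

private theorem letters_sublist :
    ∀ gs : List (List (List (Step F ι W) × ι) × ι × List (List (Step F ι W) × ι)),
      (∀ g ∈ gs, g.2.1 ∈ g.1.map Prod.snd) →
      List.Sublist (gs.map fun g => g.2.1)
        ((gs.flatMap fun g => g.1 ++ g.2.2).map Prod.snd) := by
  intro gs
  induction gs with
  | nil => intro _; simp
  | cons g gs ih =>
    intro h
    rw [List.map_cons, List.flatMap_cons, List.map_append, List.map_append]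
    have h1 : List.Sublist [g.2.1] (g.1.map Prod.snd) :=
      List.singleton_sublist.2 (h g List.mem_cons_self)
    have h2 := (h1.append (List.nil_sublist (g.2.2.map Prod.snd))).append
      (ih fun g' hg' => h g' (List.mem_cons_of_mem _ hg'))
    simpa using h2

private theorem glue_map (C₀ : List (List (Step F ι W) × ι))
    (gs : List (List (List (Step F ι W) × ι) × ι × List (List (Step F ι W) × ι))) :
    ((C₀ ++ gs.flatMap fun g => g.1 ++ g.2.2).map Prod.fst).flatten =
      glue (C₀.map Prod.fst).flatten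
        (gs.map fun g => ((g.1.map Prod.fst).flatten, g.2.1, (g.2.2.map Prod.fst).flatten)) := by
  unfold glue
  rw [List.map_append, List.flatten_append]
  congr 1
  induction gs with
  | nil => simp
  | cons g gs ih =>
    rw [List.flatMap_cons, List.map_append, List.flatten_append, ih]
    simp [List.flatMap_cons]

private theorem letters_disj
    (gs : List (List (List (Step F ι W) × ι) × ι × List (List (Step F ι W) × ι)))
    (hm : ∀ g ∈ gs, g.2.1 ∈ g.1.map Prod.snd)
    (hnd : ((gs.flatMap fun g => g.1 ++ g.2.2).map Prod.snd).Nodup) :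
    ∀ g ∈ gs, ∀ i ∈ gs.map fun g => g.2.1,
      i ∉ g.2.2.map Prod.snd ∧ (i ≠ g.2.1 → i ∉ g.1.map Prod.snd) := by
  rw [List.map_flatMap, List.nodup_flatMap] at hnd
  obtain ⟨h1, h2⟩ := hnd
  intro g hg i hi
  obtain ⟨h, hh, rfl⟩ := List.mem_map.1 hi
  have h3 := hm h hh
  by_cases hgh : h = g
  · subst hgh
    refine ⟨fun h4 => ?_, fun h4 => absurd rfl h4⟩
    have h5 := h1 h hh
    rw [List.map_append, List.nodup_append'] at h5
    exact h5.2.2 h3 h4
  · have h4 : ∀ ⦃x y : List (List (Step F ι W) × ι) × ι × List (List (Step F ι W) × ι)⦄,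
        x ∈ gs → y ∈ gs → x ≠ y →
        List.Disjoint ((x.1 ++ x.2.2).map Prod.snd) ((y.1 ++ y.2.2).map Prod.snd) := by
      intro x y hx hy hxy
      have : Std.Symm (Function.onFun List.Disjoint
          fun a : List (List (Step F ι W) × ι) × ι × List (List (Step F ι W) × ι) =>
            List.map Prod.snd (a.1 ++ a.2.2)) := ⟨fun _ _ h => List.Disjoint.symm h⟩
      exact h2.forall hx hy hxy
    have h5 := h4 hh hg hgh
    have h6 : h.2.1 ∈ (h.1 ++ h.2.2).map Prod.snd := by
      rw [List.map_append]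
      exact List.mem_append_left _ h3
    have h7 : h.2.1 ∉ (g.1 ++ g.2.2).map Prod.snd := fun h8 => h5 h6 h8
    rw [List.map_append, List.mem_append, not_or] at h7
    exact ⟨h7.2, fun _ => h7.1⟩

/-- Lemma D, list version -/
theorem chain_list [DecidableEq ι] (zs : List (List (Step F ι W) × ι)) (m' : ℕ)
    (hM : (2 * m' + 1) ^ (W + 1) ≤ zs.length) (hnd : (zs.map Prod.snd).Nodup)
    (hpriv : ∀ z ∈ zs, ∀ z' ∈ zs, z.2 ≠ z'.2 → cntC z'.1 z.2 = 0) (a : ι → F) :
    ∃ L : List ι, L.Nodup ∧ L.length = m' ∧ (∀ i ∈ L, i ∈ zs.map Prod.snd) ∧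
      ∀ b, (∀ d, d <:+: (zs.map Prod.fst).flatten → (tr d b).rank = (tr d a).rank) →
        ∀ p q, StrL (W ^ 3) L b fun x => tr (zs.map Prod.fst).flatten x p q := by
  obtain ⟨pre, bs, suf, hzs, hlen, hbs⟩ :=
    exists_blocks (fun d : List (List (Step F ι W) × ι) => (tr (d.map Prod.fst).flatten a).rank)
      (2 * m' + 1) W (by omega) (fun d d' h => rank_inf (fl_inf h) a)
      (fun d => by simpa using Matrix.rank_le_width (tr (d.map Prod.fst).flatten a)) zs hM
  obtain ⟨C₀, gs, hgl, hC₀, hgs, hfl⟩ := exists_glue hlen fun B hB => (hbs B hB).1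
  have hinf : bs.flatten <:+: zs := ⟨pre, suf, hzs.symm⟩
  have hB : ∀ B ∈ bs, B <:+: zs := by
    intro B hB
    obtain ⟨s, t, rfl⟩ := List.append_of_mem hB
    have h1 : B <:+: (s ++ B :: t).flatten := ⟨s.flatten, t.flatten, by simp⟩
    exact h1.trans hinf
  have hmem : ∀ B ∈ bs, ∀ z ∈ B, z ∈ zs := fun B h z hz => (hB B h).subset hz
  have hnd1 : ((pre.map Prod.snd ++ (bs.flatten).map Prod.snd) ++ suf.map Prod.snd).Nodup := by
    rw [← List.map_append, ← List.map_append, ← hzs]
    exact hnd
  rw [List.nodup_append'] at hnd1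
  obtain ⟨hnd2, hndsuf, hdsuf⟩ := hnd1
  rw [List.nodup_append'] at hnd2
  obtain ⟨hndpre, hndmid, hdpre⟩ := hnd2
  have hndmid' := hndmid
  rw [hfl, List.map_append, List.nodup_append'] at hndmid'
  obtain ⟨hndC, hndg, hdC⟩ := hndmid'
  have hsub := letters_sublist gs fun g hg => (hgs g hg).2.2
  have hL : (gs.map fun g => g.2.1).Nodup := hndg.sublist hsub
  have hLg : ∀ i ∈ gs.map fun g => g.2.1,
      i ∈ (gs.flatMap fun g => g.1 ++ g.2.2).map Prod.snd := fun i hi => hsub.subset hi
  have hLmid : ∀ i ∈ gs.map fun g => g.2.1, i ∈ (bs.flatten).map Prod.snd := by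
    intro i hi
    rw [hfl, List.map_append]
    exact List.mem_append_right _ (hLg i hi)
  have hLzs : ∀ i ∈ gs.map fun g => g.2.1, i ∈ zs.map Prod.snd := by
    intro i hi
    obtain ⟨z, hz, h⟩ := List.mem_map.1 (hLmid i hi)
    exact List.mem_map.2 ⟨z, hinf.subset hz, h⟩
  have hdis := letters_disj gs (fun g hg => (hgs g hg).2.2) hndg
  refine ⟨gs.map fun g => g.2.1, hL, by simp [hgl], hLzs, fun b hb p q => ?_⟩
  have hrank : ∀ B ∈ bs, (tr (B.map Prod.fst).flatten b).rank =
      (tr ((bs.flatten).map Prod.fst).flatten a).rank := by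
    intro B h
    rw [hb _ (fl_inf (hB B h))]
    exact (hbs B h).2
  have hmap : ((gs.map fun g => ((g.1.map Prod.fst).flatten, g.2.1,
      (g.2.2.map Prod.fst).flatten)).map fun g => g.2.1) = gs.map fun g => g.2.1 := by
    rw [List.map_map]
    rfl
  have hmid : ∀ u v : Fin W, StrL W (gs.map fun g => g.2.1) b
      fun x => tr ((bs.flatten).map Prod.fst).flatten x u v := by
    intro u v
    have h1 := glue_struct (tr ((bs.flatten).map Prod.fst).flatten a).rank
      (by simpa using Matrix.rank_le_width (tr ((bs.flatten).map Prod.fst).flatten a))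
      (C₀.map Prod.fst).flatten
      (gs.map fun g => ((g.1.map Prod.fst).flatten, g.2.1, (g.2.2.map Prod.fst).flatten))
      (by rw [hmap]; exact hL)
      (by
        rw [hmap]
        intro i hi
        exact cnt_zero hpriv (hmem C₀ hC₀) (hLzs i hi) fun h => hdC h (hLg i hi))
      (by
        rw [hmap]
        intro g' hg' i hi
        obtain ⟨g, hg, rfl⟩ := List.mem_map.1 hg'
        exact cnt_zero hpriv (hmem _ (hgs g hg).2.1) (hLzs i hi) (hdis g hg i hi).1)
      (by
        rw [hmap]
        intro g' hg' i hi hne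
        obtain ⟨g, hg, rfl⟩ := List.mem_map.1 hg'
        exact cnt_zero hpriv (hmem _ (hgs g hg).1) (hLzs i hi) ((hdis g hg i hi).2 hne))
      b (hrank C₀ hC₀)
      (by
        intro g' hg'
        obtain ⟨g, hg, rfl⟩ := List.mem_map.1 hg'
        exact hrank _ (hgs g hg).2.1)
      (by
        rw [← glue_map, ← hfl]
        exact hb _ (fl_inf hinf))
      u v
    rw [hmap, ← glue_map, ← hfl] at h1
    exact h1
  have hpre : ∀ x : ι → F, (∀ i, i ∉ (gs.map fun g => g.2.1) → x i = b i) →
      tr (pre.map Prod.fst).flatten x = tr (pre.map Prod.fst).flatten b := by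
    intro x hx
    refine tr_congr _ fun i hi => hx i fun hi' => ?_
    have h1 : cntC (pre.map Prod.fst).flatten i = 0 :=
      cnt_zero hpriv (fun z hz => by rw [hzs]; simp [hz]) (hLzs i hi')
        fun h => hdpre h (hLmid i hi')
    rw [h1] at hi
    exact lt_irrefl _ hi
  have hsuf : ∀ x : ι → F, (∀ i, i ∉ (gs.map fun g => g.2.1) → x i = b i) →
      tr (suf.map Prod.fst).flatten x = tr (suf.map Prod.fst).flatten b := by
    intro x hx
    refine tr_congr _ fun i hi => hx i fun hi' => ?_
    have h1 : cntC (suf.map Prod.fst).flatten i = 0 :=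
      cnt_zero hpriv (fun z hz => by rw [hzs]; simp [hz]) (hLzs i hi')
        fun h => hdsuf (List.mem_append_right _ (hLmid i hi')) h
    rw [h1] at hi
    exact lt_irrefl _ hi
  have hsum : StrL ((Finset.univ : Finset (Fin W)).card *
      ((Finset.univ : Finset (Fin W)).card * W)) (gs.map fun g => g.2.1) b
      fun x => ∑ u ∈ (Finset.univ : Finset (Fin W)), ∑ v ∈ (Finset.univ : Finset (Fin W)),
        (tr (pre.map Prod.fst).flatten b p u * tr (suf.map Prod.fst).flatten b v q) *
          tr ((bs.flatten).map Prod.fst).flatten x u v :=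
    StrL.sum _ fun u _ => StrL.sum _ fun v _ => StrL.smul (hmid u v) _
  have hcard : (Finset.univ : Finset (Fin W)).card *
      ((Finset.univ : Finset (Fin W)).card * W) ≤ W ^ 3 := by
    rw [Finset.card_univ, Fintype.card_fin]
    exact le_of_eq (by ring)
  refine StrL.congr (StrL.mono hcard hsum) fun x hx => ?_
  have h1 : tr (zs.map Prod.fst).flatten x = tr (pre.map Prod.fst).flatten b *
      tr ((bs.flatten).map Prod.fst).flatten x * tr (suf.map Prod.fst).flatten b := by
    rw [← hpre x hx, ← hsuf x hx, ← tr_append, ← tr_append]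
    congr 1
    rw [hzs]
    simp
  change tr (zs.map Prod.fst).flatten x p q = _
  rw [h1, Matrix.mul_apply]
  simp_rw [Matrix.mul_apply, Finset.sum_mul]
  rw [Finset.sum_comm]
  refine Finset.sum_congr rfl fun u _ => Finset.sum_congr rfl fun v _ => ?_
  ring

end Pool.Agent.H2.RK
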