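import Pool.Agent.H2.RK.Basic

/-!
# Chains in a network (module ChainNet)

`n i` = total number of occurrences of the letter `i`; a letter `i ∈ V` is private to `t` if
`t.cnt i = n i` and straddling if `0 < t.cnt i < n i`.
-/

namespace Pool.Agent.H2.RK

variable {F : Type*} {ι : Type*} [Field F] {W : ℕ} [DecidableEq ι]

/-- number of private letters -/
def privN (n : ι → ℕ) (V : Finset ι) (t : Net F ι W) : ℕ := (V.filter fun i => t.cnt i = n i).card

/-- number of straddling letters -/
def stradN (n : ι → ℕ) (V : Finset ι) (t : Net F ι W) : ℕ :=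
  (V.filter fun i => 0 < t.cnt i ∧ t.cnt i < n i).card

/-- private letters of a node are private to a child or straddle the left child -/
theorem privN_node (n : ι → ℕ) (V : Finset ι) (B : Bil F W) (l r : Net F ι W)
    (hV : ∀ i ∈ V, 0 < n i) :
    privN n V (Net.node B l r) ≤ privN n V l + privN n V r + stradN n V l := by
  classical
  have hsub : (V.filter fun i => (Net.node B l r).cnt i = n i) ⊆
      (V.filter fun i => l.cnt i = n i) ∪ (V.filter fun i => r.cnt i = n i) ∪
        (V.filter fun i => 0 < l.cnt i ∧ l.cnt i < n i) := by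
    intro i hi
    obtain ⟨hiV, hi⟩ := Finset.mem_filter.1 hi
    have hpos := hV i hiV
    have hi' : l.cnt i + r.cnt i = n i := hi
    simp only [Finset.mem_union, Finset.mem_filter]
    by_cases h1 : l.cnt i = n i
    · exact Or.inl (Or.inl ⟨hiV, h1⟩)
    · by_cases h2 : r.cnt i = n i
      · exact Or.inl (Or.inr ⟨hiV, h2⟩)
      · exact Or.inr ⟨hiV, by omega, by omega⟩
  have h1 := Finset.card_le_card hsub
  have h2 := Finset.card_union_le
    ((V.filter fun i => l.cnt i = n i) ∪ (V.filter fun i => r.cnt i = n i))
    (V.filter fun i => 0 < l.cnt i ∧ l.cnt i < n i)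
  have h3 := Finset.card_union_le (V.filter fun i => l.cnt i = n i)
    (V.filter fun i => r.cnt i = n i)
  unfold privN stradN
  omega

/-- go down to the heavier child until the number of private letters has dropped by `s + 1` for
the first time (induction on `t`) -/
theorem drop_net (n : ι → ℕ) (V : Finset ι) (hV : ∀ i ∈ V, 0 < n i) (s : ℕ) (t : Net F ι W)
    (hs : ∀ c q, Dec t c q → stradN n V q < s) (P₀ : ℕ) (h1 : s + 2 ≤ P₀)
    (h2 : P₀ ≤ privN n V t + s) :
    ∃ d q, Dec t d q ∧ privN n V q + s + 1 ≤ P₀ ∧ P₀ ≤ 2 * privN n V q + 2 * s := by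
  induction t with
  | leaf j v =>
    have h3 : privN n V (Net.leaf j v : Net F ι W) ≤ 1 := by
      unfold privN
      refine Finset.card_le_one.2 fun a ha b hb => ?_
      obtain ⟨ha, ha1⟩ := Finset.mem_filter.1 ha
      obtain ⟨hb, hb1⟩ := Finset.mem_filter.1 hb
      have ha2 := hV a ha
      have hb2 := hV b hb
      simp only [Net.cnt] at ha1 hb1
      have ha3 : j = a := by
        by_contra hne
        rw [if_neg hne] at ha1
        omega
      have hb3 : j = b := by
        by_contra hne
        rw [if_neg hne] at hb1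
        omega
      exact ha3.symm.trans hb3
    omega
  | const v =>
    have h3 : privN n V (Net.const v : Net F ι W) = 0 := by
      unfold privN
      rw [Finset.card_eq_zero, Finset.filter_eq_empty_iff]
      intro a ha h4
      have ha2 := hV a ha
      simp only [Net.cnt] at h4
      omega
    omega
  | node B l r ihl ihr =>
    have h3 := privN_node n V B l r hV
    have hl : Dec (Net.node B l r) [(B, r)] l := Dec.left B l r l [] (Dec.refl l)
    have hr : Dec (Net.node B l r) [(swp B, l)] r := Dec.right B l r r [] (Dec.refl r)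
    have h4 := hs _ _ hl
    rcases le_total (privN n V l) (privN n V r) with h5 | h5
    · by_cases h6 : P₀ ≤ privN n V r + s
      · obtain ⟨d, q, hd, hd1, hd2⟩ := ihr (fun c q hc => hs _ _ (Dec.right B l r q c hc)) h6
        exact ⟨_, q, Dec.right B l r q d hd, hd1, hd2⟩
      · exact ⟨_, r, hr, by omega, by omega⟩
    · by_cases h6 : P₀ ≤ privN n V l + s
      · obtain ⟨d, q, hd, hd1, hd2⟩ := ihl (fun c q hc => hs _ _ (Dec.left B l r q c hc)) h6
        exact ⟨_, q, Dec.left B l r q d hd, hd1, hd2⟩
      · exact ⟨_, l, hl, by omega, by omega⟩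

/-- if the number of private letters drops by at least `s + 1` there is a letter private to the
annulus -/
theorem exists_private_net (n : ι → ℕ) (V : Finset ι) (s : ℕ) {t q : Net F ι W}
    {d : List (Step F ι W)} (hd : Dec t d q) (hs : stradN n V q < s)
    (h : privN n V q + s + 1 ≤ privN n V t) : ∃ i ∈ V, cntC d i = n i := by
  classical
  by_contra hcon
  push Not at hcon
  have hsub : (V.filter fun i => t.cnt i = n i) ⊆
      (V.filter fun i => q.cnt i = n i) ∪ (V.filter fun i => 0 < q.cnt i ∧ q.cnt i < n i) := by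
    intro i hi
    obtain ⟨hiV, hi⟩ := Finset.mem_filter.1 hi
    have h1 := hd.cnt i
    have h2 := hcon i hiV
    simp only [Finset.mem_union, Finset.mem_filter]
    by_cases h3 : q.cnt i = n i
    · exact Or.inl ⟨hiV, h3⟩
    · exact Or.inr ⟨hiV, by omega, by omega⟩
  have h1 := Finset.card_le_card hsub
  have h2 := Finset.card_union_le (V.filter fun i => q.cnt i = n i)
    (V.filter fun i => 0 < q.cnt i ∧ q.cnt i < n i)
  unfold privN at h
  unfold stradN at hs
  omega

/-- chain of annuli with private letters in a network -/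
theorem chain_net (n : ι → ℕ) (V : Finset ι) (hV : ∀ i ∈ V, 0 < n i) (s : ℕ) (M : ℕ)
    (t : Net F ι W) (hs : ∀ c q, Dec t c q → stradN n V q < s) (h : KN s M ≤ privN n V t) :
    ∃ (zs : List (List (Step F ι W) × ι)) (q : Net F ι W), zs.length = M ∧
      Dec t (zs.map Prod.fst).flatten q ∧ ∀ z ∈ zs, z.2 ∈ V ∧ cntC z.1 z.2 = n z.2 := by
  induction M generalizing t with
  | zero => exact ⟨[], t, rfl, Dec.refl t, fun z hz => absurd hz (by simp)⟩
  | succ M ih =>
    have hK : KN s (M + 1) = 2 * KN s M + 3 * s + 2 := rfl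
    rw [hK] at h
    obtain ⟨d, q, hd, h1, h2⟩ := drop_net n V hV s t hs (privN n V t) (by omega) (by omega)
    obtain ⟨i, hi, hc⟩ := exists_private_net n V s hd (hs _ _ hd) h1
    obtain ⟨zs, q', hz1, hz2, hz3⟩ := ih q (fun c q' hc' => hs _ _ (hd.trans hc')) (by omega)
    refine ⟨(d, i) :: zs, q', by simp [hz1], ?_, ?_⟩
    · simp only [List.map_cons, List.flatten_cons]
      exact hd.trans hz2
    · intro z hz
      rcases List.mem_cons.1 hz with rfl | hz
      · exact ⟨hi, hc⟩
      · exact hz3 z hz

end Pool.Agent.H2.RK
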