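import Mathlib

/-!
# Tree networks of constant width (helper2)

Paper: h2_readk_nets.md (team store).  `Net F ι W`: leaves are vectors in `F^W` depending on one
letter, nodes are fixed bilinear maps.  `Dec t c q`: `t = c[q]` with the context `c` (list of
steps, outermost first).  `tr c x`: the transfer matrix of a context.
-/

namespace Pool.Agent.H2.RK

open Matrix

/-- tree networks of width `W` over the letters `ι` -/
inductive Net (F : Type*) (ι : Type*) [Field F] (W : ℕ)
  | leaf : ι → (Fin W → Polynomial F) → Net F ι W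
  | const : (Fin W → F) → Net F ι W
  | node : (Fin W → Fin W → Fin W → F) → Net F ι W → Net F ι W → Net F ι W

/-- bilinear maps `F^W × F^W → F^W` as coefficient arrays -/
abbrev Bil (F : Type*) (W : ℕ) := Fin W → Fin W → Fin W → F

/-- a step: the hole is the first argument of the bilinear map, the second one is a network -/
abbrev Step (F : Type*) (ι : Type*) [Field F] (W : ℕ) := Bil F W × Net F ι W

variable {F : Type*} {ι : Type*} [Field F] {W : ℕ}

/-- exchange of the two arguments -/
def swp (B : Bil F W) : Bil F W := fun p u v => B p v u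

/-- the value of a network at a point -/
noncomputable def Net.val : Net F ι W → (ι → F) → Fin W → F
  | .leaf i v, x => fun p => (v p).eval (x i)
  | .const v, _ => v
  | .node B l r, x => fun p => ∑ u, ∑ v, B p u v * l.val x u * r.val x v

/-- number of leaves with a given letter -/
def Net.cnt [DecidableEq ι] : Net F ι W → ι → ℕ
  | .leaf i _, j => if i = j then 1 else 0
  | .const _, _ => 0
  | .node _ l r, j => l.cnt j + r.cnt j

/-- the matrix `u ↦ B(u, v)` -/
def bmat (B : Bil F W) (v : Fin W → F) : Matrix (Fin W) (Fin W) F :=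
  Matrix.of fun p u => ∑ w, B p u w * v w

/-- the matrix of a step -/
noncomputable def smat (s : Step F ι W) (x : ι → F) : Matrix (Fin W) (Fin W) F :=
  bmat s.1 (s.2.val x)

/-- the transfer matrix of a context -/
noncomputable def tr (c : List (Step F ι W)) (x : ι → F) : Matrix (Fin W) (Fin W) F :=
  (c.map fun s => smat s x).prod

/-- number of occurrences of a letter in a context -/
def cntC [DecidableEq ι] (c : List (Step F ι W)) (i : ι) : ℕ := (c.map fun s => s.2.cnt i).sum

/-- `Dec t c q`: `t = c[q]` -/
inductive Dec : Net F ι W → List (Step F ι W) → Net F ι W → Prop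
  | refl (t : Net F ι W) : Dec t [] t
  | left (B : Bil F W) (l r q : Net F ι W) (c : List (Step F ι W)) :
      Dec l c q → Dec (.node B l r) ((B, r) :: c) q
  | right (B : Bil F W) (l r q : Net F ι W) (c : List (Step F ι W)) :
      Dec r c q → Dec (.node B l r) ((swp B, l) :: c) q

/-- annuli of a network -/
def AnnN (t : Net F ι W) (d : List (Step F ι W)) : Prop := ∃ c q, Dec t c q ∧ d <:+: c

/-- annuli of a context -/
def AnnC (c : List (Step F ι W)) (d : List (Step F ι W)) : Prop :=
  d <:+: c ∨ ∃ s ∈ c, AnnN s.2 d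

/-- the annulus ranks of a network agree at two points -/
def REqN (t : Net F ι W) (a b : ι → F) : Prop := ∀ d, AnnN t d → (tr d b).rank = (tr d a).rank

/-- the annulus ranks of a context agree at two points -/
def REqC (c : List (Step F ι W)) (a b : ι → F) : Prop :=
  ∀ d, AnnC c d → (tr d b).rank = (tr d a).rank

/-- `f` is structured along the list `L` at the point `b` with matrices of size at most `D` -/
def StrL (D : ℕ) (L : List ι) (b : ι → F) (f : (ι → F) → F) : Prop :=
  ∃ (κ : Type) (_ : Fintype κ) (_ : DecidableEq κ) (E : ι → F → Matrix κ κ F)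
    (C : Matrix κ κ F), Fintype.card κ ≤ D ∧ (∀ i ∈ L, IsUnit (E i (b i))) ∧
      ∀ x : ι → F, (∀ i, i ∉ L → x i = b i) →
        f x = (C * (L.map fun i => E i (x i)).prod).trace

/-- `f` is structured along the finite set `U` (in increasing order) -/
def Str [LinearOrder ι] (D : ℕ) (U : Finset ι) (b : ι → F) (f : (ι → F) → F) : Prop :=
  StrL D (U.sort (· ≤ ·)) b f

/-- all entries of the transfer matrix are structured wherever the annulus ranks are those of `a` -/
def PC [LinearOrder ι] (D : ℕ) (c : List (Step F ι W)) (a : ι → F) (U : Finset ι) : Prop :=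
  ∀ b, REqC c a b → ∀ p q, Str D U b fun x => tr c x p q

/-- all coordinates of the value are structured wherever the annulus ranks are those of `a` -/
def PN [LinearOrder ι] (D : ℕ) (t : Net F ι W) (a : ι → F) (U : Finset ι) : Prop :=
  ∀ b, REqN t a b → ∀ p, Str D U b fun x => t.val x p

/-- Ramsey property -/
def Ram (N : ℕ → ℕ) (A : Finset ι) (P : Finset ι → Prop) : Prop :=
  ∀ m (V : Finset ι), V ⊆ A → N m ≤ V.card → ∃ U : Finset ι, U ⊆ V ∧ U.card = m ∧ P U

/-! ### the numbers -/

/-- Erdős–Szekeres number used here -/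
def es (m : ℕ) : ℕ := 4 ^ m

/-- chain length needed for Lemma D -/
def MD (W m : ℕ) : ℕ := (2 * es m + 1) ^ (W + 1)

/-- chains in networks -/
def KN (s : ℕ) : ℕ → ℕ
  | 0 => 0
  | M + 1 => 2 * KN s M + 3 * s + 2

/-- chains in contexts -/
def KC (s M : ℕ) (j : ℕ) : ℕ := j * (KN s M + 3 * s + 2)

/-- sizes of the matrices -/
def DD (W : ℕ) : ℕ → ℕ
  | 0 => 1
  | k + 1 => (W + 1) ^ 7 * (1 + DD W k) ^ 4

/-- sizes of the sets in Lemma C -/
def NN (W : ℕ) : ℕ → ℕ → ℕ
  | 0, m => m
  | k + 1, m =>
    let s := NN W k (NN W k m) + NN W k (NN W k (NN W k (NN W k m + 1)))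
    m + KC s (MD W m) (MD W m)

/-- size bound for minors -/
def DF (W k : ℕ) : ℕ := W.factorial * ((W + 1) * DD W k + 1) ^ W

/-- the radius -/
def RR (W k : ℕ) : ℕ := NN W k (DF W k ^ 2 + 1) + 1

end Pool.Agent.H2.RK
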