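import Pool.Agent.H2.RK.Defs

/-!
# The dimension argument (Lemma A, module Dim)

Induction on the list for fixed `κ, E, b`: with
`S L = span of all products (L.map fun i => E i (x i)).prod`, either
`L.length + 1 ≤ finrank (S L)` or every `C` such that `trace (C * prod L x) = 0` whenever
`x i = b i` for some `i ∈ L` satisfies `trace (C * prod L x) = 0` for all `x`.
-/

namespace Pool.Agent.H2.RK

open Matrix

variable {F : Type*} {ι : Type*} [Field F]

theorem dim_alt {κ : Type} [Fintype κ] [DecidableEq κ] [Nonempty κ] (E : ι → F → Matrix κ κ F)
    (b : ι → F) (L : List ι) (hL : L.Nodup) (hE : ∀ i ∈ L, IsUnit (E i (b i))) :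
    L.length + 1 ≤ Module.finrank F (Submodule.span F
      (Set.range fun x : ι → F => (L.map fun i => E i (x i)).prod)) ∨
    ∀ C : Matrix κ κ F,
      (∀ x : ι → F, (∃ i ∈ L, x i = b i) → (C * (L.map fun i => E i (x i)).prod).trace = 0) →
      ∀ x : ι → F, (C * (L.map fun i => E i (x i)).prod).trace = 0 := by
  classical
  induction L with
  | nil =>
    left
    have h1 : (1 : Matrix κ κ F) ≠ 0 := one_ne_zero
    have hmem : (1 : Matrix κ κ F) ∈ Submodule.span F
        (Set.range fun x : ι → F => (([] : List ι).map fun i => E i (x i)).prod) :=
      Submodule.subset_span ⟨b, by simp⟩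
    have hle : Submodule.span F {(1 : Matrix κ κ F)} ≤ Submodule.span F
        (Set.range fun x : ι → F => (([] : List ι).map fun i => E i (x i)).prod) := by
      rw [Submodule.span_le]
      intro y hy
      rw [Set.mem_singleton_iff] at hy
      rw [hy]
      exact hmem
    have h2 := Submodule.finrank_mono hle
    rw [finrank_span_singleton h1] at h2
    simp only [List.length_nil, zero_add]
    exact h2
  | cons i L ih =>
    rw [List.nodup_cons] at hL
    have hEL : ∀ j ∈ L, IsUnit (E j (b j)) := fun j hj => hE j (List.mem_cons_of_mem _ hj)
    have hEi : IsUnit (E i (b i)) := hE i List.mem_cons_self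
    have hupd : ∀ (x : ι → F) (a : F),
        (L.map fun j => E j (Function.update x i a j)) = L.map fun j => E j (x j) := by
      intro x a
      apply List.map_congr_left
      intro j hj
      have hji : j ≠ i := fun h => hL.1 (h ▸ hj)
      rw [Function.update_of_ne hji]
    rcases ih hL.2 hEL with h | h
    · -- the products of the tail span a large space
      set S' := Submodule.span F (Set.range fun x : ι → F => (L.map fun j => E j (x j)).prod)
        with hS'
      set S := Submodule.span F
        (Set.range fun x : ι → F => ((i :: L).map fun j => E j (x j)).prod) with hS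
      let φ : Matrix κ κ F →ₗ[F] Matrix κ κ F := LinearMap.mulLeft F (E i (b i))
      have hφ : Function.Injective φ := by
        intro u v huv
        exact hEi.mul_left_cancel huv
      have hle : S'.map φ ≤ S := by
        rw [hS', Submodule.map_span, Submodule.span_le]
        rintro _ ⟨_, ⟨x, rfl⟩, rfl⟩
        apply Submodule.subset_span
        refine ⟨Function.update x i (b i), ?_⟩
        simp only [List.map_cons, List.prod_cons, hupd, Function.update_self]
        rfl
      have hfr : Module.finrank F (S'.map φ) = Module.finrank F S' :=
        (Submodule.equivMapOfInjective φ hφ S').finrank_eq.symm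
      by_cases hlt : Module.finrank F S' < Module.finrank F S
      · left
        rw [List.length_cons]
        omega
      · right
        have heq : S'.map φ = S := by
          apply Submodule.eq_of_le_of_finrank_le hle
          rw [hfr]
          omega
        intro C hC x
        have hmem : ((i :: L).map fun j => E j (x j)).prod ∈ S :=
          Submodule.subset_span ⟨x, rfl⟩
        rw [← heq] at hmem
        have key : ∀ M ∈ S'.map φ, (C * M).trace = 0 := by
          intro M hM
          rw [hS', Submodule.map_span] at hM
          induction hM using Submodule.span_induction with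
          | mem M hM =>
            obtain ⟨_, ⟨y, rfl⟩, rfl⟩ := hM
            have := hC (Function.update y i (b i)) ⟨i, List.mem_cons_self, by simp⟩
            simp only [List.map_cons, List.prod_cons, hupd, Function.update_self] at this
            exact this
          | zero => simp
          | add u v _ _ hu hv => rw [Matrix.mul_add, Matrix.trace_add, hu, hv, add_zero]
          | smul a u _ hu => rw [Matrix.mul_smul, Matrix.trace_smul, hu, smul_zero]
        exact key _ hmem
    · right
      intro C hC x
      have := h (C * E i (x i)) ?_ x
      · rw [List.map_cons, List.prod_cons, ← Matrix.mul_assoc]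
        exact this
      · intro y hy
        obtain ⟨j, hj, hjb⟩ := hy
        have hji : j ≠ i := fun h => hL.1 (h ▸ hj)
        have h3 := hC (Function.update y i (x i)) ⟨j, List.mem_cons_of_mem _ hj, by
          rw [Function.update_of_ne hji, hjb]⟩
        simp only [List.map_cons, List.prod_cons, hupd, Function.update_self] at h3
        rw [Matrix.mul_assoc]
        exact h3

/-- Lemma A -/
theorem StrL.zero {D : ℕ} {L : List ι} (hL : L.Nodup) {b : ι → F} {f : (ι → F) → F}
    (hf : StrL D L b f) (hD : D ^ 2 ≤ L.length)
    (h0 : ∀ x : ι → F, (∀ i, i ∉ L → x i = b i) → (∃ i ∈ L, x i = b i) → f x = 0)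
    (x : ι → F) (hx : ∀ i, i ∉ L → x i = b i) : f x = 0 := by
  classical
  obtain ⟨κ, _, _, E, C, hcard, hunit, hf⟩ := hf
  rcases isEmpty_or_nonempty κ with hκ | hκ
  · rw [hf x hx]
    simp [Matrix.trace]
  · rcases dim_alt E b L hL hunit with h | h
    · exfalso
      have h1 := Submodule.finrank_le (Submodule.span F
        (Set.range fun x : ι → F => (L.map fun i => E i (x i)).prod))
      have h2 : Module.finrank F (Matrix κ κ F) = Fintype.card κ * Fintype.card κ := by
        rw [Module.finrank_matrix]
        simp
      have h3 : Fintype.card κ * Fintype.card κ ≤ D ^ 2 := by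
        rw [pow_two]
        exact Nat.mul_le_mul hcard hcard
      omega
    · rw [hf x hx]
      apply h C
      intro y hy
      obtain ⟨i, hi, hib⟩ := hy
      let z : ι → F := fun j => if j ∈ L then y j else b j
      have hz : ∀ j, j ∉ L → z j = b j := fun j hj => by simp [z, hj]
      have h4 : (L.map fun j => E j (y j)) = L.map fun j => E j (z j) := by
        apply List.map_congr_left
        intro j hj
        simp [z, hj]
      rw [h4, ← hf z hz]
      exact h0 z hz ⟨i, hi, by simp [z, hi, hib]⟩

/-- Lemma A for sets -/
theorem Str.zero [LinearOrder ι] {D : ℕ} {U : Finset ι} {b : ι → F} {f : (ι → F) → F}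
    (hf : Str D U b f) (hD : D ^ 2 ≤ U.card)
    (h0 : ∀ x : ι → F, (∀ i, i ∉ U → x i = b i) → (∃ i ∈ U, x i = b i) → f x = 0)
    (x : ι → F) (hx : ∀ i, i ∉ U → x i = b i) : f x = 0 := by
  refine StrL.zero (L := U.sort (· ≤ ·)) (Finset.sort_nodup _ _) hf (by simpa using hD) ?_ x
    (fun i hi => hx i (by simpa using hi))
  intro y hy hi
  refine h0 y (fun i hi => hy i (by simpa using hi)) ?_
  obtain ⟨i, hi, h⟩ := hi
  exact ⟨i, by simpa using hi, h⟩

end Pool.Agent.H2.RK
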