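import Pool.Agent.H2.RK.FmDef

/-!
# The symbolic matrix of a formula (module FMat)

Construction (all matrices over `MvPolynomial ι F`): `(N, u, j)` with `N` nilpotent (`1 - N`
unipotent), `u` a row, `j` an index, `f = u (1 - N)⁻¹ e_j`:
* leaf: `N = (0)`, `u = (leaf)`, `j` the only index;
* product: `N = (N₁, E; 0, N₂)` with `E` = row `j₁` is `u₂`; `u = (u₁, 0)`, `j = j₂`;
* sum: one new index `j`, `N = (N₁, 0, e_{j₁}; 0, N₂, e_{j₂}; 0, 0, 0)`, `u = (u₁, u₂, 0)`.
The matrix is `(1 - N, e_j; -u, 0)` (determinant `f`; the sign of the row `u` can be put into the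
column: `(1 - N, -e_j; u, 0)`, so that the entries are constants or single variables).
Use a recursively defined index type and `Matrix.reindex` at the end.  `1 - N` has entries `1, 0`,
`- (entry of u₂)`: to keep entries constants or variables use instead the matrix
`(N - 1 | e_j; u | 0)` up to a global sign of the determinant, or scale; the statement only asks for
`det = f` or `det = - f`.
-/

namespace Pool.Agent.H2.RK

open Matrix

variable {F : Type*} {ι : Type*} [Field F]

/-- the number of entries of a matrix equal to a given variable -/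
noncomputable def entryCount {m : Type*} [Fintype m] (M : Matrix m m (MvPolynomial ι F)) (i : ι) :
    ℕ := {p : m × m | M p.1 p.2 = MvPolynomial.X i}.ncard

/-- a symbolic matrix whose entries are constants or single variables -/
def IsSym {m : Type*} (M : Matrix m m (MvPolynomial ι F)) : Prop :=
  ∀ a b, (∃ c : F, M a b = MvPolynomial.C c) ∨ ∃ i : ι, M a b = MvPolynomial.X i

/-! ### Rectangular matrices -/

/-- rectangular version of `IsSym` -/
private def Sy {m n : Type*} (M : Matrix m n (MvPolynomial ι F)) : Prop :=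
  ∀ a b, (∃ c : F, M a b = MvPolynomial.C c) ∨ ∃ i : ι, M a b = MvPolynomial.X i

open Classical in
/-- indicator of a variable -/
private noncomputable def ind (p : MvPolynomial ι F) (i : ι) : ℕ :=
  if p = MvPolynomial.X i then 1 else 0

private theorem ind_ne {p : MvPolynomial ι F} {i : ι} (h : p ≠ MvPolynomial.X i) : ind p i = 0 :=
  if_neg h

private theorem ind_eq {p : MvPolynomial ι F} {i : ι} (h : p = MvPolynomial.X i) : ind p i = 1 :=
  if_pos h

/-- number of entries equal to a variable -/
private noncomputable def cn {m n : Type*} [Fintype m] [Fintype n]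
    (M : Matrix m n (MvPolynomial ι F)) (i : ι) : ℕ :=
  ∑ a, ∑ b, ind (M a b) i

private theorem sy_blocks {m n m' n' : Type*} {A : Matrix m n (MvPolynomial ι F)}
    {B : Matrix m n' (MvPolynomial ι F)} {C : Matrix m' n (MvPolynomial ι F)}
    {D : Matrix m' n' (MvPolynomial ι F)} (hA : Sy A) (hB : Sy B) (hC : Sy C) (hD : Sy D) :
    Sy (fromBlocks A B C D) := by
  rintro (a | a) (b | b)
  · exact hA a b
  · exact hB a b
  · exact hC a b
  · exact hD a b

private theorem sy_cols {m n n' : Type*} {A : Matrix m n (MvPolynomial ι F)}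
    {B : Matrix m n' (MvPolynomial ι F)} (hA : Sy A) (hB : Sy B) : Sy (fromCols A B) := by
  rintro a (b | b)
  · exact hA a b
  · exact hB a b

private theorem sy_rows {m m' n : Type*} {A : Matrix m n (MvPolynomial ι F)}
    {B : Matrix m' n (MvPolynomial ι F)} (hA : Sy A) (hB : Sy B) : Sy (fromRows A B) := by
  rintro (a | a) b
  · exact hA a b
  · exact hB a b

private theorem sy_zero {m n : Type*} : Sy (0 : Matrix m n (MvPolynomial ι F)) := by
  intro a b
  left
  exact ⟨0, by simp⟩

private theorem sy_one {n : Type*} [DecidableEq n] : Sy (1 : Matrix n n (MvPolynomial ι F)) := by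
  intro a b
  left
  by_cases h : a = b
  · exact ⟨1, by rw [h, Matrix.one_apply_eq, map_one]⟩
  · exact ⟨0, by rw [Matrix.one_apply_ne h, map_zero]⟩

private theorem cn_blocks {m n m' n' : Type*} [Fintype m] [Fintype n] [Fintype m'] [Fintype n']
    (A : Matrix m n (MvPolynomial ι F))
    (B : Matrix m n' (MvPolynomial ι F)) (C : Matrix m' n (MvPolynomial ι F))
    (D : Matrix m' n' (MvPolynomial ι F)) (i : ι) :
    cn (fromBlocks A B C D) i = cn A i + cn B i + cn C i + cn D i := by
  unfold cn
  simp only [Fintype.sum_sum_type, fromBlocks_apply₁₁, fromBlocks_apply₁₂, fromBlocks_apply₂₁,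
    fromBlocks_apply₂₂, Finset.sum_add_distrib]
  ring

private theorem cn_cols {m n n' : Type*} [Fintype m] [Fintype n] [Fintype n']
    (A : Matrix m n (MvPolynomial ι F)) (B : Matrix m n' (MvPolynomial ι F)) (i : ι) :
    cn (fromCols A B) i = cn A i + cn B i := by
  unfold cn
  simp only [Fintype.sum_sum_type, fromCols_apply_inl, fromCols_apply_inr, Finset.sum_add_distrib]

private theorem cn_rows {m m' n : Type*} [Fintype m] [Fintype m'] [Fintype n]
    (A : Matrix m n (MvPolynomial ι F)) (B : Matrix m' n (MvPolynomial ι F)) (i : ι) :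
    cn (fromRows A B) i = cn A i + cn B i := by
  unfold cn
  simp only [Fintype.sum_sum_type, fromRows_apply_inl, fromRows_apply_inr]

private theorem cn_zero {m n : Type*} [Fintype m] [Fintype n] (i : ι) :
    cn (0 : Matrix m n (MvPolynomial ι F)) i = 0 := by
  unfold cn
  refine Finset.sum_eq_zero fun a _ => Finset.sum_eq_zero fun b _ => ind_ne ?_
  rw [Matrix.zero_apply]
  exact (MvPolynomial.X_ne_zero i).symm

private theorem one_ne_X (i : ι) : (1 : MvPolynomial ι F) ≠ MvPolynomial.X i := by
  intro h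
  have h1 := congrArg (MvPolynomial.eval (fun _ : ι => (0 : F))) h
  simp at h1

private theorem cn_one {n : Type*} [Fintype n] [DecidableEq n] (i : ι) :
    cn (1 : Matrix n n (MvPolynomial ι F)) i = 0 := by
  unfold cn
  refine Finset.sum_eq_zero fun a _ => Finset.sum_eq_zero fun b _ => ind_ne ?_
  by_cases h : a = b
  · rw [h, Matrix.one_apply_eq]
    exact one_ne_X i
  · rw [Matrix.one_apply_ne h]
    exact (MvPolynomial.X_ne_zero i).symm

/-- the `1 × 1` matrix with a given entry -/
private def sc (p : MvPolynomial ι F) : Matrix Unit Unit (MvPolynomial ι F) := Matrix.of fun _ _ => p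

private theorem sc_add (p q : MvPolynomial ι F) : sc p + sc q = sc (p + q) := rfl

private theorem sc_mul (p q : MvPolynomial ι F) : sc p * sc q = sc (p * q) := by
  ext a b
  simp [sc, Matrix.mul_apply]

/-- representation of a formula as `r A⁻¹ c` -/
private theorem exists_rep [DecidableEq ι] (f : Fm F ι) :
    ∃ (n : Type) (_ : Fintype n) (_ : DecidableEq n) (A B : Matrix n n (MvPolynomial ι F))
      (r : Matrix Unit n (MvPolynomial ι F)) (c : Matrix n Unit (MvPolynomial ι F)),
      Fintype.card n ≤ f.size ∧ A * B = 1 ∧ A.det = 1 ∧ r * B * c = sc f.poly ∧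
      Sy A ∧ Sy r ∧ Sy c ∧ ∀ i, cn A i + cn r i + cn c i ≤ f.occ i := by
  induction f with
  | con x =>
    refine ⟨Unit, inferInstance, inferInstance, 1, 1, sc (MvPolynomial.C x), 1, ?_, ?_, ?_, ?_, ?_,
      ?_, ?_, ?_⟩
    · simp [Fm.size, Fm.gates]
    · simp
    · simp
    · rw [Matrix.mul_one, Matrix.mul_one]
      rfl
    · exact sy_one
    · intro a b
      exact Or.inl ⟨x, rfl⟩
    · exact sy_one
    · intro i
      rw [cn_one]
      have h1 : cn (sc (MvPolynomial.C x)) i = 0 := by
        unfold cn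
        refine Finset.sum_eq_zero fun a _ => Finset.sum_eq_zero fun b _ => ind_ne ?_
        change MvPolynomial.C x ≠ MvPolynomial.X i
        intro h
        have h2 := congrArg (MvPolynomial.eval (fun _ : ι => x + 1)) h
        simp at h2
      rw [h1]
      exact Nat.zero_le _
  | var j =>
    refine ⟨Unit, inferInstance, inferInstance, 1, 1, sc (MvPolynomial.X j), 1, ?_, ?_, ?_, ?_, ?_,
      ?_, ?_, ?_⟩
    · simp [Fm.size, Fm.gates]
    · simp
    · simp
    · rw [Matrix.mul_one, Matrix.mul_one]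
      rfl
    · exact sy_one
    · intro a b
      exact Or.inr ⟨j, rfl⟩
    · exact sy_one
    · intro i
      rw [cn_one]
      have h1 : cn (sc (MvPolynomial.X (R := F) j)) i = if j = i then 1 else 0 := by
        unfold cn
        simp only [Finset.univ_unique, Finset.sum_singleton]
        change ind (MvPolynomial.X (R := F) j) i = _
        by_cases h : j = i
        · rw [if_pos h]
          exact ind_eq (by rw [h])
        · rw [if_neg h]
          exact ind_ne fun h' => h (MvPolynomial.X_injective h')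
      rw [h1]
      simp [Fm.occ]
  | add f g ihf ihg =>
    obtain ⟨n₁, _, _, A₁, B₁, r₁, c₁, s₁, a₁, d₁, e₁, u₁, v₁, w₁, k₁⟩ := ihf
    obtain ⟨n₂, _, _, A₂, B₂, r₂, c₂, s₂, a₂, d₂, e₂, u₂, v₂, w₂, k₂⟩ := ihg
    refine ⟨n₁ ⊕ n₂, inferInstance, inferInstance, fromBlocks A₁ 0 0 A₂, fromBlocks B₁ 0 0 B₂,
      fromCols r₁ r₂, fromRows c₁ c₂, ?_, ?_, ?_, ?_, ?_, ?_, ?_, ?_⟩
    · have h1 : (Fm.add f g).size = f.size + g.size + 1 := by
        simp [Fm.size, Fm.gates]
      rw [Fintype.card_sum]
      omega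
    · rw [fromBlocks_multiply]
      simp only [Matrix.mul_zero, Matrix.zero_mul, add_zero, zero_add, a₁, a₂]
      exact fromBlocks_one
    · rw [det_fromBlocks_zero₂₁, d₁, d₂, one_mul]
    · rw [fromCols_mul_fromBlocks, fromCols_mul_fromRows]
      simp only [Matrix.mul_zero, add_zero, zero_add]
      rw [e₁, e₂]
      rfl
    · exact sy_blocks u₁ sy_zero sy_zero u₂
    · exact sy_cols v₁ v₂
    · exact sy_rows w₁ w₂
    · intro i
      rw [cn_blocks, cn_cols, cn_rows, cn_zero, cn_zero]
      have h1 := k₁ i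
      have h2 := k₂ i
      have h3 : (Fm.add f g).occ i = f.occ i + g.occ i := rfl
      omega
  | mul f g ihf ihg =>
    obtain ⟨n₁, _, _, A₁, B₁, r₁, c₁, s₁, a₁, d₁, e₁, u₁, v₁, w₁, k₁⟩ := ihf
    obtain ⟨n₂, _, _, A₂, B₂, r₂, c₂, s₂, a₂, d₂, e₂, u₂, v₂, w₂, k₂⟩ := ihg
    refine ⟨n₁ ⊕ (Unit ⊕ n₂), inferInstance, inferInstance,
      fromBlocks A₁ (fromCols c₁ 0) 0 (fromBlocks 1 r₂ 0 A₂),
      fromBlocks B₁ (-(B₁ * ((fromCols c₁ 0 : Matrix n₁ (Unit ⊕ n₂) (MvPolynomial ι F)) *
        (fromBlocks 1 (-(r₂ * B₂)) 0 B₂ : Matrix (Unit ⊕ n₂) (Unit ⊕ n₂) (MvPolynomial ι F))))) 0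
        (fromBlocks 1 (-(r₂ * B₂)) 0 B₂),
      fromCols r₁ 0, fromRows 0 (fromRows 0 c₂), ?_, ?_, ?_, ?_, ?_, ?_, ?_, ?_⟩
    · have h1 : (Fm.mul f g).size = f.size + g.size + 1 := by
        simp [Fm.size, Fm.gates]
      rw [Fintype.card_sum, Fintype.card_sum, Fintype.card_unit]
      omega
    · have h1 : (fromBlocks 1 r₂ 0 A₂ : Matrix (Unit ⊕ n₂) (Unit ⊕ n₂) (MvPolynomial ι F)) *
          (fromBlocks 1 (-(r₂ * B₂)) 0 B₂ : Matrix (Unit ⊕ n₂) (Unit ⊕ n₂) (MvPolynomial ι F)) =
          1 := by
        rw [fromBlocks_multiply]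
        simp only [Matrix.mul_zero, Matrix.zero_mul, add_zero, zero_add, a₂, Matrix.one_mul,
          neg_add_cancel]
        exact fromBlocks_one
      rw [fromBlocks_multiply, h1, a₁]
      simp only [Matrix.mul_zero, Matrix.zero_mul, add_zero, Matrix.mul_neg]
      rw [← Matrix.mul_assoc A₁ B₁, a₁, Matrix.one_mul, neg_add_cancel]
      rw [neg_zero, zero_add]
      exact fromBlocks_one
    · rw [det_fromBlocks_zero₂₁, det_fromBlocks_zero₂₁, d₁, d₂, det_one, one_mul, one_mul]
    · rw [fromCols_mul_fromBlocks, fromCols_mul_fromRows]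
      simp only [Matrix.mul_zero, Matrix.zero_mul, add_zero, zero_add]
      rw [fromCols_mul_fromBlocks]
      simp only [Matrix.mul_zero, Matrix.zero_mul, add_zero, Matrix.mul_neg,
        Matrix.neg_mul, Matrix.mul_one]
      rw [Matrix.mul_assoc r₁, Matrix.mul_assoc B₁, fromCols_mul_fromRows]
      simp only [Matrix.mul_zero, zero_add, Matrix.mul_neg, Matrix.neg_mul, neg_neg]
      have h2 : r₁ * (B₁ * (c₁ * (r₂ * B₂) * c₂)) = (r₁ * B₁ * c₁) * (r₂ * B₂ * c₂) := by
        simp only [Matrix.mul_assoc]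
      rw [h2, e₁, e₂, sc_mul]
      rfl
    · exact sy_blocks u₁ (sy_cols w₁ sy_zero) sy_zero (sy_blocks sy_one v₂ sy_zero u₂)
    · exact sy_cols v₁ sy_zero
    · exact sy_rows sy_zero (sy_rows sy_zero w₂)
    · intro i
      rw [cn_blocks, cn_blocks, cn_cols, cn_cols, cn_rows, cn_rows]
      simp only [cn_zero, cn_one]
      have h1 := k₁ i
      have h2 := k₂ i
      have h3 : (Fm.mul f g).occ i = f.occ i + g.occ i := rfl
      omega

private theorem entryCount_eq {m : Type*} [Fintype m] (M : Matrix m m (MvPolynomial ι F)) (i : ι) :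
    entryCount M i = cn M i := by
  classical
  unfold entryCount cn ind
  rw [← Finset.sum_product', Finset.univ_product_univ, ← Finset.sum_filter, Finset.sum_const,
    smul_eq_mul, mul_one, Set.ncard_eq_toFinset_card']
  congr 1
  ext p
  simp

/-- the symbolic matrix of a formula: entries constants or single variables, every variable in at
most as many entries as it has occurrences in the formula, determinant the formula up to sign,
size at most `size f + 1` -/
theorem Fm.exists_matrix [DecidableEq ι] (f : Fm F ι) :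
    ∃ (N : ℕ) (M : Matrix (Fin N) (Fin N) (MvPolynomial ι F)),
      N ≤ f.size + 1 ∧ IsSym M ∧ (∀ i, entryCount M i ≤ f.occ i) ∧
      (M.det = f.poly ∨ M.det = - f.poly) := by
  obtain ⟨n, _, _, A, B, r, c, hs, hAB, hdet, hrep, hA, hr, hc, hcn⟩ := exists_rep f
  have hBA : B * A = 1 := mul_eq_one_comm.1 hAB
  let P : Matrix (n ⊕ Unit) (n ⊕ Unit) (MvPolynomial ι F) := fromBlocks A c r 0
  have hP1 : Sy P := sy_blocks hA hc hr sy_zero
  have hP2 : P.det = - f.poly := by
    let _ : Invertible A := ⟨B, hBA, hAB⟩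
    have h1 : (⅟A : Matrix n n (MvPolynomial ι F)) = B := rfl
    change (fromBlocks A c r 0).det = _
    rw [det_fromBlocks₁₁, h1, hrep, hdet, one_mul, zero_sub, det_unique]
    rfl
  have hP3 : ∀ i, cn P i ≤ f.occ i := by
    intro i
    change cn (fromBlocks A c r 0) i ≤ _
    rw [cn_blocks, cn_zero]
    have := hcn i
    omega
  let e := Fintype.equivFin (n ⊕ Unit)
  refine ⟨Fintype.card (n ⊕ Unit), Matrix.reindex e e P, ?_, ?_, ?_, Or.inr ?_⟩
  · rw [Fintype.card_sum, Fintype.card_unit]
    omega
  · intro a b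
    exact hP1 (e.symm a) (e.symm b)
  · intro i
    rw [entryCount_eq]
    refine le_trans (le_of_eq ?_) (hP3 i)
    unfold cn
    rw [← Equiv.sum_comp e]
    refine Finset.sum_congr rfl fun a _ => ?_
    rw [← Equiv.sum_comp e]
    refine Finset.sum_congr rfl fun b _ => ?_
    simp
  · rw [Matrix.det_reindex_self, hP2]

end Pool.Agent.H2.RK
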