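import Pool.Agent.H2.RK.Jump
import Pool.Agent.H2.RK.GridDeg

/-!
# Grid version (module Grid)
-/

namespace Pool.Agent.H2.RK

open Matrix

variable {F : Type*} {ι : Type*} [Field F] {W : ℕ}

open Classical in
/-- the potential: sum of the annulus ranks, plus one if the coordinate `r₀` does not vanish -/
noncomputable def pot (t : Net F ι W) (r₀ : Fin W) (x : ι → F) : ℕ :=
  ((annL t).map fun d => (tr d x).rank).sum + if t.val x r₀ = 0 then 0 else 1

private theorem grid_rank_le (d : List (Step F ι W)) (x : ι → F) : (tr d x).rank ≤ W := by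
  have h := Matrix.rank_le_card_width (tr d x)
  simpa using h

theorem pot_le (t : Net F ι W) (r₀ : Fin W) (x : ι → F) : pot t r₀ x ≤ W * t.size ^ 2 + 1 := by
  have h1 : ((annL t).map fun d => (tr d x).rank).sum ≤ W * t.size ^ 2 := by
    have h2 : ((annL t).map fun d => (tr d x).rank).sum
        ≤ ((annL t).map fun d => (tr d x).rank).length • W := by
      refine List.sum_le_card_nsmul _ _ fun y hy => ?_
      obtain ⟨d, -, rfl⟩ := List.mem_map.1 hy
      exact grid_rank_le d x
    rw [List.length_map, smul_eq_mul, mul_comm] at h2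
    exact h2.trans (Nat.mul_le_mul_left _ (length_annL t))
  unfold pot
  split_ifs <;> omega

/-- keep the letters of `V`, put constants elsewhere -/
private noncomputable def grid_sub (V : Finset ι) [DecidableEq ι] (a : ι → F)
    (f : MvPolynomial ι F) : MvPolynomial ι F :=
  MvPolynomial.bind₁ (fun i => if i ∈ V then MvPolynomial.X i else MvPolynomial.C (a i)) f

private theorem grid_eval_sub [DecidableEq ι] (V : Finset ι) (a y : ι → F)
    (f : MvPolynomial ι F) :
    MvPolynomial.eval y (grid_sub V a f)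
      = MvPolynomial.eval (fun i => if i ∈ V then y i else a i) f := by
  have h := MvPolynomial.eval₂Hom_bind₁ (RingHom.id F) y
    (fun i => if i ∈ V then MvPolynomial.X i else MvPolynomial.C (a i)) f
  have h1 : (fun i => MvPolynomial.eval₂Hom (RingHom.id F) y
      (if i ∈ V then (MvPolynomial.X i : MvPolynomial ι F) else MvPolynomial.C (a i)))
      = fun i => if i ∈ V then y i else a i := by
    funext i
    split_ifs <;> simp
  rw [h1] at h
  exact h

private theorem grid_deg_sub [DecidableEq ι] (V : Finset ι) (a : ι → F)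
    (f : MvPolynomial ι F) (i : ι) :
    (grid_sub V a f).degreeOf i ≤ f.degreeOf i := by
  classical
  unfold grid_sub
  have h1 : MvPolynomial.bind₁
      (fun i => if i ∈ V then (MvPolynomial.X i : MvPolynomial ι F) else MvPolynomial.C (a i)) f
      = ∑ m ∈ f.support, MvPolynomial.C (f.coeff m) * ∏ j ∈ m.support,
        (if j ∈ V then (MvPolynomial.X j : MvPolynomial ι F) else MvPolynomial.C (a j)) ^ m j := by
    rw [MvPolynomial.bind₁, MvPolynomial.aeval_def, MvPolynomial.eval₂_eq]
    rfl
  rw [h1]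
  refine (MvPolynomial.degreeOf_sum_le _ _ _).trans (Finset.sup_le fun m hm => ?_)
  refine (MvPolynomial.degreeOf_C_mul_le _ _ _).trans ?_
  refine (MvPolynomial.degreeOf_prod_le _ _ _).trans ?_
  have h2 : ∀ j ∈ m.support, MvPolynomial.degreeOf i
      ((if j ∈ V then (MvPolynomial.X j : MvPolynomial ι F) else MvPolynomial.C (a j)) ^ m j)
      ≤ if j = i then m i else 0 := by
    intro j _
    refine (MvPolynomial.degreeOf_pow_le _ _ _).trans ?_
    split_ifs with h3 h4 h4
    · subst h4
      have h5 : MvPolynomial.degreeOf j (MvPolynomial.X j : MvPolynomial ι F) ≤ 1 := by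
        rw [MvPolynomial.degreeOf_X]
        simp
      calc m j * _ ≤ m j * 1 := Nat.mul_le_mul_left _ h5
        _ = m j := mul_one _
    · have h5 : MvPolynomial.degreeOf i (MvPolynomial.X j : MvPolynomial ι F) = 0 := by
        rw [MvPolynomial.degreeOf_X]
        rw [if_neg (fun h => h4 h.symm)]
      rw [h5, mul_zero]
    · rw [MvPolynomial.degreeOf_C, mul_zero]
      exact Nat.zero_le _
    · rw [MvPolynomial.degreeOf_C, mul_zero]
  refine (Finset.sum_le_sum h2).trans ?_
  rw [Finset.sum_ite_eq']
  have h6 : m i ≤ f.degreeOf i := by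
    rw [MvPolynomial.degreeOf_eq_sup]
    exact Finset.le_sup (f := fun m : ι →₀ ℕ => m i) hm
  split_ifs
  · exact h6
  · exact Nat.zero_le _

private theorem grid_leafDeg_dec {δ : ℕ} {t q : Net F ι W} {c : List (Step F ι W)}
    (h : Dec t c q) (hδ : LeafDeg δ t) : ∀ s ∈ c, LeafDeg δ s.2 := by
  induction h with
  | refl t => intro s hs; cases hs
  | left B l r q c _ ih =>
    intro s hs
    rcases List.mem_cons.1 hs with rfl | hs
    · exact hδ.2
    · exact ih hδ.1 s hs
  | right B l r q c _ ih =>
    intro s hs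
    rcases List.mem_cons.1 hs with rfl | hs
    · exact hδ.1
    · exact ih hδ.2 s hs

private theorem grid_one_rank {g : F} (h : g ≠ 0) :
    1 ≤ (Matrix.of fun (_ : Fin 1) (_ : Fin 1) => g).rank := by
  refine Pool.Agent.H20.Edm.le_rank_of_minor _ id id ?_
  simpa using h

private theorem grid_rank_one {g : F}
    (h : 1 ≤ (Matrix.of fun (_ : Fin 1) (_ : Fin 1) => g).rank) : g ≠ 0 := by
  rintro rfl
  have h1 : (Matrix.of fun (_ : Fin 1) (_ : Fin 1) => (0 : F)) = 0 := by
    ext i j; rfl
  rw [h1, Matrix.rank_zero] at h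
  omega

/-- a grid point without improvement of the potential satisfies the hypothesis of
`local_global` -/
theorem grid_opt [Fintype ι] [LinearOrder ι] [Infinite F] (R k δ : ℕ) (t : Net F ι W)
    (r₀ : Fin W) (hk : ∀ i, t.cnt i ≤ k) (hδ : LeafDeg δ t) (T : Finset F)
    (hT : k * δ * (W * t.size ^ 2 + 1) < T.card) (a : ι → F) (haT : ∀ i, a i ∈ T)
    (hopt : ∀ b : ι → F, (∀ i, b i ∈ T) → {i | b i ≠ a i}.ncard ≤ R →
      pot t r₀ b ≤ pot t r₀ a) (x : ι → F)
    (hx : ∃ S : Finset ι, S.card ≤ R ∧ ∀ i, i ∉ S → x i = a i) :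
    (∀ d, AnnN t d → (tr d x).rank ≤ (tr d a).rank) ∧ (t.val a r₀ = 0 → t.val x r₀ = 0) := by
  classical
  obtain ⟨S, hSR, hxS⟩ := hx
  set len := (annL t).length with hlen
  let an : Fin len → List (Step F ι W) := fun j => (annL t)[j]
  have han : ∀ j, AnnN t (an j) := fun j => mem_annL.1 (List.getElem_mem _)
  let m : Option (Fin len) → ℕ := fun o => o.elim 1 fun _ => W
  let N : ∀ o : Option (Fin len), Matrix (Fin (m o)) (Fin (m o)) (MvPolynomial ι F) := fun o =>
    match o with
    | none => Matrix.of fun _ _ => grid_sub S a (t.pval r₀)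
    | some j => (ptr (an j)).map (grid_sub S a)
  let y : (ι → F) → ι → F := fun z i => if i ∈ S then z i else a i
  have hNone : ∀ z : ι → F, (N none).map (MvPolynomial.eval z)
      = Matrix.of fun (_ : Fin 1) (_ : Fin 1) => t.val (y z) r₀ := by
    intro z
    ext p q
    show MvPolynomial.eval z (grid_sub S a (t.pval r₀)) = t.val (y z) r₀
    rw [grid_eval_sub, eval_pval]
  have hSome : ∀ (z : ι → F) (j : Fin len), (N (some j)).map (MvPolynomial.eval z)
      = tr (an j) (y z) := by
    intro z j
    rw [← eval_ptr (an j) (y z)]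
    ext p q
    show MvPolynomial.eval z (grid_sub S a (ptr (an j) p q)) = _
    rw [grid_eval_sub]
    rfl
  have hya : y a = a := by
    funext i
    simp [y]
  have hyx : y x = x := by
    funext i
    by_cases hi : i ∈ S
    · simp [y, hi]
    · simp [y, hi, hxS i hi]
  have hdeg : ∀ o p q i, (N o p q).degreeOf i ≤ k * δ := by
    intro o p q i
    cases o with
    | none =>
      refine (grid_deg_sub _ _ _ _).trans ((degreeOf_pval hδ _ _).trans ?_)
      exact Nat.mul_le_mul_right _ (hk i)
    | some j =>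
      obtain ⟨c, q', hc, hinf⟩ := han j
      refine (grid_deg_sub _ _ _ _).trans ((degreeOf_ptr (δ := δ) (fun s hs => ?_) _ _ _).trans ?_)
      · exact grid_leafDeg_dec hc hδ s (hinf.subset hs)
      · refine Nat.mul_le_mul_right _ ((cntC_inf hinf i).trans (le_trans ?_ (hk i)))
        have := hc.cnt i
        omega
  let c : Option (Fin len) → ι → F := fun o =>
    match o with
    | none => if t.val a r₀ = 0 then x else a
    | some j => if (tr (an j) a).rank ≤ (tr (an j) x).rank then x else a
  have hsum : ∑ o, m o = W * len + 1 := by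
    rw [Fintype.sum_option]
    simp [m, mul_comm, add_comm]
  have hlen2 : len ≤ t.size ^ 2 := length_annL t
  obtain ⟨b, hbT, hb⟩ := exists_grid N (k * δ) hdeg c T (by
    rw [hsum]
    refine lt_of_le_of_lt ?_ hT
    refine Nat.mul_le_mul_left _ ?_
    exact Nat.add_le_add_right (Nat.mul_le_mul_left _ hlen2) 1)
  have hbig : ∀ j, max (tr (an j) a).rank (tr (an j) x).rank ≤ (tr (an j) (y b)).rank := by
    intro j
    have h1 := hb (some j)
    rw [hSome, hSome] at h1
    simp only [c] at h1
    split_ifs at h1 with h2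
    · rw [hyx] at h1
      exact max_le (h2.trans h1) h1
    · rw [hya] at h1
      exact max_le h1 ((le_of_lt (not_le.1 h2)).trans h1)
  have hzero : (t.val a r₀ ≠ 0 ∨ t.val x r₀ ≠ 0) → t.val (y b) r₀ ≠ 0 := by
    intro h0
    have h1 := hb none
    rw [hNone, hNone] at h1
    simp only [c] at h1
    refine grid_rank_one (le_trans ?_ h1)
    split_ifs with h2
    · rw [hyx]
      exact grid_one_rank (h0.resolve_left (not_not.2 h2))
    · rw [hya]
      exact grid_one_rank h2
  have hyT : ∀ i, y b i ∈ T := by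
    intro i
    simp only [y]
    split_ifs
    · exact hbT i
    · exact haT i
  have hcard : {i | y b i ≠ a i}.ncard ≤ R := by
    refine le_trans ?_ hSR
    rw [← Set.ncard_coe_finset]
    refine Set.ncard_le_ncard (fun i hi => ?_) (Finset.finite_toSet S)
    by_contra hiS
    exact hi (by simp [y, Finset.mem_coe.not.1 hiS])
  have hpot := hopt (y b) hyT hcard
  have hsumL : ∀ z : ι → F, ((annL t).map fun d => (tr d z).rank).sum
      = ∑ j : Fin len, (tr (an j) z).rank := by
    intro z
    exact (Fin.sum_univ_fun_getElem (annL t) (fun d => (tr d z).rank)).symm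
  unfold pot at hpot
  rw [hsumL, hsumL] at hpot
  have hle : ∑ j : Fin len, (tr (an j) a).rank ≤ ∑ j : Fin len, (tr (an j) (y b)).rank :=
    Finset.sum_le_sum fun j _ => (le_max_left _ _).trans (hbig j)
  have hind : (if t.val a r₀ = 0 then 0 else 1) ≤ (if t.val (y b) r₀ = 0 then 0 else 1 : ℕ) := by
    by_cases h0 : t.val a r₀ = 0
    · simp [h0]
    · rw [if_neg h0, if_neg (hzero (Or.inl h0))]
  constructor
  · intro d hd
    by_contra hcon
    push Not at hcon
    obtain ⟨j, hj, hjd⟩ := List.getElem_of_mem (mem_annL.2 hd)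
    have hlt : ∑ j : Fin len, (tr (an j) a).rank < ∑ j : Fin len, (tr (an j) (y b)).rank := by
      refine Finset.sum_lt_sum (fun j _ => (le_max_left _ _).trans (hbig j))
        ⟨⟨j, hj⟩, Finset.mem_univ _, ?_⟩
      have h3 : an ⟨j, hj⟩ = d := hjd
      have h4 := hbig ⟨j, hj⟩
      rw [h3] at h4 ⊢
      exact lt_of_lt_of_le hcon ((le_max_right _ _).trans h4)
    omega
  · intro h0
    by_contra hcon
    have h5 := hzero (Or.inr hcon)
    rw [if_pos h0, if_neg h5] at hpot
    omega

/-- Theorem 1 for grids -/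
theorem net_main [Fintype ι] [LinearOrder ι] [Infinite F] (k δ : ℕ) (t : Net F ι W)
    (r₀ : Fin W) (hk : ∀ i, t.cnt i ≤ k) (hδ : LeafDeg δ t) (T : Finset F)
    (hT : k * δ * (W * t.size ^ 2 + 1) < T.card) (a : ι → F) (haT : ∀ i, a i ∈ T)
    (hopt : ∀ b : ι → F, (∀ i, b i ∈ T) →
      {i | b i ≠ a i}.ncard ≤ RR W k → pot t r₀ b ≤ pot t r₀ a)
    (x : ι → F) :
    (∀ d, AnnN t d → (tr d x).rank ≤ (tr d a).rank) ∧ (t.val a r₀ = 0 → t.val x r₀ = 0) :=
  local_global k t r₀ hk a (fun y hy => grid_opt (RR W k) k δ t r₀ hk hδ T hT a haT hopt y hy) x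

end Pool.Agent.H2.RK
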