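import Pool.Agent.H2.RK.FmGrid
import Pool.Agent.H2.RK.Grid
import Pool.Agent.H2.RK.FMat
import Pool.Agent.H2.RK.ABP

/-!
# Summary (module Final)
-/

namespace Pool.Agent.H2.RK

open Matrix

variable {F : Type} [Field F] [Infinite F] {n : ℕ}

omit [Infinite F] in
private theorem rank_lt_iff_det {N : ℕ} (M : Matrix (Fin N) (Fin N) (MvPolynomial (Fin n) F)) :
    (M.map (algebraMap _ (FractionRing (MvPolynomial (Fin n) F)))).rank < N ↔ M.det = 0 := by
  rw [← not_iff_not, not_lt]
  constructor
  · intro h
    obtain ⟨f, g, hfg⟩ := Pool.Agent.H20.Edm.exists_minor _ h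
    intro hdet
    have hf : Function.Injective f := by
      intro i j hij
      by_contra hne
      apply hfg
      exact Matrix.det_zero_of_row_eq hne (by ext k; simp [Matrix.submatrix_apply, hij])
    have hg : Function.Injective g := by
      intro i j hij
      by_contra hne
      apply hfg
      exact Matrix.det_zero_of_column_eq hne (by intro k; simp [Matrix.submatrix_apply, hij])
    let ef : Fin N ≃ Fin N := Equiv.ofBijective f (Finite.injective_iff_bijective.1 hf)
    let eg : Fin N ≃ Fin N := Equiv.ofBijective g (Finite.injective_iff_bijective.1 hg)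
    have h1 : ((M.map (algebraMap _ (FractionRing (MvPolynomial (Fin n) F)))).submatrix f g).det =
        ((M.map (algebraMap _ (FractionRing (MvPolynomial (Fin n) F)))).submatrix ef eg).det := rfl
    rw [h1] at hfg
    have hM : (M.map (algebraMap _ (FractionRing (MvPolynomial (Fin n) F)))).det = 0 := by
      have := RingHom.map_det (algebraMap (MvPolynomial (Fin n) F)
        (FractionRing (MvPolynomial (Fin n) F))) M
      rw [hdet, map_zero] at this
      exact this.symm
    have h2 : ((M.map (algebraMap _ (FractionRing (MvPolynomial (Fin n) F)))).submatrix ef eg) =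
        ((M.map (algebraMap _ (FractionRing (MvPolynomial (Fin n) F)))).submatrix id
          (ef.symm.trans eg)).submatrix ef ef := by
      ext i j
      simp [Matrix.submatrix_apply]
    rw [h2, Matrix.det_submatrix_equiv_self, Matrix.det_permute', hM, mul_zero] at hfg
    exact hfg rfl
  · intro h
    refine (Pool.Agent.H20.Edm.sym_minor_iff M N).2 ⟨id, id, ?_⟩
    rwa [Matrix.submatrix_id_id]

/-- the symbolic matrices of read-`k` formulas: the rank over the field of rational functions is
decided by local search -/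
theorem matrix_main (k : ℕ) (f : Fm F (Fin n)) (hk : ∀ i, f.occ i ≤ k) :
    ∃ (N : ℕ) (M : Matrix (Fin N) (Fin N) (MvPolynomial (Fin n) F)),
      N ≤ f.size + 1 ∧ IsSym M ∧ (∀ i, entryCount M i ≤ f.occ i) ∧
      (M.det = f.poly ∨ M.det = - f.poly) ∧
      ∀ T : Finset F, k * f.size < T.card →
        (∀ a, LocOpt f (RF k) T a →
          ((M.map (algebraMap _ (FractionRing (MvPolynomial (Fin n) F)))).rank < N ↔
            f.eval a = 0)) ∧
        ((M.map (algebraMap _ (FractionRing (MvPolynomial (Fin n) F)))).rank < N ↔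
          ∃ a, LocOpt f (RF k) T a ∧ f.eval a = 0) := by
  obtain ⟨N, M, hN, hsym, hent, hdet⟩ := Fm.exists_matrix f
  have h0 : M.det = 0 ↔ f.poly = 0 := by
    rcases hdet with h | h
    · rw [h]
    · rw [h, neg_eq_zero]
  refine ⟨N, M, hN, hsym, hent, hdet, fun T hT => ?_⟩
  obtain ⟨h1, h2⟩ := Fm.identity k f hk T hT
  constructor
  · intro a ha
    rw [rank_lt_iff_det, h0, h1 a ha]
  · rw [rank_lt_iff_det, h0, h2]

/-- networks: the summary -/
theorem net_summary {W : ℕ} (k δ : ℕ) (t : Net F (Fin n) W) (r₀ : Fin W)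
    (hk : ∀ i, t.cnt i ≤ k) (hδ : LeafDeg δ t) (T : Finset F)
    (hT : k * δ * (W * t.size ^ 2 + 1) < T.card) (a : Fin n → F) (haT : ∀ i, a i ∈ T)
    (hopt : ∀ b : Fin n → F, (∀ i, b i ∈ T) →
      {i | b i ≠ a i}.ncard ≤ RR W k → pot t r₀ b ≤ pot t r₀ a) :
    (∀ d, AnnN t d →
      ((ptr d).map (algebraMap _ (FractionRing (MvPolynomial (Fin n) F)))).rank =
        (tr d a).rank) ∧ (t.pval r₀ = 0 ↔ t.val a r₀ = 0) := by
  have hmain := fun x => net_main k δ t r₀ hk hδ T hT a haT hopt x
  constructor
  · intro d hd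
    apply le_antisymm
    · obtain ⟨f, g, hfg⟩ := (Pool.Agent.H20.Edm.sym_minor_iff (ptr d) _).1 le_rfl
      have hx : ∃ x : Fin n → F, MvPolynomial.eval x ((ptr d).submatrix f g).det ≠ 0 := by
        by_contra hcon
        push Not at hcon
        exact hfg (MvPolynomial.funext fun x => by rw [hcon x, map_zero])
      obtain ⟨x, hx⟩ := hx
      refine le_trans ?_ ((hmain x).1 d hd)
      rw [← eval_ptr]
      refine Pool.Agent.H20.Edm.le_rank_of_minor _ f g ?_
      rw [Pool.Agent.H20.Edm.eval_minor]
      exact hx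
    · rw [← eval_ptr]
      exact Pool.Agent.H20.Edm.rank_eval_le _ _
  · constructor
    · intro h
      rw [← eval_pval, h, map_zero]
    · intro h
      refine MvPolynomial.funext fun x => ?_
      rw [eval_pval, (hmain x).2 h, map_zero]

end Pool.Agent.H2.RK
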