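import Pool.Agent.H2.RK.LemC

/-!
# Minors and values are structured (module JumpStr)
-/

namespace Pool.Agent.H2.RK

open Matrix

variable {F : Type*} {ι : Type*} [Field F] {W : ℕ} [LinearOrder ι]

private theorem jumpStr_REqC {t : Net F ι W} {a b : ι → F} {d : List (Step F ι W)}
    (hd : AnnN t d) (hb : REqN t a b) : REqC d a b := by
  obtain ⟨c, q, hc, hdc⟩ := hd
  intro d' hd'
  apply hb
  apply AnnN.dec_ctx hc
  rcases hd' with h1 | ⟨s, hs, h1⟩
  · exact Or.inl (h1.trans hdc)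
  · exact Or.inr ⟨s, hdc.subset hs, h1⟩

/-- minors of the transfer matrix of an annulus are structured -/
theorem minor_str (k : ℕ) (t : Net F ι W) (a : ι → F) (A : Finset ι) (h : ∀ i ∈ A, t.cnt i ≤ k)
    (d : List (Step F ι W)) (hd : AnnN t d) (m : ℕ) (hA : NN W k m ≤ A.card) :
    ∃ U : Finset ι, U ⊆ A ∧ U.card = m ∧ ∀ b, REqN t a b → ∀ (r : ℕ) (_ : r ≤ W)
      (g h : Fin r → Fin W), Str (DF W k) U b fun x => ((tr d x).submatrix g h).det := by
  have hcnt : ∀ i ∈ A, cntC d i ≤ k := by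
    intro i hi
    obtain ⟨c, q, hc, hdc⟩ := hd
    have h1 := cntC_inf hdc i
    have h2 := hc.cnt i
    have h3 := h i hi
    omega
  obtain ⟨U, hU, hm, hP⟩ := lemC k d a A hcnt m A (Finset.Subset.refl _) hA
  refine ⟨U, hU, hm, fun b hb r hr g h' => ?_⟩
  have h1 : ∀ i j : Fin r, Str (DD W k) U b ((fun (i j : Fin r) (x : ι → F) =>
      tr d x (g i) (h' j)) i j) := fun i j => hP b (jumpStr_REqC hd hb) (g i) (h' j)
  have h2 := Str.det h1
  refine (Str.mono ?_ h2).congr fun x _ => rfl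
  refine Nat.mul_le_mul (Nat.factorial_le hr) ?_
  calc DD W k ^ r ≤ ((W + 1) * DD W k + 1) ^ r := by
        apply Nat.pow_le_pow_left
        nlinarith
    _ ≤ ((W + 1) * DD W k + 1) ^ W := Nat.pow_le_pow_right (by omega) hr

/-- coordinates of the value are structured -/
theorem val_str (k : ℕ) (t : Net F ι W) (a : ι → F) (A : Finset ι) (h : ∀ i ∈ A, t.cnt i ≤ k)
    (m : ℕ) (hA : NN W k m + 1 ≤ A.card) :
    ∃ U : Finset ι, U ⊆ A ∧ U.card = m ∧ ∀ b, REqN t a b → ∀ p,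
      Str (DF W k) U b fun x => t.val x p := by
  obtain ⟨U, hU, hm, hP⟩ := lemC_net k t a A h m A (Finset.Subset.refl _) hA
  refine ⟨U, hU, hm, fun b hb p => Str.mono ?_ (hP b hb p)⟩
  have hW : 1 ≤ W := by
    have := p.2
    omega
  calc W * DD W k ≤ ((W + 1) * DD W k + 1) ^ 1 := by nlinarith
    _ ≤ ((W + 1) * DD W k + 1) ^ W := Nat.pow_le_pow_right (by omega) hW
    _ ≤ W.factorial * ((W + 1) * DD W k + 1) ^ W :=
        Nat.le_mul_of_pos_left _ (Nat.factorial_pos W)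

end Pool.Agent.H2.RK
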