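import Pool.Agent.H2.RK.JumpCore
import Pool.Agent.H2.RK.JumpStr

/-!
# The minimal jump (module Jump): Theorem 1
-/

namespace Pool.Agent.H2.RK

open Matrix

variable {F : Type*} {ι : Type*} [Field F] {W : ℕ} [LinearOrder ι]

/-- Theorem 1: at a point where no change of at most `RR W k` coordinates increases the rank of an
annulus or makes the coordinate `r₀` of the value nonzero, all annulus ranks are maximal, and if the
coordinate `r₀` vanishes there it vanishes everywhere. -/
theorem local_global [Infinite F] [Finite ι] (k : ℕ) (t : Net F ι W) (r₀ : Fin W)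
    (hk : ∀ i, t.cnt i ≤ k) (a : ι → F)
    (hopt : ∀ x : ι → F, (∃ S : Finset ι, S.card ≤ RR W k ∧ ∀ i, i ∉ S → x i = a i) →
      (∀ d, AnnN t d → (tr d x).rank ≤ (tr d a).rank) ∧ (t.val a r₀ = 0 → t.val x r₀ = 0))
    (x : ι → F) :
    (∀ d, AnnN t d → (tr d x).rank ≤ (tr d a).rank) ∧ (t.val a r₀ = 0 → t.val x r₀ = 0) := by
  have hfin : Fintype ι := Fintype.ofFinite ι
  have key : ∀ (n : ℕ) (V : Finset ι), V.card = n → ∀ x : ι → F, (∀ i, i ∉ V → x i = a i) →
      (∀ d, AnnN t d → (tr d x).rank ≤ (tr d a).rank) ∧ (t.val a r₀ = 0 → t.val x r₀ = 0) := by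
    intro n
    induction n using Nat.strong_induction_on with
    | _ n ih =>
      intro V hVn x hx
      by_cases hc : V.card ≤ RR W k
      · exact hopt x ⟨V, hc, hx⟩
      have hc' : NN W k (DF W k ^ 2 + 1) + 1 ≤ V.card := by
        have h1 := Nat.lt_of_not_le hc
        unfold RR at h1
        exact h1.le
      have IH : ∀ y : ι → F, (∃ V' : Finset ι, V' ⊂ V ∧ ∀ i, i ∉ V' → y i = a i) →
          (∀ d, AnnN t d → (tr d y).rank ≤ (tr d a).rank) ∧
            (t.val a r₀ = 0 → t.val y r₀ = 0) := by
        rintro y ⟨V', hV', hy⟩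
        exact ih V'.card (hVn ▸ Finset.card_lt_card hV') V' rfl y hy
      constructor
      · intro d hd
        by_contra hlt
        have hlt' : (tr d a).rank + 1 ≤ (tr d x).rank := Nat.lt_of_not_le hlt
        have hrW : (tr d a).rank + 1 ≤ W := by
          have h1 := (tr d x).rank_le_width
          exact hlt'.trans h1
        obtain ⟨p, q, hpq⟩ := Pool.Agent.H20.Edm.exists_minor (tr d x) hlt'
        have hev : ∀ y : ι → F, MvPolynomial.eval y ((ptr d).submatrix p q).det =
            ((tr d y).submatrix p q).det := by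
          intro y
          rw [← Pool.Agent.H20.Edm.eval_minor, eval_ptr]
        obtain ⟨U, hU, hUc, hUs⟩ := minor_str k t a V (fun i _ => hk i) d hd (DF W k ^ 2 + 1)
          (Nat.le_of_succ_le hc')
        refine hpq ?_
        rw [← hev]
        refine jump_core t a V _ (DF W k) U hU hUc.ge ?_ ?_ (fun y hy => (IH y hy).1) x hx
        · intro b hb
          simp only [hev]
          exact hUs b hb _ hrW p q
        · intro y hy
          by_contra hne
          rw [hev] at hne
          have h1 := Pool.Agent.H20.Edm.le_rank_of_minor (tr d y) p q hne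
          have h2 := (IH y hy).1 d hd
          exact absurd (h1.trans h2) (Nat.not_succ_le_self _)
      · intro hva
        obtain ⟨U, hU, hUc, hUs⟩ := val_str k t a V (fun i _ => hk i) (DF W k ^ 2 + 1) hc'
        rw [← eval_pval]
        refine jump_core t a V _ (DF W k) U hU hUc.ge ?_ ?_ (fun y hy => (IH y hy).1) x hx
        · intro b hb
          simp only [eval_pval]
          exact hUs b hb r₀
        · intro y hy
          rw [eval_pval]
          exact (IH y hy).2 hva
  exact key _ Finset.univ rfl x (fun i hi => absurd (Finset.mem_univ i) hi)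

end Pool.Agent.H2.RK
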