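import Pool.Agent.H2.RK.FmDef
import Pool.Agent.H2.RK.Jump

/-!
# Formulas are networks of width 2 (module Fm)
-/

namespace Pool.Agent.H2.RK

open Matrix

variable {F : Type*} {ι : Type*} [Field F]

private def StepOK (f : Fm F ι) (s : Step F ι 2) : Prop :=
  ∃ gs : List (Fm F ι), (∀ g ∈ gs, g ∈ f.gates) ∧ ∀ x : ι → F,
    (smat s x) 0 0 = 1 ∧ (smat s x) 0 1 = 0 ∧ (smat s x) 1 1 = (gs.map fun g => g.eval x).prod

private theorem StepOK.mono {f g : Fm F ι} (h : ∀ e ∈ g.gates, e ∈ f.gates) {s : Step F ι 2}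
    (hs : StepOK g s) : StepOK f s := by
  obtain ⟨gs, h1, h2⟩ := hs
  exact ⟨gs, fun e he => h e (h1 e he), h2⟩

private theorem stepOK_add (g : Fm F ι) (f : Fm F ι) :
    StepOK f (bAdd, g.net) ∧ StepOK f (swp bAdd, g.net) := by
  constructor
  · refine ⟨[], by simp, fun x => ?_⟩
    simp [smat, bmat, bAdd, Fm.net_val]
  · refine ⟨[], by simp, fun x => ?_⟩
    simp [smat, bmat, bAdd, swp, Fm.net_val]

private theorem stepOK_mul {g f : Fm F ι} (hg : g ∈ f.gates) :
    StepOK f (bMul, g.net) ∧ StepOK f (swp bMul, g.net) := by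
  constructor
  · refine ⟨[g], by simpa using hg, fun x => ?_⟩
    simp [smat, bmat, bMul, Fm.net_val]
  · refine ⟨[g], by simpa using hg, fun x => ?_⟩
    simp [smat, bmat, bMul, swp, Fm.net_val]

private theorem stepOK_of_dec (f : Fm F ι) : ∀ {c : List (Step F ι 2)} {q : Net F ι 2},
    Dec f.net c q → ∀ s ∈ c, StepOK f s := by
  induction f with
  | con c =>
    intro c q h
    cases h
    simp
  | var i =>
    intro c q h
    cases h
    simp
  | add f g ihf ihg =>
    intro c q h s hs
    cases h with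
    | refl => simp at hs
    | left B l r q c h =>
      rcases List.mem_cons.1 hs with rfl | hs
      · exact (stepOK_add g _).1
      · exact (ihf h s hs).mono fun e he => by simp [Fm.gates, he]
    | right B l r q c h =>
      rcases List.mem_cons.1 hs with rfl | hs
      · exact (stepOK_add f _).2
      · exact (ihg h s hs).mono fun e he => by simp [Fm.gates, he]
  | mul f g ihf ihg =>
    intro c q h s hs
    cases h with
    | refl => simp at hs
    | left B l r q c h =>
      rcases List.mem_cons.1 hs with rfl | hs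
      · exact (stepOK_mul (by simp [Fm.gates, Fm.mem_gates_self])).1
      · exact (ihf h s hs).mono fun e he => by simp [Fm.gates, he]
    | right B l r q c h =>
      rcases List.mem_cons.1 hs with rfl | hs
      · exact (stepOK_mul (by simp [Fm.gates, Fm.mem_gates_self])).2
      · exact (ihg h s hs).mono fun e he => by simp [Fm.gates, he]

private theorem tr_of_stepOK (f : Fm F ι) : ∀ d : List (Step F ι 2), (∀ s ∈ d, StepOK f s) →
    ∃ gs : List (Fm F ι), (∀ g ∈ gs, g ∈ f.gates) ∧ ∀ x : ι → F,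
      (tr d x) 0 0 = 1 ∧ (tr d x) 0 1 = 0 ∧ (tr d x) 1 1 = (gs.map fun g => g.eval x).prod := by
  intro d
  induction d with
  | nil =>
    intro _
    exact ⟨[], by simp, fun x => by simp⟩
  | cons s d ih =>
    intro h
    obtain ⟨g1, h1, h1'⟩ := h s (by simp)
    obtain ⟨g2, h2, h2'⟩ := ih fun s hs => h s (by simp [hs])
    refine ⟨g1 ++ g2, fun g hg => ?_, fun x => ?_⟩
    · rcases List.mem_append.1 hg with hg | hg
      · exact h1 g hg
      · exact h2 g hg
    · obtain ⟨a1, a2, a3⟩ := h1' x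
      obtain ⟨b1, b2, b3⟩ := h2' x
      rw [tr_cons]
      simp only [Matrix.mul_apply, Fin.sum_univ_two, List.map_append, List.prod_append]
      rw [a1, a2, a3, b1, b2, b3]
      refine ⟨by ring, by ring, by ring⟩

/-- the transfers of a formula: lower triangular with entries `1` and a product of gates -/
theorem Fm.net_tr {f : Fm F ι} {d : List (Step F ι 2)} (hd : AnnN f.net d) :
    ∃ gs : List (Fm F ι), (∀ g ∈ gs, g ∈ f.gates) ∧ ∀ x : ι → F,
      (tr d x) 0 0 = 1 ∧ (tr d x) 0 1 = 0 ∧ (tr d x) 1 1 = (gs.map fun g => g.eval x).prod := by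
  obtain ⟨c, q, hc, hdc⟩ := hd
  exact tr_of_stepOK f d fun s hs => stepOK_of_dec f hc s (hdc.subset hs)

/-- the radius for formulas -/
def RF (k : ℕ) : ℕ := RR 2 k

private theorem one_le_rank_of {A : Matrix (Fin 2) (Fin 2) F} (h : A 0 0 = 1) : 1 ≤ A.rank := by
  have e : (Matrix.of fun (_ : Fin 1) (j : Fin 2) => if j = 0 then (1 : F) else 0) *
      (A * (Matrix.of fun (j : Fin 2) (_ : Fin 1) => if j = 0 then (1 : F) else 0)) = 1 := by
    ext i j
    have hi : i = j := Subsingleton.elim _ _
    subst hi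
    simp [Matrix.mul_apply, h]
  have h1 : (1 : Matrix (Fin 1) (Fin 1) F).rank = 1 := by
    rw [Matrix.rank_one, Fintype.card_fin]
  rw [← h1, ← e]
  exact (Matrix.rank_mul_le_right _ _).trans (Matrix.rank_mul_le_left _ _)

private theorem rank_le_one_of {A : Matrix (Fin 2) (Fin 2) F} (h0 : A 0 1 = 0) (h : A 1 1 = 0) :
    A.rank ≤ 1 := by
  have e : A = Matrix.vecMulVec (fun i => A i 0) ![1, 0] := by
    ext i j
    fin_cases i <;> fin_cases j <;> simp [Matrix.vecMulVec_apply, h0, h]
  rw [e]
  exact Matrix.rank_vecMulVec_le _ _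

private theorem rank_eq_two_of {A : Matrix (Fin 2) (Fin 2) F} (h0 : A 0 0 = 1) (h1 : A 0 1 = 0)
    (h : A 1 1 ≠ 0) : A.rank = 2 := by
  have hd : A.det ≠ 0 := by
    rw [Matrix.det_fin_two, h0, h1]
    simpa using h
  rw [Matrix.rank_of_det_ne_zero hd, Fintype.card_fin]

/-- Theorem 1 for formulas: if no change of at most `RF k` coordinates makes a vanishing gate
non-vanishing then all vanishing gates vanish identically -/
theorem Fm.local_global [Infinite F] [Finite ι] [LinearOrder ι] (k : ℕ) (f : Fm F ι)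
    (hk : ∀ i, f.occ i ≤ k) (a : ι → F)
    (hopt : ∀ g ∈ f.gates, g.eval a = 0 → ∀ x : ι → F,
      (∃ S : Finset ι, S.card ≤ RF k ∧ ∀ i, i ∉ S → x i = a i) → g.eval x = 0) :
    ∀ g ∈ f.gates, g.eval a = 0 → ∀ x : ι → F, g.eval x = 0 := by
  intro g hg hga x
  have key := Pool.Agent.H2.RK.local_global (F := F) k g.net 1 (fun i => by
    rw [Fm.net_cnt]; exact (Fm.occ_gates hg i).trans (hk i)) a (fun x hx => ?_) x
  · have h := key.2
    rw [Fm.net_val, Fm.net_val] at h
    simpa using h (by simpa using hga)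
  · refine ⟨fun d hd => ?_, ?_⟩
    · obtain ⟨gs, hgs, htr⟩ := Fm.net_tr hd
      obtain ⟨a1, a2, a3⟩ := htr a
      obtain ⟨b1, b2, b3⟩ := htr x
      by_cases h0 : (gs.map fun g => g.eval a).prod = 0
      · have h1 : (gs.map fun g => g.eval x).prod = 0 := by
          rw [List.prod_eq_zero_iff] at h0 ⊢
          obtain ⟨e, he, he0⟩ := List.mem_map.1 h0
          exact List.mem_map.2 ⟨e, he, hopt e (Fm.gates_trans hg (hgs e he)) he0 x hx⟩
        exact (rank_le_one_of b2 (b3.trans h1)).trans (one_le_rank_of a1)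
      · rw [rank_eq_two_of a1 a2 (by rw [a3]; exact h0)]
        exact Matrix.rank_le_width _
    · rw [Fm.net_val, Fm.net_val]
      intro h
      have h' : g.eval a = 0 := by simpa using h
      simpa using hopt g hg h' x hx

end Pool.Agent.H2.RK
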