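import Pool.Agent.H2.RK.Basic

/-!
# Arithmetic formulas (module FmDef)
-/

namespace Pool.Agent.H2.RK

open Matrix

/-- arithmetic formulas over the field `F` with variables `ι` -/
inductive Fm (F : Type*) (ι : Type*)
  | con : F → Fm F ι
  | var : ι → Fm F ι
  | add : Fm F ι → Fm F ι → Fm F ι
  | mul : Fm F ι → Fm F ι → Fm F ι

variable {F : Type*} {ι : Type*} [Field F]

/-- value at a point -/
def Fm.eval : Fm F ι → (ι → F) → F
  | .con c, _ => c
  | .var i, x => x i
  | .add f g, x => f.eval x + g.eval x
  | .mul f g, x => f.eval x * g.eval x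

/-- the polynomial computed by a formula -/
noncomputable def Fm.poly : Fm F ι → MvPolynomial ι F
  | .con c => MvPolynomial.C c
  | .var i => MvPolynomial.X i
  | .add f g => f.poly + g.poly
  | .mul f g => f.poly * g.poly

/-- number of occurrences of a variable -/
def Fm.occ [DecidableEq ι] : Fm F ι → ι → ℕ
  | .con _, _ => 0
  | .var i, j => if i = j then 1 else 0
  | .add f g, j => f.occ j + g.occ j
  | .mul f g, j => f.occ j + g.occ j

/-- the list of all subformulas (gates and leaves), with multiplicity -/
def Fm.gates : Fm F ι → List (Fm F ι)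
  | .con c => [.con c]
  | .var i => [.var i]
  | .add f g => .add f g :: (f.gates ++ g.gates)
  | .mul f g => .mul f g :: (f.gates ++ g.gates)

/-- number of nodes of a formula -/
def Fm.size (f : Fm F ι) : ℕ := f.gates.length

open Classical in
/-- number of gates that do not vanish at a point -/
noncomputable def Fm.nz (f : Fm F ι) (x : ι → F) : ℕ :=
  (f.gates.filter fun g => g.eval x ≠ 0).length

theorem Fm.nz_le (f : Fm F ι) (x : ι → F) : f.nz x ≤ f.size := List.length_filter_le _ _

theorem Fm.eval_poly (f : Fm F ι) (x : ι → F) : MvPolynomial.eval x f.poly = f.eval x := by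
  induction f with
  | con c => simp [Fm.poly, Fm.eval]
  | var i => simp [Fm.poly, Fm.eval]
  | add f g hf hg => simp [Fm.poly, Fm.eval, hf, hg]
  | mul f g hf hg => simp [Fm.poly, Fm.eval, hf, hg]

theorem Fm.mem_gates_self (f : Fm F ι) : f ∈ f.gates := by
  cases f <;> simp [Fm.gates]

theorem Fm.gates_trans {f g h : Fm F ι} (hg : g ∈ f.gates) (hh : h ∈ g.gates) : h ∈ f.gates := by
  induction f with
  | con c =>
    simp only [Fm.gates, List.mem_singleton] at hg
    subst hg
    exact hh
  | var i =>
    simp only [Fm.gates, List.mem_singleton] at hg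
    subst hg
    exact hh
  | add f₁ f₂ h₁ h₂ =>
    simp only [Fm.gates, List.mem_cons, List.mem_append] at hg
    rcases hg with rfl | hg | hg
    · exact hh
    · simp only [Fm.gates, List.mem_cons, List.mem_append]
      exact Or.inr (Or.inl (h₁ hg))
    · simp only [Fm.gates, List.mem_cons, List.mem_append]
      exact Or.inr (Or.inr (h₂ hg))
  | mul f₁ f₂ h₁ h₂ =>
    simp only [Fm.gates, List.mem_cons, List.mem_append] at hg
    rcases hg with rfl | hg | hg
    · exact hh
    · simp only [Fm.gates, List.mem_cons, List.mem_append]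
      exact Or.inr (Or.inl (h₁ hg))
    · simp only [Fm.gates, List.mem_cons, List.mem_append]
      exact Or.inr (Or.inr (h₂ hg))

theorem Fm.occ_gates [DecidableEq ι] {f g : Fm F ι} (hg : g ∈ f.gates) (i : ι) :
    g.occ i ≤ f.occ i := by
  induction f with
  | con c =>
    simp only [Fm.gates, List.mem_singleton] at hg
    subst hg
    exact le_rfl
  | var j =>
    simp only [Fm.gates, List.mem_singleton] at hg
    subst hg
    exact le_rfl
  | add f₁ f₂ h₁ h₂ =>
    simp only [Fm.gates, List.mem_cons, List.mem_append] at hg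
    rcases hg with rfl | hg | hg
    · exact le_rfl
    · exact (h₁ hg).trans (Nat.le_add_right _ _)
    · exact (h₂ hg).trans (Nat.le_add_left _ _)
  | mul f₁ f₂ h₁ h₂ =>
    simp only [Fm.gates, List.mem_cons, List.mem_append] at hg
    rcases hg with rfl | hg | hg
    · exact le_rfl
    · exact (h₁ hg).trans (Nat.le_add_right _ _)
    · exact (h₂ hg).trans (Nat.le_add_left _ _)

/-- the bilinear map of a sum gate: `(1, a), (1, b) ↦ (1, a + b)` -/
def bAdd : Bil F 2 := fun p u v =>
  if p = 0 then (if u = 0 ∧ v = 0 then 1 else 0)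
  else (if (u = 1 ∧ v = 0) ∨ (u = 0 ∧ v = 1) then 1 else 0)

/-- the bilinear map of a product gate: `(1, a), (1, b) ↦ (1, a * b)` -/
def bMul : Bil F 2 := fun p u v =>
  if p = 0 then (if u = 0 ∧ v = 0 then 1 else 0)
  else (if u = 1 ∧ v = 1 then 1 else 0)

/-- a formula as a network of width 2 with value `(1, f)` -/
noncomputable def Fm.net : Fm F ι → Net F ι 2
  | .con c => .const ![1, c]
  | .var i => .leaf i ![1, Polynomial.X]
  | .add f g => .node bAdd f.net g.net
  | .mul f g => .node bMul f.net g.net

theorem Fm.net_val (f : Fm F ι) (x : ι → F) : f.net.val x = ![1, f.eval x] := by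
  induction f with
  | con c => rfl
  | var i =>
    funext p
    fin_cases p <;> simp [Fm.net, Net.val, Fm.eval]
  | add f g hf hg =>
    funext p
    fin_cases p
    · simp [Fm.net, Net.val, hf, hg, bAdd, Fin.sum_univ_two]
    · simp [Fm.net, Net.val, hf, hg, bAdd, Fin.sum_univ_two, Fm.eval, add_comm]
  | mul f g hf hg =>
    funext p
    fin_cases p
    · simp [Fm.net, Net.val, hf, hg, bMul, Fin.sum_univ_two]
    · simp [Fm.net, Net.val, hf, hg, bMul, Fin.sum_univ_two, Fm.eval]

theorem Fm.net_cnt [DecidableEq ι] (f : Fm F ι) (i : ι) : f.net.cnt i = f.occ i := by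
  induction f with
  | con c => rfl
  | var j => rfl
  | add f g hf hg => simp [Fm.net, Net.cnt, Fm.occ, hf, hg]
  | mul f g hf hg => simp [Fm.net, Net.cnt, Fm.occ, hf, hg]

end Pool.Agent.H2.RK
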