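import Pool.Agent.H2.RK.Fm
import Pool.Agent.H2.RK.GridDeg

/-!
# Formulas on grids (module FmGrid)
-/

namespace Pool.Agent.H2.RK

open Matrix

variable {F : Type*} {ι : Type*} [Field F]

theorem Fm.degreeOf_poly [DecidableEq ι] (f : Fm F ι) (i : ι) : f.poly.degreeOf i ≤ f.occ i := by
  induction f with
  | con c => simp [Fm.poly, Fm.occ]
  | var j =>
    simp only [Fm.poly, Fm.occ]
    by_cases h : j = i
    · subst h
      simp
    · rw [MvPolynomial.degreeOf_X_of_ne (fun h' => h h'.symm)]
      exact Nat.zero_le _
  | add f g hf hg =>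
    simp only [Fm.poly, Fm.occ]
    refine (MvPolynomial.degreeOf_add_le i f.poly g.poly).trans ?_
    omega
  | mul f g hf hg =>
    simp only [Fm.poly, Fm.occ]
    refine (MvPolynomial.degreeOf_mul_le i f.poly g.poly).trans ?_
    omega

/-- `a` is a grid point without improvement: no grid point that differs from `a` in at most `R`
coordinates has more non-vanishing gates -/
def LocOpt (f : Fm F ι) (R : ℕ) (T : Finset F) (a : ι → F) : Prop :=
  (∀ i, a i ∈ T) ∧ ∀ b : ι → F, (∀ i, b i ∈ T) → {i | b i ≠ a i}.ncard ≤ R → f.nz b ≤ f.nz a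

open Classical in
/-- the polynomial of a formula with the variables outside `S` fixed -/
private noncomputable def rp (S : Finset ι) (a : ι → F) : Fm F ι → MvPolynomial ι F
  | .con c => MvPolynomial.C c
  | .var i => if i ∈ S then MvPolynomial.X i else MvPolynomial.C (a i)
  | .add f g => rp S a f + rp S a g
  | .mul f g => rp S a f * rp S a g

private theorem rp_degreeOf [DecidableEq ι] (S : Finset ι) (a : ι → F) (f : Fm F ι) (i : ι) :
    (rp S a f).degreeOf i ≤ f.occ i := by
  induction f with
  | con c => simp [rp, Fm.occ]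
  | var j =>
    simp only [rp, Fm.occ]
    by_cases hj : j ∈ S
    · rw [if_pos hj]
      by_cases h : j = i
      · subst h
        simp
      · rw [MvPolynomial.degreeOf_X_of_ne (fun h' => h h'.symm)]
        exact Nat.zero_le _
    · rw [if_neg hj]
      simp
  | add f g hf hg =>
    simp only [rp, Fm.occ]
    refine (MvPolynomial.degreeOf_add_le i (rp S a f) (rp S a g)).trans ?_
    omega
  | mul f g hf hg =>
    simp only [rp, Fm.occ]
    refine (MvPolynomial.degreeOf_mul_le i (rp S a f) (rp S a g)).trans ?_
    omega

open Classical in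
private noncomputable def mix (S : Finset ι) (a x : ι → F) : ι → F :=
  fun i => if i ∈ S then x i else a i

private theorem mix_pos (S : Finset ι) (a x : ι → F) {i : ι} (h : i ∈ S) :
    mix S a x i = x i := if_pos h

private theorem mix_neg (S : Finset ι) (a x : ι → F) {i : ι} (h : i ∉ S) :
    mix S a x i = a i := if_neg h

private theorem rp_eval (S : Finset ι) (a : ι → F) (f : Fm F ι) (x : ι → F) :
    MvPolynomial.eval x (rp S a f) = f.eval (mix S a x) := by
  induction f with
  | con c => simp [rp, Fm.eval]
  | var j =>
    simp only [rp, Fm.eval]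
    by_cases hj : j ∈ S
    · simp [hj, mix_pos S a x hj]
    · simp [hj, mix_neg S a x hj]
  | add f g hf hg => simp [rp, Fm.eval, hf, hg]
  | mul f g hf hg => simp [rp, Fm.eval, hf, hg]

private theorem rank_one (M : Matrix (Fin 1) (Fin 1) F) : M.rank ≠ 0 ↔ M 0 0 ≠ 0 := by
  constructor
  · intro h h0
    apply h
    have : M = 0 := by
      ext i j
      rw [Subsingleton.elim i 0, Subsingleton.elim j 0, h0]
      rfl
    rw [this, Matrix.rank_zero]
  · intro h h0
    have hu : IsUnit M := by
      rw [Matrix.isUnit_iff_isUnit_det, Matrix.det_fin_one]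
      exact isUnit_iff_ne_zero.2 h
    have := Matrix.rank_of_isUnit M hu
    rw [h0, Fintype.card_fin] at this
    exact absurd this (by norm_num)

theorem Fm.grid_opt [Fintype ι] [LinearOrder ι] (R k : ℕ) (f : Fm F ι)
    (hk : ∀ i, f.occ i ≤ k) (T : Finset F) (hT : k * f.size < T.card) (a : ι → F)
    (hopt : LocOpt f R T a) :
    ∀ g ∈ f.gates, g.eval a = 0 → ∀ x : ι → F,
      (∃ S : Finset ι, S.card ≤ R ∧ ∀ i, i ∉ S → x i = a i) → g.eval x = 0 := by
  classical
  intro g hg hga x ⟨S, hS, hx⟩
  by_contra hgx
  obtain ⟨b, hbT, hb⟩ := exists_grid (ι := ι) (J := Fin f.gates.length) (m := fun _ => 1)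
    (fun j => Matrix.of fun _ _ => rp S a (f.gates.get j)) k
    (by
      intro j p q i
      show (rp S a (f.gates.get j)).degreeOf i ≤ k
      refine (rp_degreeOf S a _ i).trans ?_
      exact (Fm.occ_gates (List.get_mem _ _) i).trans (hk i))
    (fun j => if (f.gates.get j).eval a ≠ 0 then a else x) T
    (by simpa [Fm.size] using hT)
  -- the new point
  obtain ⟨b', hb'⟩ : ∃ b' : ι → F, b' = mix S a b := ⟨_, rfl⟩
  have key : ∀ j : Fin f.gates.length,
      ((f.gates.get j).eval a ≠ 0 ∨ (f.gates.get j).eval x ≠ 0) →
        (f.gates.get j).eval b' ≠ 0 := by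
    intro j hj
    have h1 := hb j
    have h2 : ((Matrix.of fun (_ : Fin 1) (_ : Fin 1) => rp S a (f.gates.get j)).map
        (MvPolynomial.eval (if (f.gates.get j).eval a ≠ 0 then a else x))).rank ≠ 0 := by
      rw [rank_one]
      show MvPolynomial.eval _ (rp S a (f.gates.get j)) ≠ 0
      rw [rp_eval]
      by_cases ha : (f.gates.get j).eval a ≠ 0
      · have ha' : mix S a a = a := by
          funext i
          by_cases hi : i ∈ S
          · rw [mix_pos S a a hi]
          · rw [mix_neg S a a hi]
        rw [if_pos ha, ha']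
        exact ha
      · have hx' : mix S a x = x := by
          funext i
          by_cases hi : i ∈ S
          · rw [mix_pos S a x hi]
          · rw [mix_neg S a x hi, hx i hi]
        rw [if_neg ha, hx']
        exact hj.resolve_left ha
    have h3 : ((Matrix.of fun (_ : Fin 1) (_ : Fin 1) => rp S a (f.gates.get j)).map
        (MvPolynomial.eval b)).rank ≠ 0 := by
      intro h0
      apply h2
      have h4 : ((Matrix.of fun (_ : Fin 1) (_ : Fin 1) => rp S a (f.gates.get j)).map
        (MvPolynomial.eval (if (f.gates.get j).eval a ≠ 0 then a else x))).rank ≤ 0 := by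
        rw [← h0]; exact h1
      omega
    rw [rank_one] at h3
    have h5 : MvPolynomial.eval b (rp S a (f.gates.get j)) ≠ 0 := h3
    rw [rp_eval, ← hb'] at h5
    exact h5
  have key2 : ∀ h ∈ f.gates, (h.eval a ≠ 0 ∨ h.eval x ≠ 0) → h.eval b' ≠ 0 := by
    intro h hh hc
    obtain ⟨j, rfl⟩ := List.get_of_mem hh
    exact key j hc
  have hgb : g.eval b' ≠ 0 := key2 g hg (Or.inr hgx)
  -- `b'` is better
  have hlt : f.nz a < f.nz b' := by
    unfold Fm.nz
    have gen : ∀ l : List (Fm F ι), (∀ h ∈ l, h.eval a ≠ 0 → h.eval b' ≠ 0) → g ∈ l →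
        (l.filter fun h => decide (h.eval a ≠ 0)).length
          < (l.filter fun h => decide (h.eval b' ≠ 0)).length := by
      intro l hl hgl
      have hsub : ∀ l : List (Fm F ι), (∀ h ∈ l, h.eval a ≠ 0 → h.eval b' ≠ 0) →
          (l.filter fun h => decide (h.eval a ≠ 0)).length
            ≤ (l.filter fun h => decide (h.eval b' ≠ 0)).length := by
        intro l
        induction l with
        | nil => intro _; simp
        | cons h l ih =>
          intro hl
          have ih' := ih (fun h' hh' => hl h' (by simp [hh']))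
          by_cases h1 : h.eval a ≠ 0
          · have h2 := hl h (by simp) h1
            rw [List.filter_cons_of_pos (by simpa using h1),
              List.filter_cons_of_pos (by simpa using h2)]
            simpa using ih'
          · rw [List.filter_cons_of_neg (by simpa using h1)]
            by_cases h2 : h.eval b' ≠ 0
            · rw [List.filter_cons_of_pos (by simpa using h2)]
              simp only [List.length_cons]
              omega
            · rw [List.filter_cons_of_neg (by simpa using h2)]
              exact ih'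
      obtain ⟨A, B, rfl⟩ := List.append_of_mem hgl
      rw [List.filter_append, List.filter_append, List.length_append, List.length_append,
        List.filter_cons_of_neg (by simpa using hga), List.filter_cons_of_pos (by simpa using hgb)]
      have hA := hsub A (fun h hh => hl h (by simp [hh]))
      have hB := hsub B (fun h hh => hl h (by simp [hh]))
      simp only [List.length_cons]
      omega
    exact gen f.gates (fun h hh hc => key2 h hh (Or.inl hc)) hg
  have hle : f.nz b' ≤ f.nz a := by
    apply hopt.2 b'
    · intro i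
      rw [hb']
      by_cases hi : i ∈ S
      · rw [mix_pos S a b hi]; exact hbT i
      · rw [mix_neg S a b hi]; exact hopt.1 i
    · refine le_trans ?_ hS
      rw [← Set.ncard_coe_finset S]
      apply Set.ncard_le_ncard _ (Finset.finite_toSet S)
      intro i hi
      by_contra hiS
      apply hi
      rw [hb']
      have : i ∉ S := by simpa using hiS
      exact mix_neg S a b this
  omega

/-- main theorem for formulas on grids -/
theorem Fm.main [Fintype ι] [LinearOrder ι] [Infinite F] (k : ℕ) (f : Fm F ι)
    (hk : ∀ i, f.occ i ≤ k) (T : Finset F) (hT : k * f.size < T.card) (a : ι → F)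
    (hopt : LocOpt f (RF k) T a) :
    ∀ g ∈ f.gates, g.eval a = 0 → ∀ x : ι → F, g.eval x = 0 :=
  Fm.local_global k f hk a (Fm.grid_opt (RF k) k f hk T hT a hopt)

/-- a chain of strict improvements is short -/
theorem Fm.chain_le (f : Fm F ι) (l : List (ι → F)) (hl : l.IsChain fun a b => f.nz a < f.nz b) :
    l.length ≤ f.size + 1 := by
  have gen : ∀ (l : List (ι → F)) (a : ι → F),
      (a :: l).IsChain (fun a b => f.nz a < f.nz b) → (a :: l).length + f.nz a ≤ f.size + 1 := by
    intro l
    induction l with
    | nil =>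
      intro a _
      have := Fm.nz_le f a
      simp only [List.length_cons, List.length_nil]
      omega
    | cons b l ih =>
      intro a h
      rw [List.isChain_cons_cons] at h
      have := ih b h.2
      have h1 := h.1
      simp only [List.length_cons] at this ⊢
      omega
  cases l with
  | nil => simp
  | cons a l =>
    have := gen l a hl
    omega

/-- there is a grid point without improvement, reachable from every grid point -/
theorem Fm.exists_locOpt (f : Fm F ι) (R : ℕ) (T : Finset F) (a₀ : ι → F)
    (h₀ : ∀ i, a₀ i ∈ T) : ∃ a, LocOpt f R T a ∧ f.nz a₀ ≤ f.nz a := by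
  have gen : ∀ (n : ℕ) (a : ι → F), (∀ i, a i ∈ T) → f.size - f.nz a ≤ n →
      ∃ c, LocOpt f R T c ∧ f.nz a ≤ f.nz c := by
    intro n
    induction n with
    | zero =>
      intro a ha hn
      refine ⟨a, ⟨ha, fun b _ _ => ?_⟩, le_refl _⟩
      have h1 := Fm.nz_le f b
      omega
    | succ n ih =>
      intro a ha hn
      by_cases h : LocOpt f R T a
      · exact ⟨a, h, le_refl _⟩
      · have h' : ∃ b : ι → F, (∀ i, b i ∈ T) ∧ f.nz a < f.nz b := by
          by_contra hcon
          apply h
          refine ⟨ha, fun b hb _ => ?_⟩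
          by_contra hlt
          exact hcon ⟨b, hb, not_le.1 hlt⟩
        obtain ⟨b, hb, hab⟩ := h'
        have h1 := Fm.nz_le f b
        obtain ⟨c, hc, hbc⟩ := ih b hb (by omega)
        exact ⟨c, hc, by omega⟩
  exact gen _ a₀ h₀ (le_refl _)

/-- identity testing by local search -/
theorem Fm.identity [Fintype ι] [LinearOrder ι] [Infinite F] (k : ℕ) (f : Fm F ι)
    (hk : ∀ i, f.occ i ≤ k) (T : Finset F) (hT : k * f.size < T.card) :
    (∀ a, LocOpt f (RF k) T a → (f.eval a = 0 ↔ f.poly = 0)) ∧
    (f.poly = 0 ↔ ∃ a, LocOpt f (RF k) T a ∧ f.eval a = 0) := by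
  have h1 : ∀ a, LocOpt f (RF k) T a → (f.eval a = 0 ↔ f.poly = 0) := by
    intro a ha
    constructor
    · intro h0
      have h2 := Fm.main k f hk T hT a ha f (Fm.mem_gates_self f) h0
      apply MvPolynomial.funext
      intro x
      rw [Fm.eval_poly, h2 x, map_zero]
    · intro h0
      rw [← Fm.eval_poly, h0, map_zero]
  refine ⟨h1, ?_, ?_⟩
  · intro h0
    have hpos : 0 < T.card := lt_of_le_of_lt (Nat.zero_le _) hT
    obtain ⟨t, ht⟩ := Finset.card_pos.1 hpos
    obtain ⟨a, ha, _⟩ := Fm.exists_locOpt f (RF k) T (fun _ => t) (fun _ => ht)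
    exact ⟨a, ha, (h1 a ha).2 h0⟩
  · rintro ⟨a, ha, h0⟩
    exact (h1 a ha).1 h0

end Pool.Agent.H2.RK
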