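import Mathlib

/-!
# Rank factorisation (module RankFac)
-/

namespace Pool.Agent.H2.RK

open Matrix

variable {F : Type*} [Field F]

/-- rank factorisation (e.g. from `Matrix.exists_rank_normal_form` or from a basis of the range) -/
theorem exists_rank_factor {n : ℕ} (A : Matrix (Fin n) (Fin n) F) (r : ℕ) (h : A.rank = r) :
    ∃ (P : Matrix (Fin n) (Fin r) F) (Q : Matrix (Fin r) (Fin n) F), A = P * Q := by
  have hfr : Module.finrank F (LinearMap.range A.mulVecLin) = r := h
  let b := Module.finBasisOfFinrankEq F (LinearMap.range A.mulVecLin) hfr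
  let v : Fin n → LinearMap.range A.mulVecLin := fun k => ⟨A.mulVecLin (Pi.single k 1), ⟨_, rfl⟩⟩
  refine ⟨Matrix.of fun i j => (b j : Fin n → F) i, Matrix.of fun j k => b.repr (v k) j, ?_⟩
  ext i k
  rw [Matrix.mul_apply]
  have h1 : (v k : Fin n → F) i = A i k := by
    simp [v]
  rw [← h1]
  conv_lhs => rw [← b.sum_repr (v k)]
  simp only [Submodule.coe_sum, Submodule.coe_smul, Finset.sum_apply, Pi.smul_apply, smul_eq_mul,
    Matrix.of_apply]
  exact Finset.sum_congr rfl (fun j _ => mul_comm _ _)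

/-- if `P * (∏ M) * Q` has rank at least `r` and all factors are `r × r` then they are units -/
theorem isUnit_of_rank {n r : ℕ} (P : Matrix (Fin n) (Fin r) F) (Q : Matrix (Fin r) (Fin n) F)
    (Ms : List (Matrix (Fin r) (Fin r) F)) (h : r ≤ (P * Ms.prod * Q).rank) :
    ∀ M ∈ Ms, IsUnit M := by
  intro M hM
  obtain ⟨s, t, rfl⟩ := List.append_of_mem hM
  have h1 : (P * (s ++ M :: t).prod * Q).rank ≤ M.rank := by
    rw [List.prod_append, List.prod_cons]
    calc (P * (s.prod * (M * t.prod)) * Q).rank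
        ≤ (P * (s.prod * (M * t.prod))).rank := Matrix.rank_mul_le_left _ _
      _ ≤ (s.prod * (M * t.prod)).rank := Matrix.rank_mul_le_right _ _
      _ ≤ (M * t.prod).rank := Matrix.rank_mul_le_right _ _
      _ ≤ M.rank := Matrix.rank_mul_le_left _ _
  have h2 : r ≤ M.rank := h.trans h1
  rw [← Matrix.mulVec_surjective_iff_isUnit]
  have h3 : LinearMap.range M.mulVecLin = ⊤ := by
    apply Submodule.eq_top_of_finrank_eq
    refine le_antisymm (Submodule.finrank_le _) ?_
    rw [Module.finrank_fin_fun]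
    exact h2
  intro y
  obtain ⟨x, hx⟩ := LinearMap.range_eq_top.1 h3 y
  exact ⟨x, hx⟩

/-- an entry of `P * M * Q` as a trace -/
theorem entry_eq_trace {n r : ℕ} (P : Matrix (Fin n) (Fin r) F) (Q : Matrix (Fin r) (Fin n) F)
    (M : Matrix (Fin r) (Fin r) F) (p q : Fin n) :
    (P * M * Q) p q = ((Matrix.of fun i j => Q i q * P p j) * M).trace := by
  rw [Matrix.mul_apply, Matrix.trace]
  refine Finset.sum_congr rfl (fun i _ => ?_)
  rw [Matrix.diag_apply, Matrix.mul_apply, Matrix.mul_apply, Finset.sum_mul]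
  refine Finset.sum_congr rfl (fun j _ => ?_)
  rw [Matrix.of_apply]
  ring

end Pool.Agent.H2.RK
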