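import Pool.Agent.H2.RK.Defs

/-!
# Structured functions: products (module StrB), Kronecker products
-/

namespace Pool.Agent.H2.RK

open Matrix

variable {F : Type*} {ι : Type*} [Field F]

private theorem strB_prod {κ κ' : Type} [Fintype κ] [DecidableEq κ] [Fintype κ']
    [DecidableEq κ'] (A : ι → Matrix κ κ F) (B : ι → Matrix κ' κ' F) (L : List ι) :
    (L.map fun i => kroneckerMap (fun a b => a * b) (A i) (B i)).prod =
      kroneckerMap (fun a b => a * b) (L.map A).prod (L.map B).prod := by
  induction L with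
  | nil =>
    simp only [List.map_nil, List.prod_nil]
    exact (Matrix.one_kronecker_one).symm
  | cons a L ih =>
    simp only [List.map_cons, List.prod_cons]
    rw [ih]
    exact (Matrix.mul_kronecker_mul _ _ _ _).symm

private theorem strB_unit {κ κ' : Type} [Fintype κ] [DecidableEq κ] [Fintype κ']
    [DecidableEq κ'] {A : Matrix κ κ F} {B : Matrix κ' κ' F} (hA : IsUnit A) (hB : IsUnit B) :
    IsUnit (kroneckerMap (fun a b => a * b) A B) := by
  obtain ⟨a, rfl⟩ := hA
  obtain ⟨b, rfl⟩ := hB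
  refine ⟨⟨_, kroneckerMap (fun a b => a * b) (↑a⁻¹ : Matrix κ κ F) (↑b⁻¹ : Matrix κ' κ' F),
    ?_, ?_⟩, rfl⟩
  · refine (Matrix.mul_kronecker_mul _ _ _ _).symm.trans ?_
    rw [Units.mul_inv, Units.mul_inv]
    exact Matrix.one_kronecker_one
  · refine (Matrix.mul_kronecker_mul _ _ _ _).symm.trans ?_
    rw [Units.inv_mul, Units.inv_mul]
    exact Matrix.one_kronecker_one

/-- products (Kronecker products; `Matrix.mul_kronecker_mul`, `Matrix.trace_kronecker`) -/
theorem StrL.mul {D D' : ℕ} {L : List ι} {b : ι → F} {f g : (ι → F) → F}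
    (hf : StrL D L b f) (hg : StrL D' L b g) : StrL (D * D') L b fun x => f x * g x := by
  obtain ⟨κ, i1, i2, E, C, hc, hu, h⟩ := hf
  obtain ⟨κ', j1, j2, E', C', hc', hu', h'⟩ := hg
  refine ⟨κ × κ', inferInstance, inferInstance,
    fun i x => kroneckerMap (fun a b => a * b) (E i x) (E' i x),
    kroneckerMap (fun a b => a * b) C C', ?_, ?_, ?_⟩
  · rw [Fintype.card_prod]
    exact Nat.mul_le_mul hc hc'
  · intro i hi
    exact strB_unit (hu i hi) (hu' i hi)
  · intro x hx
    beta_reduce
    rw [h x hx, h' x hx, strB_prod (fun i => E i (x i)) (fun i => E' i (x i)) L]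
    refine (Matrix.trace_kronecker _ _).symm.trans ?_
    congr 1
    exact Matrix.mul_kronecker_mul _ _ _ _

/-- scalar multiples -/
theorem StrL.smul {D : ℕ} {L : List ι} {b : ι → F} {f : (ι → F) → F}
    (hf : StrL D L b f) (c : F) : StrL D L b fun x => c * f x := by
  obtain ⟨κ, i1, i2, E, C, hc, hu, h⟩ := hf
  refine ⟨κ, i1, i2, E, c • C, hc, hu, ?_⟩
  intro x hx
  beta_reduce
  rw [h x hx, Matrix.smul_mul, Matrix.trace_smul, smul_eq_mul]

end Pool.Agent.H2.RK
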