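import Pool.Agent.H2.RK.Defs

/-!
# Structured functions: sublists and reversal (module StrC)
-/

namespace Pool.Agent.H2.RK

open Matrix

variable {F : Type*} {ι : Type*} [Field F]

/-- along the reversed list (transposed matrices; `Matrix.transpose_list_prod`,
`Matrix.trace_transpose`) -/
theorem StrL.reverse {D : ℕ} {L : List ι} {b : ι → F} {f : (ι → F) → F}
    (hf : StrL D L b f) : StrL D L.reverse b f := by
  obtain ⟨κ, i1, i2, E, C, h1, h2, h3⟩ := hf
  refine ⟨κ, i1, i2, fun i t => (E i t)ᵀ, Cᵀ, h1, ?_, ?_⟩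
  · intro i hi
    exact (Matrix.isUnit_transpose _).2 (h2 i (List.mem_reverse.1 hi))
  · intro x hx
    rw [h3 x (fun i hi => hx i (fun h => hi (List.mem_reverse.1 h))),
      ← Matrix.trace_transpose, Matrix.transpose_mul, Matrix.trace_mul_comm,
      Matrix.transpose_list_prod, List.map_map, List.map_reverse]
    rfl

private theorem sublist_aux {κ : Type} [Fintype κ] [DecidableEq κ] {b : ι → F}
    (E : ι → F → Matrix κ κ F) {L L' : List ι} (h : List.Sublist L' L) (hL : L.Nodup)
    (hE : ∀ i ∈ L, IsUnit (E i (b i))) :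
    ∃ (E' : ι → F → Matrix κ κ F) (u : Matrix κ κ F), (∀ i ∈ L', IsUnit (E' i (b i))) ∧
      ∀ x : ι → F, (∀ i ∈ L, i ∉ L' → x i = b i) →
        (L.map fun i => E i (x i)).prod = u * (L'.map fun i => E' i (x i)).prod ∧ IsUnit u := by
  classical
  induction h with
  | slnil => exact ⟨E, 1, fun i hi => by simp at hi, fun x _ => ⟨by simp, isUnit_one⟩⟩
  | @cons l₁ l₂ a h ih =>
    rw [List.nodup_cons] at hL
    obtain ⟨E', u, h1, h2⟩ := ih hL.2 (fun i hi => hE i (List.mem_cons_of_mem _ hi))
    refine ⟨E', E a (b a) * u, h1, fun x hx => ?_⟩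
    have h3 := h2 x (fun i hi hi' => hx i (List.mem_cons_of_mem _ hi) hi')
    have h4 : x a = b a := hx a List.mem_cons_self (fun h' => hL.1 (h.subset h'))
    refine ⟨?_, (hE a List.mem_cons_self).mul h3.2⟩
    rw [List.map_cons, List.prod_cons, h3.1, h4, mul_assoc]
  | @cons_cons l₁ l₂ a h ih =>
    rw [List.nodup_cons] at hL
    obtain ⟨E', u, h1, h2⟩ := ih hL.2 (fun i hi => hE i (List.mem_cons_of_mem _ hi))
    have hu : IsUnit u := (h2 b (fun _ _ _ => rfl)).2
    have hne : ∀ i ∈ l₁, i ≠ a := fun i hi h' => hL.1 (h' ▸ h.subset hi)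
    refine ⟨Function.update E' a (fun t => E a t * u), 1, ?_, fun x hx => ⟨?_, isUnit_one⟩⟩
    · intro i hi
      rcases List.mem_cons.1 hi with rfl | hi
      · rw [Function.update_self]
        exact (hE i List.mem_cons_self).mul hu
      · rw [Function.update_of_ne (hne i hi)]
        exact h1 i hi
    · have h3 := h2 x (fun i hi hi' => hx i (List.mem_cons_of_mem _ hi) (fun h' => by
        rcases List.mem_cons.1 h' with rfl | h'
        · exact hL.1 hi
        · exact hi' h'))
      have h4 : (l₁.map fun i => (Function.update E' a (fun t => E a t * u)) i (x i)) =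
          l₁.map fun i => E' i (x i) := by
        apply List.map_congr_left
        intro i hi
        rw [Function.update_of_ne (hne i hi)]
      rw [List.map_cons, List.map_cons, List.prod_cons, List.prod_cons, h3.1, h4,
        Function.update_self, one_mul, mul_assoc]

/-- along a sublist: the matrices `E i (b i)` of the removed letters are units, absorb them into
the neighbours.  (Prove first, by induction on the sublist relation, that there are `E'` and a unit
`u` with `(L.map fun i => E i (x i)).prod = u * (L'.map fun i => E' i (x i)).prod` for all `x` with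
`x = b` off `L'`.) -/
theorem StrL.sublist {D : ℕ} {L L' : List ι} (hL : L.Nodup) (h : List.Sublist L' L) {b : ι → F}
    {f : (ι → F) → F} (hf : StrL D L b f) : StrL D L' b f := by
  obtain ⟨κ, i1, i2, E, C, h1, h2, h3⟩ := hf
  obtain ⟨E', u, h4, h5⟩ := sublist_aux E h hL h2
  refine ⟨κ, i1, i2, E', C * u, h1, h4, fun x hx => ?_⟩
  rw [h3 x (fun i hi => hx i (fun h' => hi (h.subset h'))), (h5 x (fun i _ hi => hx i hi)).1,
    mul_assoc]

/-- along a subset -/
theorem Str.subset [LinearOrder ι] {D : ℕ} {U U' : Finset ι} (h : U' ⊆ U) {b : ι → F}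
    {f : (ι → F) → F} (hf : Str D U b f) : Str D U' b f := by
  refine StrL.sublist (Finset.sort_nodup _ _) ?_ hf
  refine List.sublist_of_subperm_of_pairwise (r := (· ≤ ·)) ?_ (Finset.pairwise_sort _ _)
    (Finset.pairwise_sort _ _)
  refine List.subperm_of_subset (Finset.sort_nodup _ _) ?_
  intro i hi
  rw [Finset.mem_sort] at hi ⊢
  exact h hi

/-- from an increasing list to a set -/
theorem Str.of_sorted_lt [LinearOrder ι] {D : ℕ} {L : List ι} (h : L.Pairwise (· < ·)) {b : ι → F}
    {f : (ι → F) → F} (hf : StrL D L b f) : Str D L.toFinset b f := by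
  have h1 : L.Nodup := h.imp fun hab => ne_of_lt hab
  have h2 : L.Pairwise (· ≤ ·) := h.imp fun hab => le_of_lt hab
  have h3 : L.toFinset.sort (· ≤ ·) = L := (List.toFinset_sort (· ≤ ·) h1).2 h2
  unfold Str
  rw [h3]
  exact hf

/-- from a decreasing list to a set -/
theorem Str.of_sorted_gt [LinearOrder ι] {D : ℕ} {L : List ι} (h : L.Pairwise (· > ·)) {b : ι → F}
    {f : (ι → F) → F} (hf : StrL D L b f) : Str D L.toFinset b f := by
  have h1 := Str.of_sorted_lt (List.pairwise_reverse.2 h) hf.reverse
  rwa [List.toFinset_reverse] at h1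

end Pool.Agent.H2.RK
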