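import Pool.Agent.H2.RK.StrA
import Pool.Agent.H2.RK.StrB
import Pool.Agent.H2.RK.StrC

/-!
# Structured functions: finite sums, determinants (module StrD)
-/

namespace Pool.Agent.H2.RK

open Matrix

variable {F : Type*} {ι : Type*} [Field F]

/-- finite sums of functions in `Str D` (also for the empty sum) -/
theorem StrL.sum {α : Type*} (s : Finset α) {D : ℕ} {L : List ι} {b : ι → F}
    {f : α → (ι → F) → F} (hf : ∀ i ∈ s, StrL D L b (f i)) :
    StrL (s.card * D) L b fun x => ∑ i ∈ s, f i x := by
  classical
  induction s using Finset.induction_on with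
  | empty =>
    refine ⟨Empty, inferInstance, inferInstance, fun _ _ => 1, 1, by simp, fun i _ => isUnit_one,
      fun x _ => ?_⟩
    simp [Matrix.trace]
  | insert a s ha ih =>
    have h1 := StrL.add (hf a (Finset.mem_insert_self a s))
      (ih fun i hi => hf i (Finset.mem_insert_of_mem hi))
    refine StrL.congr (StrL.mono (le_of_eq ?_) h1) fun x _ => ?_
    · rw [Finset.card_insert_of_notMem ha]
      ring
    · exact Finset.sum_insert ha

/-- finite products -/
theorem StrL.prod {α : Type*} (s : Finset α) {D : ℕ} {L : List ι} {b : ι → F}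
    {f : α → (ι → F) → F} (hf : ∀ i ∈ s, StrL D L b (f i)) :
    StrL (D ^ s.card) L b fun x => ∏ i ∈ s, f i x := by
  classical
  induction s using Finset.induction_on with
  | empty =>
    refine StrL.congr (StrL.mono (by simp) (StrL.const L b 1)) fun x _ => ?_
    simp
  | insert a s ha ih =>
    have h1 := StrL.mul (hf a (Finset.mem_insert_self a s))
      (ih fun i hi => hf i (Finset.mem_insert_of_mem hi))
    refine StrL.congr (StrL.mono (le_of_eq ?_) h1) fun x _ => ?_
    · rw [Finset.card_insert_of_notMem ha]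
      ring
    · exact Finset.prod_insert ha

/-- determinants -/
theorem StrL.det {r D : ℕ} {L : List ι} {b : ι → F} {G : Fin r → Fin r → (ι → F) → F}
    (hG : ∀ i j, StrL D L b (G i j)) :
    StrL (r.factorial * D ^ r) L b fun x => (Matrix.of fun i j => G i j x).det := by
  classical
  have h1 : ∀ σ ∈ (Finset.univ : Finset (Equiv.Perm (Fin r))),
      StrL (D ^ r) L b fun x => ((Equiv.Perm.sign σ : ℤ) : F) * ∏ i, G (σ i) i x := by
    intro σ _
    refine StrL.smul ?_ _
    have h2 := StrL.prod (Finset.univ : Finset (Fin r)) (L := L) (b := b)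
      (f := fun i => G (σ i) i) (fun i _ => hG (σ i) i)
    rwa [Finset.card_univ, Fintype.card_fin] at h2
  have h3 := StrL.sum _ h1
  rw [Finset.card_univ, Fintype.card_perm, Fintype.card_fin] at h3
  refine StrL.congr h3 fun x _ => ?_
  rw [Matrix.det_apply']
  rfl

section Set

variable [LinearOrder ι]

theorem Str.mono {D D' : ℕ} (h : D ≤ D') {U : Finset ι} {b : ι → F} {f : (ι → F) → F}
    (hf : Str D U b f) : Str D' U b f := StrL.mono h hf

theorem Str.congr {D : ℕ} {U : Finset ι} {b : ι → F} {f g : (ι → F) → F}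
    (hf : Str D U b f) (h : ∀ x : ι → F, (∀ i, i ∉ U → x i = b i) → g x = f x) :
    Str D U b g :=
  StrL.congr hf fun x hx => h x fun i hi => hx i (by simpa using hi)

theorem Str.const (U : Finset ι) (b : ι → F) (c : F) : Str 1 U b fun _ => c := StrL.const _ _ _

theorem Str.mul {D D' : ℕ} {U : Finset ι} {b : ι → F} {f g : (ι → F) → F}
    (hf : Str D U b f) (hg : Str D' U b g) : Str (D * D') U b fun x => f x * g x :=
  StrL.mul hf hg

theorem Str.smul {D : ℕ} {U : Finset ι} {b : ι → F} {f : (ι → F) → F}
    (hf : Str D U b f) (c : F) : Str D U b fun x => c * f x := StrL.smul hf c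

theorem Str.sum {α : Type*} (s : Finset α) {D : ℕ} {U : Finset ι} {b : ι → F}
    {f : α → (ι → F) → F} (hf : ∀ i ∈ s, Str D U b (f i)) :
    Str (s.card * D) U b fun x => ∑ i ∈ s, f i x := StrL.sum s hf

theorem Str.det {r D : ℕ} {U : Finset ι} {b : ι → F} {G : Fin r → Fin r → (ι → F) → F}
    (hG : ∀ i j, Str D U b (G i j)) :
    Str (r.factorial * D ^ r) U b fun x => (Matrix.of fun i j => G i j x).det := StrL.det hG

end Set

end Pool.Agent.H2.RK
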