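import Pool.Agent.H2.RK.Basic
import Pool.Agent.H2.RK.StrD
import Pool.Agent.H2.RK.RankFac

/-!
# Glued contexts are structured (module GlueS)

`C₀` and items `(Gⱼ, iⱼ, Cⱼ)`: the contexts `Cⱼ` have rank `ρ` at `b`, the whole product has rank
`ρ` at `b`, the letter `iⱼ` occurs only in `Gⱼ`.  Then all entries are structured along the list of
the letters.  Proof: `Cⱼ(b) = Pⱼ Qⱼ` (`exists_rank_factor`),
`C₀ G₁(x) C₁ ⋯ = P₀ [∏ Q_{j-1} Gⱼ(x_{iⱼ}) Pⱼ] Q_m`; at `x = b` the rank is `ρ`, so all factors are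
units (`isUnit_of_rank`); `entry_eq_trace`.
-/

namespace Pool.Agent.H2.RK

open Matrix

variable {F : Type*} {ι : Type*} [Field F] {W : ℕ}

/-- the context `C₀ ++ G₁ ++ C₁ ++ ⋯` ; an item is `(G, i, C)` -/
def glue (C₀ : List (Step F ι W)) (gs : List (List (Step F ι W) × ι × List (Step F ι W))) :
    List (Step F ι W) := C₀ ++ gs.flatMap fun g => g.1 ++ g.2.2

/-- a context without letters of `L` is constant on the points that agree with `b` off `L` -/
private theorem tr_const [DecidableEq ι] {c : List (Step F ι W)} {L : List ι} {b x : ι → F}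
    (hc : ∀ i ∈ L, cntC c i = 0) (hx : ∀ i, i ∉ L → x i = b i) : tr c x = tr c b := by
  refine tr_congr c fun i hi => hx i fun hL => ?_
  rw [hc i hL] at hi
  exact lt_irrefl _ hi

private theorem glue_aux [DecidableEq ι] (ρ : ℕ) (b : ι → F) (L : List ι) :
    ∀ (gs : List (List (Step F ι W) × ι × List (Step F ι W)))
      (_ : (gs.map fun g => g.2.1).Nodup)
      (_ : ∀ g ∈ gs, ∀ i ∈ L, cntC g.2.2 i = 0)
      (_ : ∀ g ∈ gs, ∀ i ∈ L, i ≠ g.2.1 → cntC g.1 i = 0)
      (_ : ∀ g ∈ gs, (tr g.2.2 b).rank = ρ)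
      (Q₀ : Matrix (Fin ρ) (Fin W) F),
      ∃ (E : ι → F → Matrix (Fin ρ) (Fin ρ) F) (Q : Matrix (Fin ρ) (Fin W) F),
        ∀ x : ι → F, (∀ i, i ∉ L → x i = b i) →
          Q₀ * tr (gs.flatMap fun g => g.1 ++ g.2.2) x =
            ((gs.map fun g => g.2.1).map fun i => E i (x i)).prod * Q := by
  intro gs
  induction gs with
  | nil =>
    intro _ _ _ _ Q₀
    exact ⟨fun _ _ => 0, Q₀, fun x _ => by simp⟩
  | cons g gs ih =>
    intro hnd hC hG hr Q₀
    obtain ⟨P, Q₁, hPQ⟩ := exists_rank_factor (tr g.2.2 b) ρ (hr g List.mem_cons_self)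
    rw [List.map_cons, List.nodup_cons] at hnd
    obtain ⟨E', Q, hE⟩ := ih hnd.2 (fun h hh => hC h (List.mem_cons_of_mem _ hh))
      (fun h hh => hG h (List.mem_cons_of_mem _ hh))
      (fun h hh => hr h (List.mem_cons_of_mem _ hh)) Q₁
    refine ⟨fun i v => if i = g.2.1 then Q₀ * tr g.1 (Function.update b g.2.1 v) * P else E' i v,
      Q, fun x hx => ?_⟩
    have h1 : tr g.2.2 x = P * Q₁ := by
      rw [tr_const (hC g List.mem_cons_self) hx, hPQ]
    have h2 : tr g.1 x = tr g.1 (Function.update b g.2.1 (x g.2.1)) := by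
      refine tr_congr g.1 fun i hi => ?_
      by_cases h : i = g.2.1
      · subst h
        simp
      · rw [Function.update_of_ne h]
        refine hx i fun hL => ?_
        rw [hG g List.mem_cons_self i hL h] at hi
        exact lt_irrefl _ hi
    have h3 := hE x hx
    have h4 : ((gs.map fun g => g.2.1).map fun i =>
        (if i = g.2.1 then Q₀ * tr g.1 (Function.update b g.2.1 (x i)) * P else E' i (x i))) =
        ((gs.map fun g => g.2.1).map fun i => E' i (x i)) := by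
      refine List.map_congr_left fun i hi => ?_
      rw [if_neg]
      rintro rfl
      exact hnd.1 hi
    rw [List.flatMap_cons, tr_append, tr_append, h1, List.map_cons, List.map_cons,
      List.prod_cons]
    dsimp only
    rw [if_pos rfl, h4]
    calc Q₀ * (tr g.1 x * (P * Q₁) * tr (gs.flatMap fun g => g.1 ++ g.2.2) x)
        = Q₀ * tr g.1 x * P * (Q₁ * tr (gs.flatMap fun g => g.1 ++ g.2.2) x) := by
          simp only [Matrix.mul_assoc]
      _ = _ := by
          rw [h3, ← h2]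
          simp only [Matrix.mul_assoc]

theorem glue_struct [DecidableEq ι] (ρ : ℕ) (hρ : ρ ≤ W) (C₀ : List (Step F ι W))
    (gs : List (List (Step F ι W) × ι × List (Step F ι W)))
    (hnd : (gs.map fun g => g.2.1).Nodup)
    (hC₀ : ∀ i ∈ gs.map fun g => g.2.1, cntC C₀ i = 0)
    (hC : ∀ g ∈ gs, ∀ i ∈ gs.map fun g => g.2.1, cntC g.2.2 i = 0)
    (hG : ∀ g ∈ gs, ∀ i ∈ gs.map fun g => g.2.1, i ≠ g.2.1 → cntC g.1 i = 0)
    (b : ι → F) (hr₀ : (tr C₀ b).rank = ρ) (hr : ∀ g ∈ gs, (tr g.2.2 b).rank = ρ)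
    (htot : (tr (glue C₀ gs) b).rank = ρ) (p q : Fin W) :
    StrL W (gs.map fun g => g.2.1) b fun x => tr (glue C₀ gs) x p q := by
  obtain ⟨P₀, Q₀, hPQ⟩ := exists_rank_factor (tr C₀ b) ρ hr₀
  obtain ⟨E, Q, hE⟩ := glue_aux ρ b (gs.map fun g => g.2.1) gs hnd hC hG hr Q₀
  have key : ∀ x : ι → F, (∀ i, i ∉ (gs.map fun g => g.2.1) → x i = b i) →
      tr (glue C₀ gs) x =
        P₀ * ((gs.map fun g => g.2.1).map fun i => E i (x i)).prod * Q := by
    intro x hx
    unfold glue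
    rw [tr_append, tr_const hC₀ hx, hPQ, Matrix.mul_assoc, hE x hx, Matrix.mul_assoc]
  have hu := isUnit_of_rank P₀ Q ((gs.map fun g => g.2.1).map fun i => E i (b i))
    (by rw [← key b fun _ _ => rfl, htot])
  refine ⟨Fin ρ, inferInstance, inferInstance, E, Matrix.of fun i j => Q i q * P₀ p j,
    by simpa using hρ, fun i hi => hu _ (List.mem_map.2 ⟨i, hi, rfl⟩), fun x hx => ?_⟩
  change tr (glue C₀ gs) x p q = _
  rw [key x hx, entry_eq_trace]

end Pool.Agent.H2.RK
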