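import Pool.Agent.H2.RK.Poly
import Pool.Agent.H2.RK.AnnL
import Pool.Agent.H2.RK.StrD
import Pool.Agent.H2.RK.Dim

/-!
# The core of the minimal jump argument (module JumpCore)

`exists_good` with `ds = annL t`, then `Str.zero`.
-/

namespace Pool.Agent.H2.RK

open Matrix

variable {F : Type*} {ι : Type*} [Field F] {W : ℕ} [LinearOrder ι]

/-- the core: a polynomial `f` that is structured wherever the annulus ranks are those of `a`,
vanishes at all points that differ from `a` in a proper subset of `V` and does not vanish at some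
point that differs from `a` in `V` only; no annulus rank exceeds its value at `a` on proper subsets
of `V`.  Then `V` is small. -/
theorem jump_core [Infinite F] (t : Net F ι W) (a : ι → F) (V : Finset ι) (f : MvPolynomial ι F)
    (D : ℕ) (U : Finset ι) (hU : U ⊆ V) (hcard : D ^ 2 + 1 ≤ U.card)
    (hstr : ∀ b, REqN t a b → Str D U b fun x => MvPolynomial.eval x f)
    (h0 : ∀ x : ι → F, (∃ V' : Finset ι, V' ⊂ V ∧ ∀ i, i ∉ V' → x i = a i) →
      MvPolynomial.eval x f = 0)
    (hrk : ∀ x : ι → F, (∃ V' : Finset ι, V' ⊂ V ∧ ∀ i, i ∉ V' → x i = a i) →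
      ∀ d, AnnN t d → (tr d x).rank ≤ (tr d a).rank)
    (x₀ : ι → F) (hx₀ : ∀ i, i ∉ V → x₀ i = a i) : MvPolynomial.eval x₀ f = 0 := by
  by_contra hne
  obtain ⟨y, hya, hyf, hyr⟩ := exists_good V U hU a (annL t) f x₀ hx₀ hne
  have hUne : U.Nonempty := by
    rw [← Finset.card_pos]
    exact lt_of_lt_of_le (Nat.succ_pos _) hcard
  obtain ⟨u, hu⟩ := hUne
  have hsub : V \ U ⊂ V := by
    refine Finset.ssubset_iff_subset_ne.2 ⟨Finset.sdiff_subset, ?_⟩
    intro h
    have h1 : u ∈ V \ U := by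
      rw [h]
      exact hU hu
    exact (Finset.mem_sdiff.1 h1).2 hu
  have hR : REqN t a (fun i => if i ∈ V \ U then y i else a i) := by
    intro d hd
    exact le_antisymm (hrk _ ⟨V \ U, hsub, fun i hi => if_neg hi⟩ d hd) (hyr d (mem_annL.2 hd))
  have hS := hstr _ hR
  refine hyf (hS.zero (Nat.le_of_succ_le hcard) ?_ y ?_)
  · intro x hx hxi
    obtain ⟨i, hi, hxi⟩ := hxi
    have hiU : i ∉ V \ U := fun h => (Finset.mem_sdiff.1 h).2 hi
    simp only [if_neg hiU] at hxi
    refine h0 x ⟨V.erase i, Finset.erase_ssubset (hU hi), ?_⟩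
    intro j hj
    by_cases hji : j = i
    · rw [hji, hxi]
    · have hjV : j ∉ V := fun h => hj (Finset.mem_erase.2 ⟨hji, h⟩)
      have hjVU : j ∉ V \ U := fun h => hjV (Finset.mem_sdiff.1 h).1
      rw [hx j (fun h => hjV (hU h))]
      exact if_neg hjVU
  · intro i hi
    by_cases hiV : i ∈ V
    · exact (if_pos (Finset.mem_sdiff.2 ⟨hiV, hi⟩)).symm
    · have hiVU : i ∉ V \ U := fun h => hiV (Finset.mem_sdiff.1 h).1
      rw [hya i hiV]
      exact (if_neg hiVU).symm

end Pool.Agent.H2.RK
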