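import Pool.Agent.H2.RK.PartsA

/-!
# Lemma C, case (a) (module LemA)
-/

namespace Pool.Agent.H2.RK

open Matrix

variable {F : Type*} {ι : Type*} [Field F] {W : ℕ} [LinearOrder ι]

/-- case (a): the context is split into two contexts with many common letters -/
theorem lemC_a (k : ℕ)
    (hC : ∀ (c : List (Step F ι W)) (a : ι → F) (A : Finset ι), (∀ i ∈ A, cntC c i ≤ k) →
      Ram (NN W k) A (PC (DD W k) c a))
    (c₁ c₂ : List (Step F ι W)) (a : ι → F) (A : Finset ι)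
    (h : ∀ i ∈ A, cntC (c₁ ++ c₂) i ≤ k + 1) (h₁ : ∀ i ∈ A, 0 < cntC c₁ i)
    (h₂ : ∀ i ∈ A, 0 < cntC c₂ i) (m : ℕ) (hA : NN W k (NN W k m) ≤ A.card) :
    ∃ U : Finset ι, U ⊆ A ∧ U.card = m ∧ PC (DD W (k + 1)) (c₁ ++ c₂) a U := by
  have k1 : ∀ i ∈ A, cntC c₁ i ≤ k := by
    intro i hi
    have e1 := h i hi
    have e2 := h₂ i hi
    rw [cntC_append] at e1
    omega
  have k2 : ∀ i ∈ A, cntC c₂ i ≤ k := by
    intro i hi
    have e1 := h i hi
    have e2 := h₁ i hi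
    rw [cntC_append] at e1
    omega
  obtain ⟨U, hU, hcard, hp, hq⟩ := Ram.and (hC c₁ a A k1) (hC c₂ a A k2)
    (fun U U' hUU' => PC.subset hUU') m A (Finset.Subset.refl A) hA
  refine ⟨U, hU, hcard, PC.mono ?_ (PC.append hp hq)⟩
  show W * (DD W k * DD W k) ≤ (W + 1) ^ 7 * (1 + DD W k) ^ 4
  have e1 : W ≤ (W + 1) ^ 7 :=
    (Nat.le_succ W).trans (Nat.le_self_pow (by norm_num) _)
  have e2 : DD W k * DD W k ≤ (1 + DD W k) ^ 4 := by
    calc DD W k * DD W k ≤ (1 + DD W k) * (1 + DD W k) :=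
          Nat.mul_le_mul (by omega) (by omega)
      _ = (1 + DD W k) ^ 2 := by ring
      _ ≤ (1 + DD W k) ^ 4 := Nat.pow_le_pow_right (by omega) (by norm_num)
  exact Nat.mul_le_mul e1 e2

end Pool.Agent.H2.RK
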