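import Pool.Agent.H2.RK.PartsA

/-!
# Lemma C for networks (module LemNet)
-/

namespace Pool.Agent.H2.RK

open Matrix

variable {F : Type*} {ι : Type*} [Field F] {W : ℕ} [LinearOrder ι]

/-- Lemma C for contexts gives Lemma C for networks -/
theorem lemC_net_of (k : ℕ)
    (hC : ∀ (c : List (Step F ι W)) (a : ι → F) (A : Finset ι), (∀ i ∈ A, cntC c i ≤ k) →
      Ram (NN W k) A (PC (DD W k) c a))
    (t : Net F ι W) (a : ι → F) (A : Finset ι) (h : ∀ i ∈ A, t.cnt i ≤ k) :
    Ram (fun m => NN W k m + 1) A (PN (W * DD W k) t a) := by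
  intro m V hV hcard
  change NN W k m + 1 ≤ V.card at hcard
  obtain ⟨c, q, hd, hq⟩ := exists_leaf_dec t
  have main : ∀ V' : Finset ι, V' ⊆ V → NN W k m ≤ V'.card → (∀ i ∈ V', q.cnt i = 0) →
      ∃ U : Finset ι, U ⊆ V ∧ U.card = m ∧ PN (W * DD W k) t a U := by
    intro V' h1 h2 h3
    have h4 : ∀ i ∈ V', cntC c i ≤ k := by
      intro i hi
      have h5 := h i (hV (h1 hi))
      rw [hd.cnt i] at h5
      omega
    obtain ⟨U, h5, h6, h7⟩ := hC c a V' h4 m V' (Finset.Subset.refl _) h2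
    exact ⟨U, h5.trans h1, h6, PN.of_leaf hd (fun i hi => h3 i (h5 hi)) h7⟩
  rcases hq with ⟨i, v, rfl⟩ | ⟨v, rfl⟩
  · refine main (V.erase i) (Finset.erase_subset _ _) ?_ ?_
    · have := Finset.pred_card_le_card_erase (s := V) (a := i)
      omega
    · intro j hj
      have hne : i ≠ j := (Finset.ne_of_mem_erase hj).symm
      simp [Net.cnt, hne]
  · exact main V (Finset.Subset.refl _) (by omega) (fun j _ => rfl)

end Pool.Agent.H2.RK
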