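import Pool.Agent.H2.RK.PartsB
import Pool.Agent.H2.RK.LemNet

/-!
# Lemma C, case (b) (module LemB)

Use `Ram.and` three times and `lemC_net_of` for `q` (or `PN.of_leaf`), then `PC.four`.
-/

namespace Pool.Agent.H2.RK

open Matrix

variable {F : Type*} {ι : Type*} [Field F] {W : ℕ} [LinearOrder ι]

/-- case (b): split at an edge of a sibling -/
theorem lemC_b (k : ℕ)
    (hC : ∀ (c : List (Step F ι W)) (a : ι → F) (A : Finset ι), (∀ i ∈ A, cntC c i ≤ k) →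
      Ram (NN W k) A (PC (DD W k) c a))
    (c₁ c₂ c' : List (Step F ι W)) (B : Bil F W) (t q : Net F ι W) (hd : Dec t c' q)
    (a : ι → F) (A : Finset ι)
    (h : ∀ i ∈ A, cntC (c₁ ++ (B, t) :: c₂) i ≤ k + 1) (h₁ : ∀ i ∈ A, 0 < q.cnt i)
    (h₂ : ∀ i ∈ A, q.cnt i < cntC (c₁ ++ (B, t) :: c₂) i) (m : ℕ)
    (hA : NN W k (NN W k (NN W k (NN W k m + 1))) ≤ A.card) :
    ∃ U : Finset ι, U ⊆ A ∧ U.card = m ∧ PC (DD W (k + 1)) (c₁ ++ (B, t) :: c₂) a U := by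
  have hcnt : ∀ i ∈ A, cntC c₁ i ≤ k ∧ cntC c₂ i ≤ k ∧ cntC c' i ≤ k ∧ q.cnt i ≤ k := by
    intro i hi
    have e1 := h i hi
    have e2 := h₁ i hi
    have e3 := h₂ i hi
    have e4 := Dec.cnt hd i
    rw [cntC_append, cntC_cons] at e1 e3
    dsimp only at e1 e3
    refine ⟨?_, ?_, ?_, ?_⟩ <;> omega
  have r1 := hC c₁ a A fun i hi => (hcnt i hi).1
  have r2 := hC c₂ a A fun i hi => (hcnt i hi).2.1
  have r3 := hC c' a A fun i hi => (hcnt i hi).2.2.1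
  have r4 := lemC_net_of k hC q a A fun i hi => (hcnt i hi).2.2.2
  have r34 := Ram.and r3 r4 fun U U' hU hP => PC.subset hU hP
  have r234 := Ram.and r2 r34 fun U U' hU hP => PC.subset hU hP
  have r := Ram.and r1 r234 fun U U' hU hP => PC.subset hU hP
  obtain ⟨U, hUA, hUm, hP1, hP2, hP3, hP4⟩ := r m A (Finset.Subset.refl _) hA
  refine ⟨U, hUA, hUm, ?_⟩
  refine PC.mono ?_ (PC.four hd hP1 hP2 hP3 hP4)
  show W ^ 4 * (DD W k * DD W k * (W * DD W k) * DD W k) ≤ (W + 1) ^ 7 * (1 + DD W k) ^ 4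
  have g1 : W ^ 4 * (DD W k * DD W k * (W * DD W k) * DD W k) = W ^ 5 * DD W k ^ 4 := by ring
  rw [g1]
  refine Nat.mul_le_mul ?_ (Nat.pow_le_pow_left (by omega) 4)
  exact (Nat.pow_le_pow_left (by omega) 5).trans (Nat.pow_le_pow_right (by omega) (by omega))

end Pool.Agent.H2.RK
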