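import Pool.Agent.H2.RK.Parts
import Pool.Agent.H2.RK.Chain
import Pool.Agent.H2.RK.ChainCtx

/-!
# Lemma C, case (c) (module LemCc)

`n i = cntC c i`.  Either some sibling `t` of `c` has `KN s (MD W m) ≤ privN n A t`: `chain_net`,
`chain_struct`, `PC.chain_net`; or none: `chain_ctx` (with `K = KN s (MD W m)`), `chain_struct`,
`PC.chain_left`.
-/

namespace Pool.Agent.H2.RK

open Matrix

variable {F : Type*} {ι : Type*} [Field F] {W : ℕ} [LinearOrder ι]

private theorem cntC_le_flatten (zs : List (List (Step F ι W) × ι)) (i : ι) :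
    ∀ z ∈ zs, cntC z.1 i ≤ cntC (zs.map Prod.fst).flatten i := by
  induction zs with
  | nil => intro z hz; exact absurd hz (by simp)
  | cons y zs ih =>
    intro z hz
    rw [List.map_cons, List.flatten_cons, cntC_append]
    rcases List.mem_cons.1 hz with rfl | hz
    · omega
    · have := ih z hz
      omega

private theorem chain_aux (n : ι → ℕ) (zs : List (List (Step F ι W) × ι))
    (hz : ∀ z ∈ zs, 0 < n z.2 ∧ cntC z.1 z.2 = n z.2)
    (hle : ∀ i, cntC (zs.map Prod.fst).flatten i ≤ n i) :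
    (zs.map Prod.snd).Nodup ∧ ∀ z ∈ zs, ∀ z' ∈ zs, z.2 ≠ z'.2 → cntC z'.1 z.2 = 0 := by
  induction zs with
  | nil => exact ⟨by simp, fun z hz => absurd hz (by simp)⟩
  | cons y zs ih =>
    have hle' : ∀ i, cntC y.1 i + cntC (zs.map Prod.fst).flatten i ≤ n i := by
      intro i
      have := hle i
      rwa [List.map_cons, List.flatten_cons, cntC_append] at this
    have hz' : ∀ z ∈ zs, 0 < n z.2 ∧ cntC z.1 z.2 = n z.2 := fun z h => hz z (by simp [h])
    have hy := hz y (by simp)
    obtain ⟨ih1, ih2⟩ := ih hz' fun i => by have := hle' i; omega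
    have hfl : ∀ z ∈ zs, n z.2 ≤ cntC (zs.map Prod.fst).flatten z.2 := by
      intro z hzz
      have h1 := cntC_le_flatten zs z.2 z hzz
      rw [(hz' z hzz).2] at h1
      exact h1
    refine ⟨?_, ?_⟩
    · rw [List.map_cons, List.nodup_cons]
      refine ⟨?_, ih1⟩
      intro hmem
      obtain ⟨z, hzz, he⟩ := List.mem_map.1 hmem
      have h1 := hfl z hzz
      have h2 := hle' z.2
      have h3 := (hz' z hzz).1
      have h4 := hy.2
      rw [← he] at h4
      omega
    · intro z hzz z' hzz' hne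
      rcases List.mem_cons.1 hzz with he | hin
      · rcases List.mem_cons.1 hzz' with he' | hin'
        · exact absurd (by rw [he, he']) hne
        · have h1 := cntC_le_flatten zs z.2 z' hin'
          have h2 := hle' z.2
          have h3 := hy.2
          rw [← he] at h3 h2
          omega
      · rcases List.mem_cons.1 hzz' with he' | hin'
        · have h1 := hfl z hin
          have h2 := hle' z.2
          rw [he']
          omega
        · exact ih2 z hin z' hin' hne

/-- case (c): neither (a) nor (b) is possible, all letters occur; chains -/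
theorem lemC_c (k : ℕ) (c : List (Step F ι W)) (a : ι → F) (A : Finset ι) (s m : ℕ)
    (hpos : ∀ i ∈ A, 0 < cntC c i)
    (ha : ∀ c₁ c₂, c = c₁ ++ c₂ →
      (A.filter fun i => 0 < cntC c₁ i ∧ 0 < cntC c₂ i).card < s)
    (hb : ∀ c₁ B t c₂ c' q, c = c₁ ++ (B, t) :: c₂ → Dec t c' q →
      (A.filter fun i => 0 < q.cnt i ∧ q.cnt i < cntC c i).card < s)
    (hA : KC s (MD W m) (MD W m) ≤ A.card) :
    ∃ U : Finset ι, U ⊆ A ∧ U.card = m ∧ PC (DD W (k + 1)) c a U := by
  classical
  have hDD : ∀ r, r ≤ 7 → W ^ r ≤ DD W (k + 1) := by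
    intro r hr
    show W ^ r ≤ (W + 1) ^ 7 * (1 + DD W k) ^ 4
    have h1 : W ^ r ≤ (W + 1) ^ 7 :=
      (Nat.pow_le_pow_left (by omega) r).trans (Nat.pow_le_pow_right (by omega) hr)
    have h2 : 1 ≤ (1 + DD W k) ^ 4 := Nat.one_le_pow _ _ (by omega)
    calc W ^ r = W ^ r * 1 := by ring
      _ ≤ _ := Nat.mul_le_mul h1 h2
  by_cases h1 : ∃ c₁ B t c₂, c = c₁ ++ (B, t) :: c₂ ∧ KN s (MD W m) ≤ privN (cntC c) A t
  · obtain ⟨c₁, B, t, c₂, hc, hK⟩ := h1
    obtain ⟨zs, q, hlen, hd, hz⟩ := chain_net (cntC c) A hpos s (MD W m) t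
      (fun c' q hq => hb c₁ B t c₂ c' q hc hq) hK
    have hcnt : ∀ i, cntC c i = cntC c₁ i + (cntC (zs.map Prod.fst).flatten i + q.cnt i) +
        cntC c₂ i := by
      intro i
      have e := Dec.cnt hd i
      have e2 : cntC c i = cntC c₁ i + (t.cnt i + cntC c₂ i) := by
        rw [hc, cntC_append, cntC_cons]
      omega
    obtain ⟨hnd, hpriv⟩ := chain_aux (cntC c) zs
      (fun z hzz => ⟨hpos _ (hz z hzz).1, (hz z hzz).2⟩)
      (fun i => by have := hcnt i; omega)
    obtain ⟨U, hU, hmem, hstr⟩ := chain_struct zs m hlen.ge hnd hpriv a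
    have hmem' : ∀ i ∈ U, i ∈ A ∧ cntC c i ≤ cntC (zs.map Prod.fst).flatten i := by
      intro i hi
      obtain ⟨z, hzz, he⟩ := List.mem_map.1 (hmem i hi)
      have h2 := cntC_le_flatten zs z.2 z hzz
      rw [(hz z hzz).2] at h2
      rw [← he]
      exact ⟨(hz z hzz).1, h2⟩
    refine ⟨U, fun i hi => (hmem' i hi).1, hU, ?_⟩
    rw [hc]
    refine PC.mono ?_ (PC.chain_net hd hstr ?_ ?_ ?_)
    · have := hDD 7 le_rfl
      calc W ^ 4 * W ^ 3 = W ^ 7 := by ring
        _ ≤ _ := this
    · intro i hi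
      have e1 := hcnt i
      have e2 := (hmem' i hi).2
      omega
    · intro i hi
      have e1 := hcnt i
      have e2 := (hmem' i hi).2
      omega
    · intro i hi
      have e1 := hcnt i
      have e2 := (hmem' i hi).2
      omega
  · push Not at h1
    have hs : ∀ c', c' <:+ c → stradC (cntC c) A c' < s := by
      rintro c' ⟨c₁, hc⟩
      have h2 := ha c₁ c' hc.symm
      refine lt_of_le_of_lt (Finset.card_le_card ?_) h2
      intro i hi
      obtain ⟨hiA, h3, h4⟩ := Finset.mem_filter.1 hi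
      refine Finset.mem_filter.2 ⟨hiA, ?_, h3⟩
      have e : cntC c i = cntC c₁ i + cntC c' i := by rw [← hc, cntC_append]
      omega
    have hK : ∀ st ∈ c, privN (cntC c) A st.2 < KN s (MD W m) := by
      intro st hst
      obtain ⟨c₁, c₂, hc⟩ := List.append_of_mem hst
      exact h1 c₁ st.1 st.2 c₂ hc
    have hP : privC (cntC c) A c = A.card := by
      unfold privC
      rw [Finset.filter_true_of_mem]
      intro i _
      rfl
    obtain ⟨zs, e, hlen, hc, hz⟩ := chain_ctx (cntC c) A hpos s (KN s (MD W m)) (MD W m) c hs hK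
      (by rw [hP]; exact hA)
    have hcnt : ∀ i, cntC c i = cntC (zs.map Prod.fst).flatten i + cntC e i := by
      intro i
      conv_lhs => rw [hc]
      rw [cntC_append]
    obtain ⟨hnd, hpriv⟩ := chain_aux (cntC c) zs
      (fun z hzz => ⟨hpos _ (hz z hzz).1, (hz z hzz).2⟩)
      (fun i => by have := hcnt i; omega)
    obtain ⟨U, hU, hmem, hstr⟩ := chain_struct zs m hlen.ge hnd hpriv a
    have hmem' : ∀ i ∈ U, i ∈ A ∧ cntC c i ≤ cntC (zs.map Prod.fst).flatten i := by
      intro i hi
      obtain ⟨z, hzz, he⟩ := List.mem_map.1 (hmem i hi)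
      have h2 := cntC_le_flatten zs z.2 z hzz
      rw [(hz z hzz).2] at h2
      rw [← he]
      exact ⟨(hz z hzz).1, h2⟩
    refine ⟨U, fun i hi => (hmem' i hi).1, hU, ?_⟩
    have hPC : PC (W * W ^ 3) ((zs.map Prod.fst).flatten ++ e) a U := by
      refine PC.chain_left hstr ?_
      intro i hi
      have e1 := hcnt i
      have e2 := (hmem' i hi).2
      omega
    rw [← hc] at hPC
    refine PC.mono ?_ hPC
    have := hDD 4 (by norm_num)
    calc W * W ^ 3 = W ^ 4 := by ring
      _ ≤ _ := this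

end Pool.Agent.H2.RK
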