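import Pool.Agent.H2.RK.LemA
import Pool.Agent.H2.RK.LemB
import Pool.Agent.H2.RK.LemCc

/-!
# Lemma C (module LemC): induction on the number of occurrences
-/

namespace Pool.Agent.H2.RK

open Matrix

variable {F : Type*} {ι : Type*} [Field F] {W : ℕ} [LinearOrder ι]

private theorem lemC_DD_pos (k : ℕ) : 1 ≤ DD W k := by
  cases k with
  | zero => exact le_refl 1
  | succ k =>
    show 1 ≤ (W + 1) ^ 7 * (1 + DD W k) ^ 4
    exact Nat.one_le_iff_ne_zero.mpr (by positivity)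

private theorem lemC_step (k : ℕ)
    (hC : ∀ (c : List (Step F ι W)) (a : ι → F) (A : Finset ι), (∀ i ∈ A, cntC c i ≤ k) →
      Ram (NN W k) A (PC (DD W k) c a))
    (c : List (Step F ι W)) (a : ι → F) (A : Finset ι) (h : ∀ i ∈ A, cntC c i ≤ k + 1) :
    Ram (NN W (k + 1)) A (PC (DD W (k + 1)) c a) := by
  classical
  intro m V hV hcard
  obtain ⟨s, hs⟩ : ∃ s, s = NN W k (NN W k m) + NN W k (NN W k (NN W k (NN W k m + 1))) :=
    ⟨_, rfl⟩
  have hNN : NN W (k + 1) m = m + KC s (MD W m) (MD W m) := by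
    rw [hs]
    rfl
  rw [hNN] at hcard
  obtain ⟨Z, hZ⟩ : ∃ Z : Finset ι, Z = V.filter fun i => cntC c i = 0 := ⟨_, rfl⟩
  obtain ⟨P, hP⟩ : ∃ P : Finset ι, P = V.filter fun i => ¬ cntC c i = 0 := ⟨_, rfl⟩
  have hZP : Z.card + P.card = V.card := by
    rw [hZ, hP]
    exact Finset.card_filter_add_card_filter_not _
  have hPV : P ⊆ V := by
    rw [hP]
    exact Finset.filter_subset _ _
  by_cases hz : m ≤ Z.card
  · obtain ⟨U, hU, hUc⟩ := Finset.exists_subset_card_eq hz
    refine ⟨U, hU.trans (by rw [hZ]; exact Finset.filter_subset _ _), hUc, ?_⟩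
    refine PC.mono (lemC_DD_pos (k + 1)) (PC.of_const ?_)
    intro i hi
    have := hU hi
    rw [hZ, Finset.mem_filter] at this
    exact this.2
  have hPc : KC s (MD W m) (MD W m) ≤ P.card := by omega
  have hpos : ∀ i ∈ P, 0 < cntC c i := by
    intro i hi
    rw [hP, Finset.mem_filter] at hi
    exact Nat.pos_of_ne_zero hi.2
  have hle : ∀ i ∈ P, cntC c i ≤ k + 1 := fun i hi => h i (hV (hPV hi))
  by_cases ha : ∀ c₁ c₂, c = c₁ ++ c₂ →
      (P.filter fun i => 0 < cntC c₁ i ∧ 0 < cntC c₂ i).card < s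
  · by_cases hb : ∀ c₁ B t c₂ c' q, c = c₁ ++ (B, t) :: c₂ → Dec t c' q →
      (P.filter fun i => 0 < q.cnt i ∧ q.cnt i < cntC c i).card < s
    · obtain ⟨U, hU, hUc, hUP⟩ := lemC_c k c a P s m hpos ha hb hPc
      exact ⟨U, hU.trans hPV, hUc, hUP⟩
    · push Not at hb
      obtain ⟨c₁, B, t, c₂, c', q, hc, hd, hq⟩ := hb
      subst hc
      obtain ⟨U, hU, hUc, hUP⟩ := lemC_b k hC c₁ c₂ c' B t q hd a _
        (fun i hi => hle i (Finset.mem_filter.mp hi).1)
        (fun i hi => (Finset.mem_filter.mp hi).2.1)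
        (fun i hi => (Finset.mem_filter.mp hi).2.2) m
        (le_trans (by rw [hs]; exact Nat.le_add_left _ _) hq)
      exact ⟨U, (hU.trans (Finset.filter_subset _ _)).trans hPV, hUc, hUP⟩
  · push Not at ha
    obtain ⟨c₁, c₂, hc, hq⟩ := ha
    subst hc
    obtain ⟨U, hU, hUc, hUP⟩ := lemC_a k hC c₁ c₂ a _
      (fun i hi => hle i (Finset.mem_filter.mp hi).1)
      (fun i hi => (Finset.mem_filter.mp hi).2.1)
      (fun i hi => (Finset.mem_filter.mp hi).2.2) m
      (le_trans (by rw [hs]; exact Nat.le_add_right _ _) hq)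
    exact ⟨U, (hU.trans (Finset.filter_subset _ _)).trans hPV, hUc, hUP⟩

/-- Lemma C -/
theorem lemC (k : ℕ) : ∀ (c : List (Step F ι W)) (a : ι → F) (A : Finset ι),
    (∀ i ∈ A, cntC c i ≤ k) → Ram (NN W k) A (PC (DD W k) c a) := by
  induction k with
  | zero =>
    intro c a A h m V hV hcard
    obtain ⟨U, hU, hUc⟩ := Finset.exists_subset_card_eq (n := m) (s := V) hcard
    refine ⟨U, hU, hUc, PC.of_const ?_⟩
    intro i hi
    exact Nat.le_zero.mp (h i (hV (hU hi)))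
  | succ k ih =>
    intro c a A h
    exact lemC_step k ih c a A h

/-- Lemma C for networks -/
theorem lemC_net (k : ℕ) (t : Net F ι W) (a : ι → F) (A : Finset ι)
    (h : ∀ i ∈ A, t.cnt i ≤ k) : Ram (fun m => NN W k m + 1) A (PN (W * DD W k) t a) :=
  lemC_net_of k (lemC k) t a A h

end Pool.Agent.H2.RK
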