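import Pool.Agent.H2.RK.StrD

/-!
# The Ramsey property (module Ram)
-/

namespace Pool.Agent.H2.RK

variable {F : Type*} {ι : Type*} [Field F] {W : ℕ} [LinearOrder ι]

theorem Ram.and {N N' : ℕ → ℕ} {A : Finset ι} {P Q : Finset ι → Prop}
    (hP : Ram N A P) (hQ : Ram N' A Q) (hc : ∀ U U' : Finset ι, U' ⊆ U → P U → P U') :
    Ram (fun m => N (N' m)) A (fun U => P U ∧ Q U) := by
  intro m V hV hcard
  obtain ⟨U₁, h1, h2, h3⟩ := hP (N' m) V hV hcard
  obtain ⟨U, g1, g2, g3⟩ := hQ m U₁ (h1.trans hV) h2.ge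
  exact ⟨U, g1.trans h1, g2, hc _ _ g1 h3, g3⟩

theorem PC.subset {D : ℕ} {c : List (Step F ι W)} {a : ι → F} {U U' : Finset ι} (h : U' ⊆ U)
    (hU : PC D c a U) : PC D c a U' := fun b hb p q => Str.subset h (hU b hb p q)

theorem PN.subset {D : ℕ} {t : Net F ι W} {a : ι → F} {U U' : Finset ι} (h : U' ⊆ U)
    (hU : PN D t a U) : PN D t a U' := fun b hb p => Str.subset h (hU b hb p)

theorem PC.mono {D D' : ℕ} (h : D ≤ D') {c : List (Step F ι W)} {a : ι → F} {U : Finset ι}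
    (hU : PC D c a U) : PC D' c a U := fun b hb p q => Str.mono h (hU b hb p q)

theorem PN.mono {D D' : ℕ} (h : D ≤ D') {t : Net F ι W} {a : ι → F} {U : Finset ι}
    (hU : PN D t a U) : PN D' t a U := fun b hb p => Str.mono h (hU b hb p)

end Pool.Agent.H2.RK
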