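import Pool.Agent.H2.RK.Basic
import Pool.Agent.H2.RK.Ram

/-!
# Putting the parts together (module PartsB)

All statements are of the type: sum of products of structured functions; expand the entry of the product of
matrices as a finite sum over `Fin W` (or a product of copies of `Fin W`), use `Str.mul`,
`Str.smul`, `Str.sum`; factors that do not depend on the letters of `U` are constants on
`x = b` off `U` (use `Str.congr`, `val_congr`, `tr_congr`).
-/

namespace Pool.Agent.H2.RK

open Matrix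

variable {F : Type*} {ι : Type*} [Field F] {W : ℕ} [LinearOrder ι]

omit [LinearOrder ι] in
/-- expansion of the entries of the transfer matrix at a sibling -/
private theorem tr_expand {c₁ c₂ d : List (Step F ι W)} {B : Bil F W} {t q : Net F ι W}
    (hd : Dec t d q) (x : ι → F) (p r : Fin W) :
    tr (c₁ ++ (B, t) :: c₂) x p r =
      ∑ k : Fin W × Fin W × Fin W × Fin W,
        B k.1 k.2.1 k.2.2.1 * (tr c₁ x p k.1 * tr d x k.2.2.1 k.2.2.2 * q.val x k.2.2.2 *
          tr c₂ x k.2.1 r) := by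
  rw [tr_append, tr_cons]
  simp only [Matrix.mul_apply, smat, bmat, Matrix.of_apply, hd.val x, Matrix.mulVec, dotProduct,
    Fintype.sum_prod_type]
  refine Finset.sum_congr rfl fun u _ => ?_
  rw [Finset.mul_sum]
  refine Finset.sum_congr rfl fun v _ => ?_
  rw [Finset.sum_mul, Finset.mul_sum]
  refine Finset.sum_congr rfl fun w _ => ?_
  rw [Finset.mul_sum, Finset.sum_mul, Finset.mul_sum]
  refine Finset.sum_congr rfl fun z _ => ?_
  ring

private theorem card_four : (Finset.univ : Finset (Fin W × Fin W × Fin W × Fin W)).card = W ^ 4 := by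
  simp only [Finset.card_univ, Fintype.card_prod, Fintype.card_fin]
  ring

/-- the four parts of a context split at an edge of a sibling -/
theorem PC.four {D D' : ℕ} {c₁ c₂ c' : List (Step F ι W)} {B : Bil F W} {t q : Net F ι W}
    (hd : Dec t c' q) {a : ι → F} {U : Finset ι}
    (h₁ : PC D c₁ a U) (h₂ : PC D c₂ a U) (h₃ : PC D c' a U) (h₄ : PN D' q a U) :
    PC (W ^ 4 * (D * D * D' * D)) (c₁ ++ (B, t) :: c₂) a U := by
  intro b hb p r
  have e : c₁ ++ (B, t) :: c₂ = (c₁ ++ [(B, t)]) ++ c₂ := by simp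
  have r₁ : REqC c₁ a b := hb.left
  have r₂ : REqC c₂ a b := by
    rw [e] at hb
    exact hb.right
  have rt : REqN t a b := hb.step (s := (B, t)) (by simp)
  have r₃ : REqC c' a b := rt.dec_ctx hd
  have r₄ : REqN q a b := rt.dec_net hd
  rw [← card_four]
  refine Str.congr (Str.sum Finset.univ
    (f := fun (k : Fin W × Fin W × Fin W × Fin W) (x : ι → F) =>
      B k.1 k.2.1 k.2.2.1 * (tr c₁ x p k.1 * tr c' x k.2.2.1 k.2.2.2 * q.val x k.2.2.2 *
          tr c₂ x k.2.1 r)) fun k _ => ?_) fun x _ => tr_expand hd x p r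
  exact Str.smul ((((h₁ b r₁ _ _).mul (h₃ b r₃ _ _)).mul (h₄ b r₄ _)).mul (h₂ b r₂ _ _)) _

/-- chain in a sibling: `c = c₁ ++ (B, t) :: c₂`, `Dec t d q`, and `c₁, c₂, q` without letters
of `U` -/
theorem PC.chain_net {D : ℕ} {c₁ c₂ d : List (Step F ι W)} {B : Bil F W} {t q : Net F ι W}
    (hd : Dec t d q) {a : ι → F} {U : Finset ι}
    (h : ∀ b, (∀ d', d' <:+: d → (tr d' b).rank = (tr d' a).rank) →
      ∀ p q, Str D U b fun x => tr d x p q)
    (h₁ : ∀ i ∈ U, cntC c₁ i = 0) (h₂ : ∀ i ∈ U, cntC c₂ i = 0) (hq : ∀ i ∈ U, q.cnt i = 0) :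
    PC (W ^ 4 * D) (c₁ ++ (B, t) :: c₂) a U := by
  intro b hb p r
  have rt : REqN t a b := hb.step (s := (B, t)) (by simp)
  have hs := h b fun d' hd' => rt d' ⟨d, q, hd, hd'⟩
  rw [← card_four]
  refine Str.congr (Str.sum Finset.univ
    (f := fun (k : Fin W × Fin W × Fin W × Fin W) (x : ι → F) =>
      (B k.1 k.2.1 k.2.2.1 * (tr c₁ b p k.1 * q.val b k.2.2.2 * tr c₂ b k.2.1 r)) *
        tr d x k.2.2.1 k.2.2.2) fun k _ => ?_) fun x hx => ?_
  · exact Str.smul (hs _ _) _
  · have e₁ : tr c₁ x = tr c₁ b := tr_congr c₁ fun i hi => hx i fun hU => by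
      rw [h₁ i hU] at hi
      exact lt_irrefl _ hi
    have e₂ : tr c₂ x = tr c₂ b := tr_congr c₂ fun i hi => hx i fun hU => by
      rw [h₂ i hU] at hi
      exact lt_irrefl _ hi
    have e₃ : q.val x = q.val b := val_congr q fun i hi => hx i fun hU => by
      rw [hq i hU] at hi
      exact lt_irrefl _ hi
    rw [tr_expand hd x p r]
    refine Finset.sum_congr rfl fun k _ => ?_
    rw [e₁, e₂, e₃]
    ring

end Pool.Agent.H2.RK
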