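import Pool.Agent.H2.RK.Basic
import Pool.Agent.H2.RK.Ram

/-!
# Putting the parts together (module PartsA)

All statements are of the type: sum of products of structured functions; expand the entry of the product of
matrices as a finite sum over `Fin W` (or a product of copies of `Fin W`), use `Str.mul`,
`Str.smul`, `Str.sum`; factors that do not depend on the letters of `U` are constants on
`x = b` off `U` (use `Str.congr`, `val_congr`, `tr_congr`).
-/

namespace Pool.Agent.H2.RK

open Matrix

variable {F : Type*} {ι : Type*} [Field F] {W : ℕ} [LinearOrder ι]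

/-- contexts without letters of `U` -/
theorem PC.of_const {c : List (Step F ι W)} {a : ι → F} {U : Finset ι}
    (h : ∀ i ∈ U, cntC c i = 0) : PC 1 c a U := by
  intro b _ p q
  refine Str.congr (Str.const U b (tr c b p q)) fun x hx => ?_
  have e : tr c x = tr c b := tr_congr c fun i hi => hx i fun hU => by
    rw [h i hU] at hi
    exact lt_irrefl _ hi
  rw [e]

/-- composition of two contexts -/
theorem PC.append {D : ℕ} {c c' : List (Step F ι W)} {a : ι → F} {U : Finset ι}
    (h : PC D c a U) (h' : PC D c' a U) : PC (W * (D * D)) (c ++ c') a U := by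
  intro b hb p r
  have hW : (Finset.univ : Finset (Fin W)).card = W := by simp
  have key := Str.sum Finset.univ (f := fun (k : Fin W) (x : ι → F) =>
      tr c x p k * tr c' x k r)
    fun k _ => (h b hb.left p k).mul (h' b hb.right k r)
  rw [hW] at key
  refine Str.congr key fun x _ => ?_
  rw [tr_append, Matrix.mul_apply]

/-- the value of a network through a path to a leaf (or constant) whose letter is not in `U` -/
theorem PN.of_leaf {D : ℕ} {t q : Net F ι W} {c : List (Step F ι W)} (hd : Dec t c q)
    {a : ι → F} {U : Finset ι} (hq : ∀ i ∈ U, q.cnt i = 0) (h : PC D c a U) :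
    PN (W * D) t a U := by
  intro b hb p
  have hW : (Finset.univ : Finset (Fin W)).card = W := by simp
  have key := Str.sum Finset.univ (f := fun (k : Fin W) (x : ι → F) =>
      q.val b k * tr c x p k)
    fun k _ => (h b (hb.dec_ctx hd) p k).smul (q.val b k)
  rw [hW] at key
  refine Str.congr key fun x hx => ?_
  have e : q.val x = q.val b := val_congr q fun i hi => hx i fun hU => by
    rw [hq i hU] at hi
    exact lt_irrefl _ hi
  rw [hd.val x, e]
  simp only [Matrix.mulVec, dotProduct]
  exact Finset.sum_congr rfl fun k _ => mul_comm _ _

/-- chain in the context: `c = d ++ e`, `e` without letters of `U` -/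
theorem PC.chain_left {D : ℕ} {d e : List (Step F ι W)} {a : ι → F} {U : Finset ι}
    (h : ∀ b, (∀ d', d' <:+: d → (tr d' b).rank = (tr d' a).rank) →
      ∀ p q, Str D U b fun x => tr d x p q)
    (he : ∀ i ∈ U, cntC e i = 0) : PC (W * D) (d ++ e) a U := by
  intro b hb p r
  have hW : (Finset.univ : Finset (Fin W)).card = W := by simp
  have hs := h b fun d' hd' => hb.left d' (Or.inl hd')
  have key := Str.sum Finset.univ (f := fun (k : Fin W) (x : ι → F) =>
      tr e b k r * tr d x p k)
    fun k _ => (hs p k).smul (tr e b k r)
  rw [hW] at key
  refine Str.congr key fun x hx => ?_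
  have e1 : tr e x = tr e b := tr_congr e fun i hi => hx i fun hU => by
    rw [he i hU] at hi
    exact lt_irrefl _ hi
  rw [tr_append, e1, Matrix.mul_apply]
  exact Finset.sum_congr rfl fun k _ => mul_comm _ _

end Pool.Agent.H2.RK
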