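import Pool.Agent.H2.RK.PolyA

/-!
# Choice of generic constants (module Poly)

`Pool.Agent.H20.Edm.Minor`: `exists_minor`, `eval_minor`, `le_rank_of_minor`.  Substitute constants
for the letters off `V` (for `f`) and off `V` minus `U` (for the minors), multiply the nonzero
polynomials, take a point where the product does not vanish (`MvPolynomial.funext`).
-/

namespace Pool.Agent.H2.RK

open Matrix

variable {F : Type*} {ι : Type*} [Field F] {W : ℕ}

/-- keep the letters of `V`, put constants elsewhere -/
private noncomputable def poly_sub [DecidableEq ι] (V : Finset ι) (a : ι → F)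
    (f : MvPolynomial ι F) : MvPolynomial ι F :=
  MvPolynomial.bind₁ (fun i => if i ∈ V then MvPolynomial.X i else MvPolynomial.C (a i)) f

private theorem poly_eval_sub [DecidableEq ι] (V : Finset ι) (a y : ι → F)
    (f : MvPolynomial ι F) :
    MvPolynomial.eval y (poly_sub V a f)
      = MvPolynomial.eval (fun i => if i ∈ V then y i else a i) f := by
  have h := MvPolynomial.eval₂Hom_bind₁ (RingHom.id F) y
    (fun i => if i ∈ V then MvPolynomial.X i else MvPolynomial.C (a i)) f
  have h1 : (fun i => MvPolynomial.eval₂Hom (RingHom.id F) y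
      (if i ∈ V then (MvPolynomial.X i : MvPolynomial ι F) else MvPolynomial.C (a i)))
      = fun i => if i ∈ V then y i else a i := by
    funext i
    split_ifs <;> simp
  rw [h1] at h
  exact h

private theorem poly_exists_point [Infinite F] (L : List (MvPolynomial ι F))
    (hL : ∀ g ∈ L, g ≠ 0) : ∃ y : ι → F, ∀ g ∈ L, MvPolynomial.eval y g ≠ 0 := by
  have h0 : L.prod ≠ 0 := by
    intro h
    exact hL 0 (List.prod_eq_zero_iff.1 h) rfl
  have h1 : ∃ y : ι → F, MvPolynomial.eval y L.prod ≠ 0 := by
    by_contra hcon
    push Not at hcon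
    exact h0 (MvPolynomial.funext fun y => by rw [hcon y, map_zero])
  obtain ⟨y, hy⟩ := h1
  refine ⟨y, fun g hg h => hy ?_⟩
  rw [map_list_prod]
  exact List.prod_eq_zero (List.mem_map.2 ⟨g, hg, h⟩)

/-- choice of the generic constants (section 3 of the paper) -/
theorem exists_good [Infinite F] [DecidableEq ι] (V U : Finset ι) (hU : U ⊆ V) (a : ι → F)
    (ds : List (List (Step F ι W))) (f : MvPolynomial ι F) (x₀ : ι → F)
    (hx₀ : ∀ i, i ∉ V → x₀ i = a i) (hf : MvPolynomial.eval x₀ f ≠ 0) :
    ∃ y : ι → F, (∀ i, i ∉ V → y i = a i) ∧ MvPolynomial.eval y f ≠ 0 ∧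
      ∀ d ∈ ds, (tr d a).rank ≤
        (tr d fun i => if i ∈ V \ U then y i else a i).rank := by
  classical
  have hminor : ∀ d : List (Step F ι W), ∃ (r : Fin (tr d a).rank → Fin W)
      (s : Fin (tr d a).rank → Fin W), ((tr d a).submatrix r s).det ≠ 0 :=
    fun d => Pool.Agent.H20.Edm.exists_minor (tr d a) le_rfl
  choose r s hrs using hminor
  let M : List (Step F ι W) → MvPolynomial ι F := fun d => ((ptr d).submatrix (r d) (s d)).det
  have hM : ∀ d x, MvPolynomial.eval x (M d) = ((tr d x).submatrix (r d) (s d)).det := by
    intro d x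
    rw [← eval_ptr d x]
    exact (Pool.Agent.H20.Edm.eval_minor (ptr d) x (r d) (s d)).symm
  obtain ⟨y, hy⟩ := poly_exists_point
    (poly_sub V a f :: ds.map fun d => poly_sub (V \ U) a (M d)) (by
      intro g hg
      rcases List.mem_cons.1 hg with rfl | hg
      · intro h0
        apply hf
        have h1 := poly_eval_sub V a x₀ f
        rw [h0, map_zero] at h1
        have h2 : (fun i => if i ∈ V then x₀ i else a i) = x₀ := by
          funext i
          by_cases hi : i ∈ V
          · simp [hi]
          · simp [hi, hx₀ i hi]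
        rw [h2] at h1
        exact h1.symm
      · obtain ⟨d, -, rfl⟩ := List.mem_map.1 hg
        intro h0
        apply hrs d
        have h1 := poly_eval_sub (V \ U) a a (M d)
        rw [h0, map_zero] at h1
        have h2 : (fun i => if i ∈ V \ U then a i else a i) = a := by
          funext i
          simp
        rw [h2, hM] at h1
        exact h1.symm)
  refine ⟨fun i => if i ∈ V then y i else a i, fun i hi => by simp [hi], ?_, fun d hd => ?_⟩
  · rw [← poly_eval_sub]
    exact hy _ (List.mem_cons_self ..)
  · have h1 := hy _ (List.mem_cons_of_mem _ (List.mem_map.2 ⟨d, hd, rfl⟩))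
    rw [poly_eval_sub, hM] at h1
    have h2 : (fun i => if i ∈ V \ U then (if i ∈ V then y i else a i) else a i)
        = fun i => if i ∈ V \ U then y i else a i := by
      funext i
      by_cases hi : i ∈ V \ U
      · simp only [hi, if_true, (Finset.mem_sdiff.1 hi).1]
      · simp only [hi, if_false]
    rw [h2]
    exact Pool.Agent.H20.Edm.le_rank_of_minor _ _ _ h1

end Pool.Agent.H2.RK
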