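import Pool.Agent.H2.RK.Basic
import Pool.Agent.H20.Edm.Minor

/-!
# Polynomial versions (module PolyA)

`Pool.Agent.H20.Edm.Minor` has `exists_minor`, `eval_minor`, `le_rank_of_minor`,
`degreeOf_det_le`.
-/

namespace Pool.Agent.H2.RK

open Matrix

variable {F : Type*} {ι : Type*} [Field F] {W : ℕ}

/-- the value of a network as a vector of polynomials -/
noncomputable def Net.pval : Net F ι W → Fin W → MvPolynomial ι F
  | .leaf i v => fun p => (v p).aeval (MvPolynomial.X i : MvPolynomial ι F)
  | .const v => fun p => MvPolynomial.C (v p)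
  | .node B l r => fun p => ∑ u, ∑ v, MvPolynomial.C (B p u v) * l.pval u * r.pval v

/-- the transfer matrix as a matrix of polynomials -/
noncomputable def ptr (c : List (Step F ι W)) : Matrix (Fin W) (Fin W) (MvPolynomial ι F) :=
  (c.map fun s => Matrix.of fun p u => ∑ w, MvPolynomial.C (s.1 p u w) * s.2.pval w).prod

theorem eval_pval (t : Net F ι W) (p : Fin W) (x : ι → F) :
    MvPolynomial.eval x (t.pval p) = t.val x p := by
  induction t generalizing p with
  | leaf i v =>
    show MvPolynomial.eval x ((Polynomial.aeval (MvPolynomial.X i : MvPolynomial ι F)) (v p))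
      = (v p).eval (x i)
    rw [Polynomial.aeval_def, Polynomial.hom_eval₂, MvPolynomial.eval_X]
    have h : (MvPolynomial.eval x).comp (algebraMap F (MvPolynomial ι F)) = RingHom.id F := by
      ext y
      simp [MvPolynomial.algebraMap_eq]
    rw [h]
    rfl
  | const v =>
    show MvPolynomial.eval x (MvPolynomial.C (v p)) = v p
    simp
  | node B l r ihl ihr =>
    show MvPolynomial.eval x (∑ u, ∑ v, MvPolynomial.C (B p u v) * l.pval u * r.pval v)
      = ∑ u, ∑ v, B p u v * l.val x u * r.val x v
    rw [map_sum]
    refine Finset.sum_congr rfl fun u _ => ?_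
    rw [map_sum]
    refine Finset.sum_congr rfl fun v _ => ?_
    rw [map_mul, map_mul, MvPolynomial.eval_C, ihl, ihr]

theorem eval_ptr (c : List (Step F ι W)) (x : ι → F) :
    (ptr c).map (MvPolynomial.eval x) = tr c x := by
  have key : ∀ s : Step F ι W,
      (Matrix.of fun p u => ∑ w, MvPolynomial.C (s.1 p u w) * s.2.pval w :
        Matrix (Fin W) (Fin W) (MvPolynomial ι F)).map (MvPolynomial.eval x) = smat s x := by
    intro s
    ext p u
    simp only [Matrix.map_apply, Matrix.of_apply, smat, bmat, map_sum, map_mul,
      MvPolynomial.eval_C, eval_pval]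
  induction c with
  | nil =>
    simp only [ptr, tr, List.map_nil, List.prod_nil]
    exact Matrix.map_one _ (map_zero _) (map_one _)
  | cons s c ih =>
    have h1 : ptr (s :: c) = (Matrix.of fun p u => ∑ w, MvPolynomial.C (s.1 p u w) * s.2.pval w :
        Matrix (Fin W) (Fin W) (MvPolynomial ι F)) * ptr c := by
      simp only [ptr, List.map_cons, List.prod_cons]
    have h2 : tr (s :: c) x = smat s x * tr c x := by
      simp only [tr, List.map_cons, List.prod_cons]
    rw [h1, h2, Matrix.map_mul, ih, key]

end Pool.Agent.H2.RK
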