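import Pool.Agent.H2.RK.Defs

/-!
# Structured functions, list level closure (module StrA)
-/

namespace Pool.Agent.H2.RK

open Matrix

variable {F : Type*} {ι : Type*} [Field F]

theorem StrL.mono {D D' : ℕ} (h : D ≤ D') {L : List ι} {b : ι → F} {f : (ι → F) → F}
    (hf : StrL D L b f) : StrL D' L b f := by
  obtain ⟨κ, i1, i2, E, C, h1, h2, h3⟩ := hf
  exact ⟨κ, i1, i2, E, C, h1.trans h, h2, h3⟩

theorem StrL.congr {D : ℕ} {L : List ι} {b : ι → F} {f g : (ι → F) → F}
    (hf : StrL D L b f) (h : ∀ x : ι → F, (∀ i, i ∉ L → x i = b i) → g x = f x) :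
    StrL D L b g := by
  obtain ⟨κ, i1, i2, E, C, h1, h2, h3⟩ := hf
  exact ⟨κ, i1, i2, E, C, h1, h2, fun x hx => (h x hx).trans (h3 x hx)⟩

/-- constants -/
theorem StrL.const (L : List ι) (b : ι → F) (c : F) : StrL 1 L b fun _ => c := by
  refine ⟨Unit, inferInstance, inferInstance, fun _ _ => 1, Matrix.of fun _ _ => c, by simp,
    fun i _ => isUnit_one, fun x _ => ?_⟩
  have h : (L.map fun i => (1 : Matrix Unit Unit F)).prod = 1 := by
    induction L with
    | nil => simp
    | cons a L ih => simp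
  rw [h, mul_one]
  simp [Matrix.trace]

private theorem prod_fromBlocks {κ κ' : Type} [Fintype κ] [DecidableEq κ] [Fintype κ']
    [DecidableEq κ'] (A : ι → Matrix κ κ F) (B : ι → Matrix κ' κ' F) (L : List ι) :
    (L.map fun i => Matrix.fromBlocks (A i) 0 0 (B i)).prod =
      Matrix.fromBlocks (L.map A).prod 0 0 (L.map B).prod := by
  induction L with
  | nil => simp [Matrix.fromBlocks_one]
  | cons a L ih =>
    simp only [List.map_cons, List.prod_cons, ih, Matrix.fromBlocks_multiply]
    simp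

/-- sums (block diagonal matrices) -/
theorem StrL.add {D D' : ℕ} {L : List ι} {b : ι → F} {f g : (ι → F) → F}
    (hf : StrL D L b f) (hg : StrL D' L b g) : StrL (D + D') L b fun x => f x + g x := by
  obtain ⟨κ, i1, i2, E, C, h1, h2, h3⟩ := hf
  obtain ⟨κ', j1, j2, E', C', k1, k2, k3⟩ := hg
  refine ⟨κ ⊕ κ', inferInstance, inferInstance,
    fun i s => Matrix.fromBlocks (E i s) 0 0 (E' i s), Matrix.fromBlocks C 0 0 C', ?_, ?_, ?_⟩
  · rw [Fintype.card_sum]
    omega
  · intro i hi
    rw [Matrix.isUnit_iff_isUnit_det, Matrix.det_fromBlocks_zero₂₁]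
    exact ((Matrix.isUnit_iff_isUnit_det _).mp (h2 i hi)).mul
      ((Matrix.isUnit_iff_isUnit_det _).mp (k2 i hi))
  · intro x hx
    show f x + g x = _
    rw [prod_fromBlocks (fun i => E i (x i)) (fun i => E' i (x i)) L,
      Matrix.fromBlocks_multiply, h3 x hx, k3 x hx]
    simp [Matrix.trace]

end Pool.Agent.H2.RK
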